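import Mathlib.Algebra.Notation.Lemmas
import Mathlib.Tactic.LinearCombination
import Mathlib.Analysis.Normed.Field.Basic
import Mathlib.Algebra.Order.Star.Real

set_option autoImplicit false

namespace Pool.Agent.MP_8fe08c_co.h31

variable {V : Type} (X Y : V → ℝ) (ix : V → ℕ)

/-- Power of a point with respect to a circle. -/
def pw (cx cy R : ℝ) (p : V) : ℝ := (X p - cx) ^ 2 + (Y p - cy) ^ 2 - R

/-- Orientation determinant. -/
def dt (p q w : V) : ℝ := (X q - X p) * (Y w - Y p) - (Y q - Y p) * (X w - X p)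

/-- An empty circle through `p` and `q` in whose fan triangulation `p q` is an edge. -/
structure Wit (p q : V) (cx cy R : ℝ) : Prop where
  emp : ∀ w, 0 ≤ pw X Y cx cy R w
  tp : pw X Y cx cy R p = 0
  tq : pw X Y cx cy R q = 0
  fan : (∀ w w', pw X Y cx cy R w = 0 → pw X Y cx cy R w' = 0 → w ≠ p → w ≠ q → w' ≠ p → w' ≠ q →
      0 < dt X Y p q w * dt X Y p q w') ∨ (∀ w, pw X Y cx cy R w = 0 → ix p ≤ ix w) ∨
      (∀ w, pw X Y cx cy R w = 0 → ix q ≤ ix w)

/-- Adjacency in the Delaunay fan graph. -/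
def Adj (p q : V) : Prop := p ≠ q ∧ ∃ cx cy R, Wit X Y ix p q cx cy R

variable {X Y ix}

theorem Wit.symm {p q : V} {cx cy R : ℝ} (h : Wit X Y ix p q cx cy R) : Wit X Y ix q p cx cy R := by
  refine ⟨h.emp, h.tq, h.tp, ?_⟩
  rcases h.fan with h1 | h1 | h1
  · left
    intro w w' a b c d e f
    have := h1 w w' a b d c f e
    have e1 : ∀ z, dt X Y q p z = -dt X Y p q z := by intro z; unfold dt; ring
    rw [e1, e1]; linarith
  · right; right; exact h1
  · right; left; exact h1

theorem Adj.symm {p q : V} (h : Adj X Y ix p q) : Adj X Y ix q p := by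
  obtain ⟨h1, cx, cy, R, h2⟩ := h
  exact ⟨h1.symm, cx, cy, R, h2.symm⟩

theorem sq_pos_of_ne (hinj : ∀ p q, X p = X q → Y p = Y q → p = q) {p q : V} (h : p ≠ q) :
    0 < (X p - X q) ^ 2 + (Y p - Y q) ^ 2 := by
  by_contra hc
  push Not at hc
  have h1 : X p - X q = 0 := by nlinarith [sq_nonneg (X p - X q), sq_nonneg (Y p - Y q)]
  have h2 : Y p - Y q = 0 := by nlinarith [sq_nonneg (X p - X q), sq_nonneg (Y p - Y q)]
  exact h (hinj p q (by linarith) (by linarith))

/-- Three distinct points of a circle are not collinear. -/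
theorem dt_ne_zero (hinj : ∀ p q, X p = X q → Y p = Y q → p = q) {cx cy R : ℝ} {b z w : V}
    (hb : pw X Y cx cy R b = 0) (hz : pw X Y cx cy R z = 0) (hw : pw X Y cx cy R w = 0)
    (h1 : z ≠ b) (h2 : w ≠ b) (h3 : w ≠ z) : dt X Y b z w ≠ 0 := by
  intro h0
  have p1 := sq_pos_of_ne hinj h1
  have p2 := sq_pos_of_ne hinj h2
  have p3 := sq_pos_of_ne hinj h3
  unfold pw at hb hz hw
  unfold dt at h0
  set px := X z - X b
  set py := Y z - Y b
  set qx := X w - X b
  set qy := Y w - Y b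
  set nx := cx - X b
  set ny := cy - Y b
  have e1 : px ^ 2 + py ^ 2 = 2 * (nx * px + ny * py) := by
    simp only [px, py, nx, ny]; linear_combination hz - hb
  have e2 : qx ^ 2 + qy ^ 2 = 2 * (nx * qx + ny * qy) := by
    simp only [qx, qy, nx, ny]; linear_combination hw - hb
  have e3 : X w - X z = qx - px := by simp only [px, qx]; ring
  have e4 : Y w - Y z = qy - py := by simp only [py, qy]; ring
  rw [e3, e4] at p3
  have f1 : (px ^ 2 + py ^ 2) * (qx ^ 2 + qy ^ 2) = (px * qx + py * qy) * (px ^ 2 + py ^ 2) := by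
    linear_combination (px ^ 2 + py ^ 2) * e2 - (px * qx + py * qy) * e1
      + 2 * (ny * px - nx * py) * h0
  have f2 : (px ^ 2 + py ^ 2) * (qx ^ 2 + qy ^ 2) = (px * qx + py * qy) * (qx ^ 2 + qy ^ 2) := by
    linear_combination (qx ^ 2 + qy ^ 2) * e1 - (px * qx + py * qy) * e2
      - 2 * (ny * qx - nx * qy) * h0
  have g1 : qx ^ 2 + qy ^ 2 = px * qx + py * qy := by
    apply mul_left_cancel₀ p1.ne'; linarith
  have g2 : px ^ 2 + py ^ 2 = px * qx + py * qy := by
    apply mul_right_cancel₀ p2.ne'; linarith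
  nlinarith

variable [Fintype V]

theorem exists_extreme (hinj : ∀ p q, X p = X q → Y p = Y q → p = q) {cx cy R : ℝ} {b z0 : V}
    (σ : ℝ) (hσ : σ ≠ 0)
    (hb : pw X Y cx cy R b = 0) (hz : pw X Y cx cy R z0 = 0) (h0 : z0 ≠ b) :
    ∃ c, pw X Y cx cy R c = 0 ∧ c ≠ b ∧
      ∀ w, pw X Y cx cy R w = 0 → w ≠ b → w ≠ c → 0 < σ * dt X Y b c w := by
  classical
  set s : V → ℝ := fun z => σ * (((cx - X b) * (Y z - Y b) - (cy - Y b) * (X z - X b)) /
    ((X z - X b) ^ 2 + (Y z - Y b) ^ 2)) with hs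
  obtain ⟨c, hc, hmin⟩ := Finset.exists_min_image
    (Finset.univ.filter fun z => pw X Y cx cy R z = 0 ∧ z ≠ b) s ⟨z0, by simp [hz, h0]⟩
  simp only [Finset.mem_filter, Finset.mem_univ, true_and] at hc hmin
  refine ⟨c, hc.1, hc.2, ?_⟩
  intro w hw hwb hwc
  have hne := dt_ne_zero hinj hb hc.1 hw hc.2 hwb hwc
  have h1 := hmin w ⟨hw, hwb⟩
  have p1 := sq_pos_of_ne hinj hc.2
  have p2 := sq_pos_of_ne hinj hwb
  have hc1 := hc.1
  unfold pw at hb hc1 hw
  have key : ((cx - X b) ^ 2 + (cy - Y b) ^ 2) * (σ * dt X Y b c w) =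
      ((X c - X b) ^ 2 + (Y c - Y b) ^ 2) * ((X w - X b) ^ 2 + (Y w - Y b) ^ 2) * (s w - s c) / 2 := by
    simp only [hs]
    unfold dt
    field_simp
    linear_combination
      (-((cx - X b) * (Y w - Y b) - (cy - Y b) * (X w - X b))) * (hc1 - hb)
      + ((cx - X b) * (Y c - Y b) - (cy - Y b) * (X c - X b)) * (hw - hb)
  have hR : 0 < (cx - X b) ^ 2 + (cy - Y b) ^ 2 := by
    by_contra hcon
    push Not at hcon
    have a1 : cx - X b = 0 := by nlinarith [sq_nonneg (cx - X b), sq_nonneg (cy - Y b)]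
    have a2 : cy - Y b = 0 := by nlinarith [sq_nonneg (cx - X b), sq_nonneg (cy - Y b)]
    have a3 : cx = X b := by linarith
    have a4 : cy = Y b := by linarith
    rw [a3, a4] at hb hc1
    nlinarith
  have h2 : 0 ≤ ((cx - X b) ^ 2 + (cy - Y b) ^ 2) * (σ * dt X Y b c w) := by
    rw [key]
    have : 0 ≤ s w - s c := by linarith
    positivity
  have h3 : 0 ≤ σ * dt X Y b c w := nonneg_of_mul_nonneg_right h2 hR |> fun h => by
    by_contra hcon
    push Not at hcon
    nlinarith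
  exact lt_of_le_of_ne h3 (mul_ne_zero hσ hne).symm

omit [Fintype V] in
theorem wit_of_extreme {cx cy R σ : ℝ} {b c : V} (emp : ∀ w, 0 ≤ pw X Y cx cy R w)
    (hb : pw X Y cx cy R b = 0) (hc : pw X Y cx cy R c = 0)
    (h : ∀ w, pw X Y cx cy R w = 0 → w ≠ b → w ≠ c → 0 < σ * dt X Y b c w) :
    Wit X Y ix b c cx cy R := by
  refine ⟨emp, hb, hc, Or.inl ?_⟩
  intro w w' a1 a2 a3 a4 a5 a6
  have h1 := h w a1 a3 a4
  have h2 := h w' a2 a5 a6
  have h3 := mul_pos h1 h2
  have h4 : σ * dt X Y b c w * (σ * dt X Y b c w') = σ ^ 2 * (dt X Y b c w * dt X Y b c w') := by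
    ring
  rw [h4] at h3
  exact pos_of_mul_pos_of_nonneg_left' h3 (sq_nonneg σ)
where
  pos_of_mul_pos_of_nonneg_left' {a b : ℝ} (h : 0 < a * b) (ha : 0 ≤ a) : 0 < b := by
    by_contra hc
    push Not at hc
    nlinarith

theorem exists_shift (f l : V → ℝ) (hf : ∀ w, 0 ≤ f w) {w0 : V} (h0 : 0 < l w0) :
    ∃ t, 0 ≤ t ∧ (∀ w, 0 ≤ f w - t * l w) ∧ ∃ w, 0 < l w ∧ f w - t * l w = 0 := by
  classical
  obtain ⟨c, hc, hmin⟩ := Finset.exists_min_image
    (Finset.univ.filter fun z => 0 < l z) (fun z => f z / l z) ⟨w0, by simp [h0]⟩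
  simp only [Finset.mem_filter, Finset.mem_univ, true_and] at hc hmin
  have ht : 0 ≤ f c / l c := div_nonneg (hf c) hc.le
  refine ⟨f c / l c, ht, ?_, c, hc, by field_simp; ring⟩
  intro w
  rcases lt_or_ge 0 (l w) with h | h
  · have := hmin w h
    rw [le_div_iff₀ h] at this
    linarith
  · have := hf w
    nlinarith

theorem pivot (hinj : ∀ p q, X p = X q → Y p = Y q → p = q) (hix : Function.Injective ix)
    {a b w0 : V} {cx cy R : ℝ} (h : Wit X Y ix a b cx cy R) (hab : a ≠ b) (h0 : 0 < dt X Y a b w0) :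
    ∃ (c : V) (cx' cy' R' t : ℝ), 0 ≤ t ∧
      (∀ x y : ℝ, (x - cx') ^ 2 + (y - cy') ^ 2 - R' = (x - cx) ^ 2 + (y - cy) ^ 2 - R
        - t * ((X b - X a) * (y - Y a) - (Y b - Y a) * (x - X a))) ∧
      0 < dt X Y a b c ∧ Wit X Y ix a c cx' cy' R' ∧ Wit X Y ix c b cx' cy' R' := by
  classical
  obtain ⟨t, ht, hemp, w1, hw1, hw1'⟩ := exists_shift (pw X Y cx cy R) (dt X Y a b) h.emp h0
  set cx' := cx - t * (Y b - Y a) / 2
  set cy' := cy + t * (X b - X a) / 2
  set R' := (X a - cx') ^ 2 + (Y a - cy') ^ 2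
  have hO : ∀ x y : ℝ, (x - cx') ^ 2 + (y - cy') ^ 2 - R' = (x - cx) ^ 2 + (y - cy) ^ 2 - R
        - t * ((X b - X a) * (y - Y a) - (Y b - Y a) * (x - X a)) := by
    intro x y
    have := h.tp
    unfold pw at this
    simp only [R', cx', cy']
    linear_combination -this
  have hpw : ∀ w, pw X Y cx' cy' R' w = pw X Y cx cy R w - t * dt X Y a b w := fun w => hO _ _
  have emp : ∀ w, 0 ≤ pw X Y cx' cy' R' w := fun w => by rw [hpw]; exact hemp w
  have daa : dt X Y a b a = 0 := by unfold dt; ring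
  have dab : dt X Y a b b = 0 := by unfold dt; ring
  have ta : pw X Y cx' cy' R' a = 0 := by rw [hpw, h.tp, daa]; ring
  have tb : pw X Y cx' cy' R' b = 0 := by rw [hpw, h.tq, dab]; ring
  have t1 : pw X Y cx' cy' R' w1 = 0 := by rw [hpw]; exact hw1'
  have w1a : w1 ≠ a := by intro e; rw [e, daa] at hw1; exact lt_irrefl _ hw1
  have w1b : w1 ≠ b := by intro e; rw [e, dab] at hw1; exact lt_irrefl _ hw1
  obtain ⟨m, hm, hmin⟩ := Finset.exists_min_image
    (Finset.univ.filter fun z => pw X Y cx' cy' R' z = 0) ix ⟨a, by simp [ta]⟩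
  simp only [Finset.mem_filter, Finset.mem_univ, true_and] at hm hmin
  suffices hs : ∃ c, 0 < dt X Y a b c ∧ Wit X Y ix a c cx' cy' R' ∧ Wit X Y ix c b cx' cy' R' by
    obtain ⟨c, hc⟩ := hs
    exact ⟨c, cx', cy', R', t, ht, hO, hc⟩
  by_cases hma : m = a
  · subst hma
    obtain ⟨c, c1, c2, c3⟩ := exists_extreme hinj 1 one_ne_zero tb ta hab
    have hca : m ≠ c := by
      intro e
      have := c3 w1 t1 w1b (by rw [← e]; exact w1a)
      rw [← e] at this
      unfold dt at this hw1; linarith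
    refine ⟨c, ?_, ⟨emp, ta, c1, Or.inr (Or.inl hmin)⟩, (wit_of_extreme emp tb c1 c3).symm⟩
    have := c3 m ta hab hca
    unfold dt at this ⊢; linarith
  by_cases hmb : m = b
  · subst hmb
    obtain ⟨c, c1, c2, c3⟩ := exists_extreme hinj (-1) (by norm_num) ta tb hab.symm
    have hca : m ≠ c := by
      intro e
      have := c3 w1 t1 w1a (by rw [← e]; exact w1b)
      rw [← e] at this
      linarith
    refine ⟨c, ?_, wit_of_extreme emp ta c1 c3, ⟨emp, c1, tb, Or.inr (Or.inr hmin)⟩⟩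
    have := c3 m tb hab.symm hca
    unfold dt at this ⊢; linarith
  have hne := dt_ne_zero hinj ta tb hm hab.symm hma hmb
  rcases lt_or_gt_of_ne hne with hneg | hpos
  · exfalso
    have e1 := hpw m
    have e2 := h.emp m
    have ht0 : t = 0 := by
      by_contra hc
      have : 0 < t := lt_of_le_of_ne ht (Ne.symm hc)
      nlinarith
    have hpw' : ∀ w, pw X Y cx cy R w = pw X Y cx' cy' R' w := by
      intro w; rw [hpw, ht0]; ring
    rcases h.fan with h1 | h1 | h1
    · have := h1 m w1 (by rw [hpw']; exact hm) (by rw [hpw']; exact t1) hma hmb w1a w1b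
      nlinarith
    · exact hma (hix (le_antisymm (hmin a ta) (h1 m (by rw [hpw']; exact hm))))
    · exact hmb (hix (le_antisymm (hmin b tb) (h1 m (by rw [hpw']; exact hm))))
  · exact ⟨m, hpos, ⟨emp, ta, hm, Or.inr (Or.inr hmin)⟩, ⟨emp, hm, tb, Or.inr (Or.inl hmin)⟩⟩

omit [Fintype V] in
theorem no_point (hinj : ∀ p q, X p = X q → Y p = Y q → p = q) {r s p : V} (h : Adj X Y ix r s)
    {t : ℝ} (t0 : 0 < t) (t1 : t < 1) (hx : X p = (1 - t) * X r + t * X s)
    (hy : Y p = (1 - t) * Y r + t * Y s) : False := by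
  obtain ⟨hne, cx, cy, R, hW⟩ := h
  have h1 := hW.emp p
  have h2 := hW.tp
  have h3 := hW.tq
  have h4 := sq_pos_of_ne hinj hne
  unfold pw at h1 h2 h3
  rw [hx, hy] at h1
  have : ((1 - t) * X r + t * X s - cx) ^ 2 + ((1 - t) * Y r + t * Y s - cy) ^ 2 - R =
      -(t * (1 - t) * ((X r - X s) ^ 2 + (Y r - Y s) ^ 2)) := by
    linear_combination (1 - t) * h2 + t * h3
  have h5 : 0 < t * (1 - t) * ((X r - X s) ^ 2 + (Y r - Y s) ^ 2) := by
    have : 0 < 1 - t := by linarith
    positivity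
  linarith

omit [Fintype V] in
theorem no_cross (hinj : ∀ p q, X p = X q → Y p = Y q → p = q) (hix : Function.Injective ix)
    {p q r s : V} (h1 : Adj X Y ix p q) (h2 : Adj X Y ix r s) {a b : ℝ}
    (a0 : 0 < a) (a1 : a < 1) (b0 : 0 < b) (b1 : b < 1)
    (hx : (1 - a) * X p + a * X q = (1 - b) * X r + b * X s)
    (hy : (1 - a) * Y p + a * Y q = (1 - b) * Y r + b * Y s) :
    (p = r ∧ q = s) ∨ (p = s ∧ q = r) := by
  obtain ⟨n1, cx, cy, R, W1⟩ := h1
  obtain ⟨n2, cx', cy', R', W2⟩ := h2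
  have a2 : 0 < 1 - a := by linarith
  have b2 : 0 < 1 - b := by linarith
  have key : (1 - a) * pw X Y cx' cy' R' p + a * pw X Y cx' cy' R' q
      + (1 - b) * pw X Y cx cy R r + b * pw X Y cx cy R s = 0 := by
    have e1 := W1.tp
    have e2 := W1.tq
    have e3 := W2.tp
    have e4 := W2.tq
    unfold pw at *
    linear_combination (1 - a) * e1 + a * e2 + (1 - b) * e3 + b * e4
      + 2 * (cx - cx') * hx + 2 * (cy - cy') * hy
  have u1 := mul_nonneg a2.le (W2.emp p)
  have u2 := mul_nonneg a0.le (W2.emp q)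
  have u3 := mul_nonneg b2.le (W1.emp r)
  have u4 := mul_nonneg b0.le (W1.emp s)
  have tp : pw X Y cx' cy' R' p = 0 := by
    have : (1 - a) * pw X Y cx' cy' R' p = 0 := by linarith
    exact (mul_eq_zero.mp this).resolve_left a2.ne'
  have tq : pw X Y cx' cy' R' q = 0 := by
    have : a * pw X Y cx' cy' R' q = 0 := by linarith
    exact (mul_eq_zero.mp this).resolve_left a0.ne'
  have tr : pw X Y cx cy R r = 0 := by
    have : (1 - b) * pw X Y cx cy R r = 0 := by linarith
    exact (mul_eq_zero.mp this).resolve_left b2.ne'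
  have ts : pw X Y cx cy R s = 0 := by
    have : b * pw X Y cx cy R s = 0 := by linarith
    exact (mul_eq_zero.mp this).resolve_left b0.ne'
  have d1 : (1 - b) * dt X Y p q r + b * dt X Y p q s = 0 := by
    unfold dt
    linear_combination (Y q - Y p) * hx - (X q - X p) * hy
  have d2 : (1 - a) * dt X Y r s p + a * dt X Y r s q = 0 := by
    unfold dt
    linear_combination -(Y s - Y r) * hx + (X s - X r) * hy
  have dpp : dt X Y p q p = 0 := by unfold dt; ring
  have dpq : dt X Y p q q = 0 := by unfold dt; ring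
  have hr : (r = p ∨ r = q) ↔ (s = p ∨ s = q) := by
    constructor
    · intro h
      have : dt X Y p q r = 0 := by rcases h with h | h <;> rw [h] <;> assumption
      rw [this] at d1
      have h3 : dt X Y p q s = 0 := by
        have : b * dt X Y p q s = 0 := by linarith
        exact (mul_eq_zero.mp this).resolve_left b0.ne'
      by_contra hc
      push Not at hc
      exact dt_ne_zero hinj W1.tp W1.tq ts n1.symm hc.1 hc.2 h3
    · intro h
      have : dt X Y p q s = 0 := by rcases h with h | h <;> rw [h] <;> assumption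
      rw [this] at d1
      have h3 : dt X Y p q r = 0 := by
        have : (1 - b) * dt X Y p q r = 0 := by linarith
        exact (mul_eq_zero.mp this).resolve_left b2.ne'
      by_contra hc
      push Not at hc
      exact dt_ne_zero hinj W1.tp W1.tq tr n1.symm hc.1 hc.2 h3
  by_cases hc : r = p ∨ r = q
  · have hs := hr.mp hc
    rcases hc with hc | hc <;> rcases hs with hs | hs
    · exact absurd (hc.trans hs.symm) n2
    · exact Or.inl ⟨hc.symm, hs.symm⟩
    · exact Or.inr ⟨hs.symm, hc.symm⟩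
    · exact absurd (hc.trans hs.symm) n2
  · exfalso
    have hs := mt hr.mpr hc
    push Not at hc hs
    have f1 : ¬ (0 < dt X Y p q r * dt X Y p q s) := by
      intro h
      have h4 : 0 < dt X Y p q s ^ 2 := by
        apply sq_pos_of_ne_zero
        intro e; rw [e] at h; simp at h
      have : (1 - b) * (dt X Y p q r * dt X Y p q s) + b * dt X Y p q s ^ 2 = 0 := by
        linear_combination dt X Y p q s * d1
      have := mul_pos b2 h
      have := mul_pos b0 h4
      linarith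
    have f2 : ¬ (0 < dt X Y r s p * dt X Y r s q) := by
      intro h
      have h4 : 0 < dt X Y r s q ^ 2 := by
        apply sq_pos_of_ne_zero
        intro e; rw [e] at h; simp at h
      have : (1 - a) * (dt X Y r s p * dt X Y r s q) + a * dt X Y r s q ^ 2 = 0 := by
        linear_combination dt X Y r s q * d2
      have := mul_pos a2 h
      have := mul_pos a0 h4
      linarith
    rcases W1.fan with g1 | g1 | g1
    · exact f1 (g1 r s tr ts hc.1 hc.2 hs.1 hs.2)
    · rcases W2.fan with g2 | g2 | g2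
      · exact f2 (g2 p q tp tq hc.1.symm hs.1.symm hc.2.symm hs.2.symm)
      · exact hc.1 (hix (le_antisymm (g2 p tp) (g1 r tr)))
      · exact hs.1 (hix (le_antisymm (g2 p tp) (g1 s ts)))
    · rcases W2.fan with g2 | g2 | g2
      · exact f2 (g2 p q tp tq hc.1.symm hs.1.symm hc.2.symm hs.2.symm)
      · exact hc.2 (hix (le_antisymm (g2 q tq) (g1 r tr)))
      · exact hs.2 (hix (le_antisymm (g2 q tq) (g1 s ts)))

omit [Fintype V] in
theorem adj_iso {X' Y' : V → ℝ} {a b e f σ : ℝ} (hab : a ^ 2 + b ^ 2 = 1) (hσ : σ ^ 2 = 1)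
    (hX : ∀ p, X' p = a * X p + b * Y p + e) (hY : ∀ p, Y' p = σ * (-b * X p + a * Y p) + f)
    {p q : V} (h : Adj X' Y' ix p q) : Adj X Y ix p q := by
  obtain ⟨hne, cx, cy, R, W⟩ := h
  have hpw : ∀ w, pw X Y (a * (cx - e) - b * (σ * (cy - f))) (b * (cx - e) + a * (σ * (cy - f))) R w
      = pw X' Y' cx cy R w := by
    intro w
    unfold pw
    rw [hX, hY]
    linear_combination (-(X w) ^ 2 - (Y w) ^ 2 + (cx - e) ^ 2 + σ ^ 2 * (cy - f) ^ 2) * hab
      + ((cy - f) ^ 2 - (-b * X w + a * Y w) ^ 2) * hσ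
  have hdt : ∀ w, dt X' Y' p q w = σ * dt X Y p q w := by
    intro w
    unfold dt
    simp only [hX, hY]
    linear_combination (σ * ((X q - X p) * (Y w - Y p) - (Y q - Y p) * (X w - X p))) * hab
  refine ⟨hne, _, _, R, fun w => by rw [hpw]; exact W.emp w, by rw [hpw]; exact W.tp,
    by rw [hpw]; exact W.tq, ?_⟩
  simp only [hpw]
  rcases W.fan with g | g | g
  · left
    intro w w' a1 a2 a3 a4 a5 a6
    have := g w w' a1 a2 a3 a4 a5 a6
    rw [hdt, hdt] at this
    have e : σ * dt X Y p q w * (σ * dt X Y p q w') = dt X Y p q w * dt X Y p q w' := by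
      linear_combination (dt X Y p q w * dt X Y p q w') * hσ
    rwa [e] at this
  · exact Or.inr (Or.inl g)
  · exact Or.inr (Or.inr g)

end Pool.Agent.MP_8fe08c_co.h31
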