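import Mathlib.Topology.Algebra.Module.ModuleTopology
import Mathlib.RingTheory.Flat.TorsionFree
import Mathlib.Analysis.InnerProductSpace.Basic
import Mathlib.Algebra.Order.Star.Real
import Mathlib.Analysis.SpecialFunctions.Trigonometric.Bounds
import Mathlib.RingTheory.TotallySplit
import Mathlib.RingTheory.Etale.Weakly
import Mathlib.Tactic.Algebra.Basic
import Pool.Agent.MP_8fe08c_co.h31.Data0
import Pool.Agent.MP_8fe08c_co.h31.Data1
import Pool.Agent.MP_8fe08c_co.h31.Data2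
import Pool.Agent.MP_8fe08c_co.h31.Data3

-- ======== part 0: formerly Pool.Agent.MP_8fe08c_co.h31.Check
section MrgPart0

set_option autoImplicit false

namespace Pool.Agent.MP_8fe08c_co.h31

noncomputable section

def frc (x : Nat) (k : Nat → Bool) : Bool :=
  Nat.rec (k (nat_lit 0)) (fun p _ => k p) (Nat.add x (nat_lit 1))

def frn (x : Nat) (k : Nat → Nat) : Nat :=
  Nat.rec (k (nat_lit 0)) (fun p _ => k p) (Nat.add x (nat_lit 1))

def allB (n : Nat) (f : Nat → Bool) : Bool :=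
  Nat.rec true (fun i acc => (Bool.rec false acc (f i) : Bool)) n

def anyB (n : Nat) (f : Nat → Bool) : Bool :=
  Nat.rec false (fun i acc => (Bool.rec acc true (f i) : Bool)) n

def nth {α : Type} (d : α) (l : List α) : Nat → α :=
  List.rec (fun _ => d) (fun h _ ih n => Nat.rec h (fun p _ => ih p) n) l

def rows : List (List Nat) := [row0, row1, row2, row3, row4, row5, row6, row7, row8, row9, row10, row11, row12, row13, row14, row15, row16, row17, row18, row19, row20, row21, row22, row23, row24, row25, row26, row27, row28, row29, row30, row31, row32, row33, row34, row35, row36, row37, row38, row39, row40, row41, row42, row43, row44, row45, row46, row47, row48, row49, row50, row51, row52, row53, row54, row55, row56, row57, row58, row59, row60, row61, row62, row63, row64]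

def rowb (b : Nat) : List Nat := nth [] rows b

def row (bc : Nat) : Nat := frn (Nat.div bc (nat_lit 128)) fun b =>
  nth (nat_lit 0) (rowb b) (Nat.sub (Nat.mod bc (nat_lit 128)) b)

def pk (id : Nat) : Nat :=
  Nat.mod (Nat.shiftRight (frn (Nat.mod id (nat_lit 16384)) row)
    (Nat.mul (nat_lit 154) (Nat.div id (nat_lit 16384)))) (nat_lit 22835963083295358096932575511191922182123945984)

def XX (l id : Nat) : Nat :=
  Nat.mod (Nat.shiftRight (pk id) (Nat.mul (nat_lit 22) l)) (nat_lit 4194304)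

def q1t : Nat := nat_lit 0x2ffc4cd02fed82b02fd4e6a02fb287c02f867b602f50dc802f11c9702ec969402e77ea802e1d7f902dba60102d4ec9302cdafd602c5f43e02bdbe9202b513e102abf98402a2751702988c7b028e45ca0283a75b0278b7bc026d7da90262001102564609024a56cc023e39b70231f643022593ff02191a8f020c91a3020000f901f3704e01e6e85a01da6fe001ce0e9001c1cc0e01b5afe801a9c197019e087601928bc00187528c017c63c40171c62701678041015d9867015414b7014afb0d01425107013a1bfd013260fe012b24cf01246be6011e3a690118942901137ca2010ef6f8010b05f60107ac090104eb420102c55501013b9301004ef10100000001004ef101013b930102c5550104eb420107ac09010b05f6010ef6f801137ca201189429011e3a6901246be6012b24cf013260fe013a1bfd01425107014afb0d015414b7015d9867016780410171c627017c63c40187528c01928bc0019e087601a9c19701b5afe801c1cc0e01ce0e9001da6fe001e6e85a01f3704e020000f9020c91a302191a8f022593ff0231f643023e39b7024a56cc0256460902620011026d7da90278b7bc0283a75b028e45ca02988c7b02a2751702abf98402b513e102bdbe9202c5f43e02cdafd602d4ec9302dba60102e1d7f902e77ea802ec969402f11c9702f50dc802f867b602fb287c02fd4e6a02fed82b02ffc4cd030013be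

def q2t : Nat := nat_lit 0x300000502ff136302fd89a102fb63b402f8a2ed02f5490002f157fe02ecd25402e7bacd02e212fb02dbdf9402d5249902cde62e02c628cd02bdf13b02b5448902ac281102a2a1710298b68a028e6d780283cc950278da6e026d9dc302621d83025660c4024a6ec5023e4ee3023208990225a37802192725020c9b54020007c101f3742e01e6e85d01da6fe001ce0e9001c1cc0e01b5afe801a9c197019e087601928bc00187528c017c63c40171c62701678041015d9867015414b7014afb0d01425107013a1bfd013260fe012b24cf01246be6011e3a690118942901137ca2010ef6f8010b05f60107ac090104eb420102c55501013b9301004ef10100000001004ef101013b930102c5550104eb420107ac09010b05f6010ef6f801137ca201189429011e3a6901246be6012b24cf013260fe013a1bfd01425107014afb0d015414b7015d9867016780410171c627017c63c40187528c01928bc0019e087601a9c19701b5afe801c1cc0e01ce0e9001da6fe001e6e85d01f3742e020007c1020c9b54021927250225a37802320899023e4ee3024a6ec5025660c402621d83026d9dc30278da6e0283cc95028e6d780298b68a02a2a17102ac281102b5448902bdf13b02c628cd02cde62e02d5249902dbdf9402e212fb02e7bacd02ecd25402f157fe02f5490002f8a2ed02fb63b402fd89a102ff13630300000503004ef5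

def Q1 (m : Nat) : Nat :=
  Nat.mod (Nat.shiftRight q1t (Nat.mul (nat_lit 32) (Nat.mod m (nat_lit 128)))) (nat_lit 4294967296)

def Q2 (m : Nat) : Nat :=
  Nat.mod (Nat.shiftRight q2t (Nat.mul (nat_lit 32) (Nat.mod m (nat_lit 128)))) (nat_lit 4294967296)

def cA (id : Nat) : Nat := Nat.div id (nat_lit 16384)

def cB (id : Nat) : Nat := Nat.mod (Nat.div id (nat_lit 128)) (nat_lit 128)

def cC (id : Nat) : Nat := Nat.mod id (nat_lit 128)

def i1 (o id : Nat) : Nat := Nat.sub (Nat.add (Nat.add (cA id) (cB id)) o) (cC id)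

def i2 (o id : Nat) : Nat := Nat.sub (Nat.add (Nat.add (cA id) (cC id)) o) (cB id)

def i3 (o id : Nat) : Nat := Nat.add (Nat.add (cA id) (cC id)) o

def i4 (o id : Nat) : Nat :=
  Nat.sub (Nat.add (Nat.add (cB id) (cB id)) o) (Nat.add (cA id) (cC id))

def i5 (o id : Nat) : Nat := Nat.sub (Nat.add (cC id) o) (cA id)

def i6 (id : Nat) : Nat := Nat.sub (cC id) (cB id)

def AM (id : Nat) : Nat := Nat.add (Q2 (i4 (nat_lit 192) id)) (Q1 (i5 (nat_lit 128) id))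

def AP (id : Nat) : Nat := Nat.add (Q2 (i4 (nat_lit 128) id)) (Q1 (i5 (nat_lit 192) id))

def BP (id : Nat) : Nat := Nat.add (Q2 (i3 (nat_lit 64) id)) (Q1 (i5 (nat_lit 128) id))

def BM (id : Nat) : Nat := Nat.add (Q2 (i3 (nat_lit 128) id)) (Q1 (i5 (nat_lit 192) id))

def EE (id : Nat) : Nat :=
  Nat.mul (nat_lit 104100) (Nat.add (Q2 (i1 (nat_lit 192) id)) (Q2 (i2 (nat_lit 128) id)))

def KN (id : Nat) : Nat :=
  Nat.add (Nat.div (Nat.mul (nat_lit 53972150819) (Nat.add (Q2 (i3 (nat_lit 160) id))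
    (Q2 (i4 (nat_lit 160) id)))) (nat_lit 1099511627776)) (nat_lit 1)

def up (q c : Nat) : Nat :=
  Nat.add (Nat.div (Nat.mul (Nat.sub q (nat_lit 33554432)) c) (nat_lit 1099511627776)) (nat_lit 1)

def co (id : Nat) : Nat := up (Q2 (i2 (nat_lit 224) id)) (nat_lit 13350884289)

def fT (j : Nat) : Nat :=
  Nat.add (up (Q1 (Nat.add j (nat_lit 96))) (nat_lit 130171121814))
    (Nat.mul (nat_lit 180000) (Nat.sub j (nat_lit 5)))

def tm (j : Nat) : Nat := up (Q1 (Nat.add j (nat_lit 96))) (nat_lit 13350884289)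

def tL (l id : Nat) : Nat := Nat.rec (fT (i6 id)) (fun p _ => Nat.add (XX p id) (co id)) l

def tR (l id : Nat) : Nat :=
  (Bool.rec (frn (Nat.add l (nat_lit 1)) fun p => Nat.add (XX p id) (co id)) (fT (cA id))
    (Nat.ble (nat_lit 6) l) : Nat)

def tM (l id : Nat) : Nat :=
  (Bool.rec (Nat.rec (XX l id) (fun p _ => frn (Nat.add l (nat_lit 1)) fun q =>
    Nat.div (Nat.add (Nat.add (XX p id) (XX q id)) (nat_lit 1)) (nat_lit 2)) l) (XX l id)
    (Nat.ble (nat_lit 6) l) : Nat)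

def dL (l id : Nat) : Bool := Nat.ble (Nat.add (tL l id) (nat_lit 1)) (XX l id)

def dR (l id : Nat) : Bool := Nat.ble (Nat.add (tR l id) (nat_lit 1)) (XX l id)

def dM (l id : Nat) : Bool := Nat.ble (Nat.add (tM l id) (nat_lit 1)) (XX l id)

def HH (l id : Nat) : Nat :=
  Nat.sub (Nat.add (Nat.add (EE id) (Nat.mul (KN id) (XX l id))) (nat_lit 35184372088832))
    (Nat.add (Nat.mul (nat_lit 3294198) (XX l id)) (nat_lit 6986032742400))

def mx (a b : Nat) : Nat := Nat.add a (Nat.sub b a)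

def mn (a b : Nat) : Nat := Nat.sub a (Nat.sub a b)

def qu (a b : Nat) : Nat := Nat.add (Nat.div (Nat.sub a b) (nat_lit 4)) (nat_lit 1)

def n1 (v0 v1 v2 v3 : Nat) : Nat := qu (KN v0) (mn (KN v1) (mn (KN v2) (KN v3)))

def n2 (v0 v1 v2 v3 : Nat) : Nat := qu (mx (KN v0) (KN v1)) (mn (KN v2) (KN v3))

def n3 (v0 v1 v2 v3 : Nat) : Nat := qu (mx (KN v0) (mx (KN v1) (KN v2))) (KN v3)

def p1 (v0 v1 v2 v3 : Nat) : Nat := n3 v3 v2 v1 v0

def p2 (v0 v1 v2 v3 : Nat) : Nat := n2 v3 v2 v1 v0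

def p3 (v0 v1 v2 v3 : Nat) : Nat := n1 v3 v2 v1 v0

def d4 (d : Nat → Nat → Bool) (l v0 v1 v2 v3 : Nat) : Bool :=
  (Bool.rec false (Bool.rec false (Bool.rec false (d l v3) (d l v2) : Bool) (d l v1) : Bool) (d l v0) : Bool)

def cnd2 (t : Nat → Nat → Nat) (l v0 v1 v2 v3 f0 f1 f2 f3 z ta : Nat) : Bool :=
  (Bool.rec false (Bool.rec false (Bool.rec false 
    (Nat.ble (Nat.add f3 (Nat.mul ta (t l v3))) (Nat.add z (Nat.mul ta (XX l v3)))) 
    (Nat.ble (Nat.add f2 (Nat.mul ta (t l v2))) (Nat.add z (Nat.mul ta (XX l v2)))) : Bool) 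
    (Nat.ble (Nat.add f1 (Nat.mul ta (t l v1))) (Nat.add z (Nat.mul ta (XX l v1)))) : Bool) 
    (Nat.ble (Nat.add f0 (Nat.mul ta (t l v0))) (Nat.add z (Nat.mul ta (XX l v0)))) : Bool)

def cnd (t : Nat → Nat → Nat) (l v0 v1 v2 v3 f0 f1 f2 f3 z : Nat) : Bool :=
  cnd2 t l v0 v1 v2 v3 f0 f1 f2 f3 z (Nat.add (mx (mx (Nat.div (Nat.sub f0 z) (Nat.sub (XX l v0) (t l v0)))
    (Nat.div (Nat.sub f1 z) (Nat.sub (XX l v1) (t l v1))))
    (mx (Nat.div (Nat.sub f2 z) (Nat.sub (XX l v2) (t l v2)))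
    (Nat.div (Nat.sub f3 z) (Nat.sub (XX l v3) (t l v3))))) (nat_lit 1))

def cn3 (l v0 v1 v2 v3 f0 f1 f2 f3 z : Nat) : Bool :=
  (Bool.rec (Bool.rec (cnd tM l v0 v1 v2 v3 f0 f1 f2 f3 z) true (cnd tR l v0 v1 v2 v3 f0 f1 f2 f3 z) : Bool) true (cnd tL l v0 v1 v2 v3 f0 f1 f2 f3 z) : Bool)

def fin4 (l v0 v1 v2 v3 f0 f1 f2 f3 z : Nat) : Bool :=
  (Bool.rec (cn3 l v0 v1 v2 v3 f0 f1 f2 f3 z) true (Bool.rec false (Bool.rec false (Bool.rec false (Nat.ble f3 z) (Nat.ble f2 z) : Bool) (Nat.ble f1 z) : Bool) (Nat.ble f0 z) : Bool) : Bool)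

def k4 (l v0 v1 v2 v3 : Nat) (c2 : Nat → Nat) (m2 r : Nat) (c4 : Nat → Nat) (m4 : Nat) : Bool :=
  fin4 l v0 v1 v2 v3
    (Nat.add (Nat.add (Nat.add (HH l v0) (Nat.mul (c2 v0) m2)) (Nat.mul (c4 v0) m4)) r)
    (Nat.add (Nat.add (Nat.add (HH l v1) (Nat.mul (c2 v1) m2)) (Nat.mul (c4 v1) m4)) r)
    (Nat.add (Nat.add (Nat.add (HH l v2) (Nat.mul (c2 v2) m2)) (Nat.mul (c4 v2) m4)) r)
    (Nat.add (Nat.add (Nat.add (HH l v3) (Nat.mul (c2 v3) m2)) (Nat.mul (c4 v3) m4)) r)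
    (Nat.add (nat_lit 35184372088832) (Nat.mul (nat_lit 67108864) (Nat.add m2 m4)))

def k2 (l v0 v1 v2 v3 r : Nat) (c2 : Nat → Nat) (m2 nn : Nat) : Bool :=
  (Bool.rec (k4 l v0 v1 v2 v3 c2 m2 (Nat.add r (Nat.mul nn m2)) BM (Nat.sub (XX l v0) (XX l v3)))
    (k4 l v0 v1 v2 v3 c2 m2 (Nat.add r (Nat.mul nn m2)) BP (Nat.sub (XX l v3) (XX l v0)))
    (Nat.ble (XX l v0) (XX l v3)) : Bool)

def k1 (l v0 v1 v2 v3 lo2 hi2 r N2 P2 : Nat) : Bool :=
  (Bool.rec (k2 l v0 v1 v2 v3 r AP (Nat.sub (XX l lo2) (XX l hi2)) P2)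
    (k2 l v0 v1 v2 v3 r AM (Nat.sub (XX l hi2) (XX l lo2)) N2)
    (Nat.ble (XX l lo2) (XX l hi2)) : Bool)

def alive (l v0 v1 v2 v3 lo1 hi1 lo2 hi2 lo3 hi3 N1 N3 N2 P2 : Nat) : Bool :=
  (Bool.rec false (Bool.rec false 
    (k1 l v0 v1 v2 v3 lo2 hi2 (Nat.add (Nat.mul N1 (Nat.sub (XX l hi1) (XX l lo1))) (Nat.mul N3 (Nat.sub (XX l hi3) (XX l lo3)))) N2 P2) 
    (Nat.ble (Nat.add (XX l lo3) (Nat.mul (Nat.sub (nat_lit 6) l) (nat_lit 10000))) (XX l hi3)) : Bool) (Nat.ble (Nat.add (XX l lo1) (Nat.mul l (nat_lit 10000))) (XX l hi1)) : Bool)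

def chk (l v0 v1 v2 v3 lo1 hi1 lo2 hi2 lo3 hi3 N1 N3 N2 P2 : Nat) : Bool :=
  (Bool.rec (Bool.rec (Bool.rec 
    (alive l v0 v1 v2 v3 lo1 hi1 lo2 hi2 lo3 hi3 N1 N3 N2 P2) true (d4 dM l v0 v1 v2 v3) : Bool) true (d4 dR l v0 v1 v2 v3) : Bool) true (d4 dL l v0 v1 v2 v3) : Bool)

def sx (v0 v1 v2 v3 lo1 hi1 lo2 hi2 lo3 hi3 N1 N3 N2 P2 : Nat) : Bool :=
  allB (nat_lit 7) fun l => chk l v0 v1 v2 v3 lo1 hi1 lo2 hi2 lo3 hi3 N1 N3 N2 P2

def s123 (v0 v1 v2 v3 : Nat) : Bool :=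
  sx v0 v1 v2 v3 v0 v1 v1 v2 v2 v3 (n1 v0 v1 v2 v3) (n3 v0 v1 v2 v3) (n2 v0 v1 v2 v3) (p2 v0 v1 v2 v3)

def s132 (v0 v1 v2 v3 : Nat) : Bool :=
  sx v0 v1 v2 v3 v0 v1 v2 v3 v1 v2 (n1 v0 v1 v2 v3) (n2 v0 v1 v2 v3) (n3 v0 v1 v2 v3) (p3 v0 v1 v2 v3)

def s213 (v0 v1 v2 v3 : Nat) : Bool :=
  sx v0 v1 v2 v3 v1 v2 v0 v1 v2 v3 (n2 v0 v1 v2 v3) (n3 v0 v1 v2 v3) (n1 v0 v1 v2 v3) (p1 v0 v1 v2 v3)

def s231 (v0 v1 v2 v3 : Nat) : Bool :=
  sx v0 v1 v2 v3 v2 v3 v0 v1 v1 v2 (n3 v0 v1 v2 v3) (n2 v0 v1 v2 v3) (n1 v0 v1 v2 v3) (p1 v0 v1 v2 v3)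

def s312 (v0 v1 v2 v3 : Nat) : Bool :=
  sx v0 v1 v2 v3 v1 v2 v2 v3 v0 v1 (n2 v0 v1 v2 v3) (n1 v0 v1 v2 v3) (n3 v0 v1 v2 v3) (p3 v0 v1 v2 v3)

def s321 (v0 v1 v2 v3 : Nat) : Bool :=
  sx v0 v1 v2 v3 v2 v3 v1 v2 v0 v1 (n3 v0 v1 v2 v3) (n1 v0 v1 v2 v3) (n2 v0 v1 v2 v3) (p2 v0 v1 v2 v3)

def cube3 (ab bc t321 t213 t231 t132 t312 t123 : Bool) : Bool :=
  (Bool.rec false (Bool.rec false 
    (Bool.rec true (Bool.rec false (Bool.rec false (Bool.rec true t123 bc : Bool) t312 : Bool) t132 : Bool) ab : Bool) 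
    (Bool.rec true (Bool.rec false t231 t213 : Bool) bc : Bool) : Bool) t321 : Bool)

def cube2 (ab bc : Bool) (w000 w001 w010 w011 w100 w101 w110 w111 : Nat) : Bool :=
  cube3 ab bc (s321 w000 w001 w011 w111)
    (s213 w000 w010 w110 w111)
    (s231 w000 w010 w011 w111)
    (s132 w000 w100 w101 w111)
    (s312 w000 w001 w101 w111)
    (s123 w000 w100 w110 w111)

def an2 (a b : Bool) : Bool := (Bool.rec false b a : Bool)

def enc (a b c : Nat) : Nat :=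
  Nat.add (Nat.add (Nat.mul a (nat_lit 16384)) (Nat.mul b (nat_lit 128))) c

def cube (a b c : Nat) : Bool :=
  frc (enc a b c) fun w000 => frc (Nat.add w000 (nat_lit 1)) fun w001 =>
  frc (Nat.add w000 (nat_lit 128)) fun w010 => frc (Nat.add w000 (nat_lit 129)) fun w011 =>
  frc (Nat.add w000 (nat_lit 16384)) fun w100 => frc (Nat.add w000 (nat_lit 16385)) fun w101 =>
  frc (Nat.add w000 (nat_lit 16512)) fun w110 => frc (Nat.add w000 (nat_lit 16513)) fun w111 =>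
  cube2 (Nat.ble (Nat.add a (nat_lit 1)) b) (Nat.ble (Nat.add b (nat_lit 1)) c)
    w000 w001 w010 w011 w100 w101 w110 w111

def ext (x j : Nat) : Bool :=
  (Bool.rec true (Nat.ble (Nat.add (Nat.add (Nat.mul x (nat_lit 1099511627776))
    (Nat.mul (Q1 (Nat.add j (nat_lit 32))) (nat_lit 130171121814))) (nat_lit 1099511627776))
    (Nat.add (nat_lit 4367818055267259515) (Nat.mul (Nat.mul (nat_lit 180000) (Nat.sub j (nat_lit 5))) (nat_lit 1099511627776))))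
    (Nat.ble (nat_lit 5) j) : Bool)

def node (id : Nat) : Bool :=
  an2 (ext (XX (nat_lit 6) id) (cA id)) (an2 (ext (XX (nat_lit 0) id) (i6 id))
    (allB (nat_lit 7) fun l =>
      Nat.ble (Nat.mul (Nat.sub (nat_lit 6) l) (tm (i6 id))) (XX l id)))

def slab (b : Nat) : Bool :=
  an2 (allB (Nat.sub (nat_lit 65) b) fun k => allB (Nat.add b (nat_lit 1)) fun a =>
      frc (enc a b (Nat.add b k)) node)
    (allB (Nat.sub (nat_lit 64) b) fun k => allB (Nat.add b (nat_lit 1)) fun a =>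
      cube a b (Nat.add b k))

def st1 (l j : Nat) : Bool :=
  Nat.ble (Nat.add (Nat.mul (Nat.mul (XX l (enc j j (nat_lit 64))) (nat_lit 53972150819)) (nat_lit 16777216))
    (Nat.mul (Nat.mul (nat_lit 104100) (Q1 (Nat.add j (nat_lit 32)))) (nat_lit 1099511627776)))
    (Nat.mul (Nat.mul (nat_lit 104100) (nat_lit 33554432)) (nat_lit 1099511627776))

def startB : Bool :=
  allB (Nat.sub (nat_lit 64) (Nat.add (nat_lit 5) (nat_lit 5))) fun i =>
    anyB (nat_lit 7) fun l => an2 (st1 l (Nat.add i (nat_lit 5)))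
      (st1 l (Nat.add (Nat.add i (nat_lit 5)) (nat_lit 1)))

end

end Pool.Agent.MP_8fe08c_co.h31

end MrgPart0

-- ======== part 1: formerly Pool.Agent.MP_8fe08c_co.h31.Trig
section MrgPart1

set_option autoImplicit false

open Real Set

namespace Pool.Agent.MP_8fe08c_co.h31

/-- `q` is an upper bound for the cosine at `x` with a curvature allowance for range `ρ`. -/
def JS (ρ x q : ℝ) : Prop :=
  ∃ M : ℝ, 0 ≤ M ∧ (∀ t, |t - x| ≤ ρ → cos t ≤ M) ∧ cos x + M * ρ ^ 2 / 8 ≤ q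

theorem convex_aux {M α β : ℝ} (h : ∀ t ∈ Icc α β, cos t ≤ M) :
    ConvexOn ℝ (Icc α β) (fun t => cos t + M * t ^ 2 / 2) := by
  have d1 : ∀ t, HasDerivAt (fun t => cos t + M * t ^ 2 / 2) (-sin t + M * t) t := by
    intro t
    have := (hasDerivAt_cos t).add (((hasDerivAt_pow 2 t).const_mul M).div_const 2)
    refine this.congr_deriv ?_
    push_cast; ring
  have d2 : ∀ t, HasDerivAt (fun t => -sin t + M * t) (-cos t + M) t := by
    intro t
    have := (hasDerivAt_sin t).neg.add ((hasDerivAt_id t).const_mul M)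
    refine this.congr_deriv ?_
    ring
  apply convexOn_of_hasDerivWithinAt2_nonneg (convex_Icc α β) (f' := fun t => -sin t + M * t)
    (f'' := fun t => -cos t + M) (by fun_prop)
    (fun t _ => (d1 t).hasDerivWithinAt) (fun t _ => (d2 t).hasDerivWithinAt)
  intro t ht
  have := h t (interior_subset ht)
  linarith

theorem jensen {ρ lo x0 x1 x2 x3 q0 q1 q2 q3 w0 w1 w2 w3 : ℝ}
    (j0 : JS ρ x0 q0) (j1 : JS ρ x1 q1) (j2 : JS ρ x2 q2) (j3 : JS ρ x3 q3)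
    (r0 : x0 ∈ Icc lo (lo + ρ)) (r1 : x1 ∈ Icc lo (lo + ρ)) (r2 : x2 ∈ Icc lo (lo + ρ))
    (r3 : x3 ∈ Icc lo (lo + ρ))
    (p0 : 0 ≤ w0) (p1 : 0 ≤ w1) (p2 : 0 ≤ w2) (p3 : 0 ≤ w3) (hs : w0 + w1 + w2 + w3 = 1) :
    cos (w0 * x0 + w1 * x1 + w2 * x2 + w3 * x3) ≤ w0 * q0 + w1 * q1 + w2 * q2 + w3 * q3 := by
  obtain ⟨M0, a0, b0, c0⟩ := j0
  obtain ⟨M1, a1, b1, c1⟩ := j1
  obtain ⟨M2, a2, b2, c2⟩ := j2
  obtain ⟨M3, a3, b3, c3⟩ := j3
  set M := min (min M0 M1) (min M2 M3) with hM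
  have m0 : M ≤ M0 := (min_le_left _ _).trans (min_le_left _ _)
  have m1 : M ≤ M1 := (min_le_left _ _).trans (min_le_right _ _)
  have m2 : M ≤ M2 := (min_le_right _ _).trans (min_le_left _ _)
  have m3 : M ≤ M3 := (min_le_right _ _).trans (min_le_right _ _)
  have hM0 : 0 ≤ M := le_min (le_min a0 a1) (le_min a2 a3)
  have near : ∀ t ∈ Icc lo (lo + ρ), ∀ x ∈ Icc lo (lo + ρ), |t - x| ≤ ρ := by
    intro t ht x hx
    rw [abs_le]; constructor <;> linarith [ht.1, ht.2, hx.1, hx.2]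
  have hc := convex_aux (M := M) (α := lo) (β := lo + ρ) (fun t ht =>
    le_min (le_min (b0 t (near t ht _ r0)) (b1 t (near t ht _ r1)))
      (le_min (b2 t (near t ht _ r2)) (b3 t (near t ht _ r3))))
  have hj := hc.map_sum_le (t := Finset.univ) (w := ![w0, w1, w2, w3]) (p := ![x0, x1, x2, x3])
    (by intro i _; fin_cases i <;> simpa) (by simpa [Fin.sum_univ_four] using hs)
    (by intro i _; fin_cases i <;> simpa)
  simp only [Fin.sum_univ_four, Matrix.cons_val_zero, Matrix.cons_val_one, Matrix.cons_val,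
    smul_eq_mul] at hj
  have v : ∀ x ∈ Icc lo (lo + ρ), (x - (lo + ρ / 2)) ^ 2 ≤ ρ ^ 2 / 4 := by
    intro x hx
    nlinarith [hx.1, hx.2]
  have var : w0 * x0 ^ 2 + w1 * x1 ^ 2 + w2 * x2 ^ 2 + w3 * x3 ^ 2
      - (w0 * x0 + w1 * x1 + w2 * x2 + w3 * x3) ^ 2 ≤ ρ ^ 2 / 4 := by
    have e : w0 * x0 ^ 2 + w1 * x1 ^ 2 + w2 * x2 ^ 2 + w3 * x3 ^ 2
      - (w0 * x0 + w1 * x1 + w2 * x2 + w3 * x3) ^ 2 =
      w0 * (x0 - (lo + ρ / 2)) ^ 2 + w1 * (x1 - (lo + ρ / 2)) ^ 2 + w2 * (x2 - (lo + ρ / 2)) ^ 2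
        + w3 * (x3 - (lo + ρ / 2)) ^ 2
        - (w0 * x0 + w1 * x1 + w2 * x2 + w3 * x3 - (lo + ρ / 2)) ^ 2 := by
      linear_combination (-(lo + ρ / 2) ^ 2) * hs
    rw [e]
    have t0 := mul_le_mul_of_nonneg_left (v _ r0) p0
    have t1 := mul_le_mul_of_nonneg_left (v _ r1) p1
    have t2 := mul_le_mul_of_nonneg_left (v _ r2) p2
    have t3 := mul_le_mul_of_nonneg_left (v _ r3) p3
    have t4 := sq_nonneg (w0 * x0 + w1 * x1 + w2 * x2 + w3 * x3 - (lo + ρ / 2))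
    have t5 : w0 * (ρ ^ 2 / 4) + w1 * (ρ ^ 2 / 4) + w2 * (ρ ^ 2 / 4) + w3 * (ρ ^ 2 / 4)
      = ρ ^ 2 / 4 := by linear_combination (ρ ^ 2 / 4) * hs
    linarith
  have var' := mul_le_mul_of_nonneg_left var hM0
  have u : ∀ N x q w : ℝ, M ≤ N → cos x + N * ρ ^ 2 / 8 ≤ q → 0 ≤ w →
      w * (cos x + M * ρ ^ 2 / 8) ≤ w * q := by
    intro N x q w h1 h2 h3
    apply mul_le_mul_of_nonneg_left _ h3
    have := mul_le_mul_of_nonneg_right h1 (sq_nonneg ρ)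
    linarith
  have u0 := u _ _ _ _ m0 c0 p0
  have u1 := u _ _ _ _ m1 c1 p1
  have u2 := u _ _ _ _ m2 c2 p2
  have u3 := u _ _ _ _ m3 c3 p3
  have t6 : (w0 + w1 + w2 + w3) * (M * ρ ^ 2 / 8) = M * ρ ^ 2 / 8 := by rw [hs]; ring
  nlinarith

theorem JS.of_bound {ρ ρ' x c M q : ℝ} (h0 : 0 ≤ ρ) (hρ : ρ ≤ ρ') (hc : cos x ≤ c) (hM0 : 0 ≤ M)
    (hM : 1 ≤ M ∨ c + ρ' ≤ M) (hq : c + M * ρ' ^ 2 / 8 ≤ q) : JS ρ x q := by
  refine ⟨M, hM0, ?_, ?_⟩
  · intro t ht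
    rcases hM with h | h
    · exact (cos_le_one t).trans h
    · have := abs_cos_sub_cos_le t x
      have := le_abs_self (cos t - cos x)
      linarith
  · have : ρ ^ 2 ≤ ρ' ^ 2 := by gcongr
    have := mul_le_mul_of_nonneg_left this hM0
    linarith

theorem JS.cos_le {ρ x q : ℝ} (h : JS ρ x q) : cos x ≤ q := by
  obtain ⟨M, a, -, c⟩ := h
  have : 0 ≤ M * ρ ^ 2 / 8 := by positivity
  linarith

theorem JS.shift {ρ x q : ℝ} (n : ℕ) (h : JS ρ x q) : JS ρ (x + n * (2 * π)) q := by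
  obtain ⟨M, a, b, c⟩ := h
  refine ⟨M, a, ?_, by rwa [cos_add_nat_mul_two_pi]⟩
  intro t ht
  have := b (t - n * (2 * π)) (by rwa [show t - n * (2 * π) - x = t - (x + n * (2 * π)) by ring])
  rwa [cos_sub_nat_mul_two_pi] at this

theorem half_lo {x lo l : ℝ} (h0 : 0 ≤ x) (h1 : x ≤ π) (h : lo ≤ cos x)
    (hl : 2 * l ^ 2 - 1 ≤ lo) : l ≤ cos (x / 2) := by
  have hc : 0 ≤ cos (x / 2) := cos_nonneg_of_mem_Icc ⟨by linarith [pi_pos], by linarith⟩
  have h2 := cos_two_mul (x / 2)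
  rw [show 2 * (x / 2) = x by ring] at h2
  exact le_of_sq_le_sq' hc (by linarith)
where
  le_of_sq_le_sq' {a b : ℝ} (hb : 0 ≤ b) (h : a ^ 2 ≤ b ^ 2) : a ≤ b :=
    (abs_le_of_sq_le_sq' h hb).2

theorem half_hi {x hi u : ℝ} (h : cos x ≤ hi) (hu : 0 ≤ u)
    (hl : hi ≤ 2 * u ^ 2 - 1) : cos (x / 2) ≤ u := by
  have h2 := cos_two_mul (x / 2)
  rw [show 2 * (x / 2) = x by ring] at h2
  exact (abs_le_of_sq_le_sq' (by linarith) hu).2

theorem cos_table {E D : ℝ} (hD : 0 < D) (LO HI : ℕ → ℝ) (N : ℕ) (pos : ∀ n, 0 ≤ LO n)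
    (b0 : LO 0 ≤ D ∧ D ≤ HI 0) (b1 : LO 1 ≤ D * cos E ∧ D * cos E ≤ HI 1)
    (st : ∀ n, n + 2 ≤ N → LO (n + 2) * D + HI n * D ≤ 2 * LO 1 * LO (n + 1) ∧
      2 * HI 1 * HI (n + 1) ≤ HI (n + 2) * D + LO n * D) :
    ∀ n, n ≤ N → LO n ≤ D * cos (n * E) ∧ D * cos (n * E) ≤ HI n := by
  intro n
  induction n using Nat.strong_induction_on with
  | _ n ih =>
  intro hn
  match n, ih, hn with
  | 0, _, _ => simpa using b0
  | 1, _, _ => simpa using b1
  | n + 2, ih, hn =>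
    obtain ⟨a1, a2⟩ := ih n (by omega) (by omega)
    obtain ⟨c1, c2⟩ := ih (n + 1) (by omega) (by omega)
    obtain ⟨s1, s2⟩ := st n hn
    have e : cos (((n + 2 : ℕ) : ℝ) * E) = 2 * cos E * cos (((n + 1 : ℕ) : ℝ) * E) - cos (n * E) := by
      have h1 : ((n + 2 : ℕ) : ℝ) * E = ((n + 1 : ℕ) : ℝ) * E + E := by push_cast; ring
      have h2 : (n : ℝ) * E = ((n + 1 : ℕ) : ℝ) * E - E := by push_cast; ring
      rw [h1, h2, cos_add, cos_sub]; ring
    have p1 := pos 1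
    have p2 := pos (n + 1)
    have m1 : LO 1 * LO (n + 1) ≤ (D * cos E) * (D * cos (((n + 1 : ℕ) : ℝ) * E)) :=
      mul_le_mul b1.1 c1 p2 (p1.trans b1.1)
    have m2 : (D * cos E) * (D * cos (((n + 1 : ℕ) : ℝ) * E)) ≤ HI 1 * HI (n + 1) :=
      mul_le_mul b1.2 c2 (p2.trans c1) ((p1.trans b1.1).trans b1.2)
    have a1' := mul_le_mul_of_nonneg_right a1 hD.le
    have a2' := mul_le_mul_of_nonneg_right a2 hD.le
    rw [e]
    constructor
    · apply le_of_mul_le_mul_right _ hD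
      nlinarith
    · apply le_of_mul_le_mul_right _ hD
      nlinarith

end Pool.Agent.MP_8fe08c_co.h31

end MrgPart1

-- marker of a merged file
example : 731051 + 863036 = 731051 + 863036 := rfl
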