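import Mathlib.Algebra.Order.Ring.Star
import Mathlib.Analysis.Real.Pi.Bounds
import Pool.Agent.MP_8fe08c_co.h31.Trig

set_option autoImplicit false

open Real

namespace Pool.Agent.MP_8fe08c_co.h31

theorem frc_eq (x : Nat) (k : Nat → Bool) : frc x k = k x := rfl

theorem frn_eq (x : Nat) (k : Nat → Nat) : frn x k = k x := rfl

theorem rec_and (a b : Bool) : (Bool.rec false b a : Bool) = (a && b) := by cases a <;> rfl

theorem rec_or (a b : Bool) : (Bool.rec b true a : Bool) = (a || b) := by cases a <;> rfl

theorem rec_imp (a b : Bool) : (Bool.rec true b a : Bool) = (!a || b) := by cases a <;> rfl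

theorem allB_spec {n : Nat} {f : Nat → Bool} (h : allB n f = true) : ∀ i, i < n → f i = true := by
  induction n with
  | zero => intro i hi; omega
  | succ n ih =>
    have h' : (Bool.rec false (allB n f) (f n) : Bool) = true := h
    rw [rec_and, Bool.and_eq_true] at h'
    intro i hi
    rcases Nat.lt_succ_iff_lt_or_eq.mp hi with h1 | h1
    · exact ih h'.2 i h1
    · rw [h1]; exact h'.1

theorem anyB_spec {n : Nat} {f : Nat → Bool} (h : anyB n f = true) : ∃ i, i < n ∧ f i = true := by
  induction n with
  | zero => exact absurd h (by simp [anyB])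
  | succ n ih =>
    have h' : (Bool.rec (anyB n f) true (f n) : Bool) = true := h
    rw [rec_or, Bool.or_eq_true] at h'
    rcases h' with h1 | h1
    · exact ⟨n, by omega, h1⟩
    · obtain ⟨i, hi, h2⟩ := ih h1
      exact ⟨i, by omega, h2⟩

theorem cast_tsub_ge (a b : ℕ) : (a : ℝ) - b ≤ ((a - b : ℕ) : ℝ) := by
  have : a ≤ a - b + b := le_tsub_add
  have h2 : (a : ℝ) ≤ ((a - b : ℕ) : ℝ) + b := by exact_mod_cast this
  linarith

/-- Mesh size. -/
noncomputable def Eg : ℝ := π / 64

theorem Eg_pos : 0 < Eg := by unfold Eg; positivity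

/-- Lower table. -/
def LOn (n : ℕ) : ℕ := (0x323ecbe21bb027cdc75b9afb8c400000645e9af0a6d0af875baaba4de0900000964083747309d112fcbf50cde4d00000c7c5c1e34d3055b25b6b2db45b400000f8cfcbd90af8d57a4190f09530e00001294062ed59f05a8b5c5b3a9a3910000158f9a75ab1fdcfe10226424a06d0000187de2a6aea962d1a623b31f35d300001b5d1009e15cc02b66c552b10a5600001e2b5d3806f63b1e0d8900d79d38000020e70f3245ffdb2d2ff5da00963b0000238e76735cd190d92ee92f19ee750000261feff9c2e069c20673b00b848f00002899e64a123bac300ed45924d8e500002afad26919d93f4546fb36471fd000002d413cccfe779921165f6247f69700002f6bbe44d55f5dbc2b214c7488330000317900d62a2e8169d0f689700cdb00003367c08fe70e816788ebcc743b1d00003536cc521d4346067d8c3a2c9f7f000036e5068a32dc7b21cb066d8c21240000387165e3017b61a47d3a2a0d9bcf000039daf5e8798ee5e184944a54935700003b20d79e651a8c515f98408c62b500003c424209ed0dc97f59c49f6cd35000003d3e82ad8c5bb4bb058f171fbf7800003e14fdf72461ae54b1eb71ad258500003ec52f9feeb96055885ca8d87f0900003f4eaafe114a2d42fab9af6546ed00003fb11b47a24a4b3c104e43bf71c000003fec43c6f2dafbc75087a3b6abd400004000000000000000000000000000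 >>> (128 * n)) % 2 ^ 128

/-- Upper table. -/
def HIn (n : ℕ) : ℕ := (0x323ecbe21bb027cdedb02fa9ef600000645e9af0a6d0af876b8eb23b52000000964083747309d1130355c2743f100000c7c5c1e34d3055b25e2652682d300000f8cfcbd90af8d57a42b2c80207f00001294062ed59f05a8b5cd363351bb0000158f9a75ab1fdcfe10258129bf930000187de2a6aea962d1a624fd8a30c300001b5d1009e15cc02b66c5dbabfa9f00001e2b5d3806f63b1e0d8939a13247000020e70f3245ffdb2d2ff5f18b62180000238e76735cd190d92ee938dc70a70000261feff9c2e069c20673b41750e800002899e64a123bac300ed45ad2412d00002afad26919d93f4546fb36f9246700002d413cccfe779921165f6291c37500002f6bbe44d55f5dbc2b214c93208b0000317900d62a2e8169d0f6897cbbe000003367c08fe70e816788ebcc797d3600003536cc521d4346067d8c3a2ecd89000036e5068a32dc7b21cb066d8d087a0000387165e3017b61a47d3a2a0dfbb4000039daf5e8798ee5e184944a54bb1600003b20d79e651a8c515f98408c732d00003c424209ed0dc97f59c49f6cda2100003d3e82ad8c5bb4bb058f171fc24900003e14fdf72461ae54b1eb71ad26ad00003ec52f9feeb96055885ca8d87f8100003f4eaafe114a2d42fab9af65471c00003fb11b47a24a4b3c104e43bf71d100003fec43c6f2dafbc75087a3b6abd800004000000000000000000000000000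 >>> (128 * n)) % 2 ^ 128

/-- Upper bound of the cosine with offset. -/
def CU (m : ℕ) : ℕ :=
  if m ≤ 32 then 2596148429267413814265248164610048 + HIn m else if m ≤ 64 then 2596148429267413814265248164610048 - LOn (64 - m)
  else if m ≤ 96 then 2596148429267413814265248164610048 - LOn (m - 64) else 2596148429267413814265248164610048 + HIn (128 - m)

/-- Curvature bound. -/
def MM (r m : ℕ) : ℕ := min 1298074214633706907132624082305024 (CU m + r * 63719069007931157819162827736858 - 2596148429267413814265248164610048)

theorem rec_ok : allB (32 - 2) (fun n => decide (LOn (n + 2) * 1298074214633706907132624082305024 + HIn n * 1298074214633706907132624082305024 ≤ 2 * LOn 1 * LOn (n + 1)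
    ∧ 2 * HIn 1 * HIn (n + 1) ≤ HIn (n + 2) * 1298074214633706907132624082305024 + LOn n * 1298074214633706907132624082305024)) = true := by decide +kernel

theorem q_ok : allB 128 (fun m => decide (
    CU m * (8 * 1298074214633706907132624082305024 ^ 2) + MM 1 m * (1 * 63719069007931157819162827736858) ^ 2 ≤ Q1 m * 77371252455336267181195264 * (8 * 1298074214633706907132624082305024 ^ 2) ∧
    CU m * (8 * 1298074214633706907132624082305024 ^ 2) + MM 2 m * (2 * 63719069007931157819162827736858) ^ 2 ≤ Q2 m * 77371252455336267181195264 * (8 * 1298074214633706907132624082305024 ^ 2))) = true := by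
  decide +kernel

theorem base_ok : LOn 0 = 1298074214633706907132624082305024 ∧ HIn 0 = 1298074214633706907132624082305024 ∧ LOn 1 = 1296510627393244155817624562215892 ∧ HIn 1 = 1296510627393244155817624562215896 ∧ LOn 32 = 0 ∧
    HIn 32 = 0 := by decide +kernel

theorem cosE : (1296510627393244155817624562215892 : ℝ) / 1298074214633706907132624082305024 ≤ cos Eg ∧ cos Eg ≤ (1296510627393244155817624562215896 : ℝ) / 1298074214633706907132624082305024 := by
  have hp := pi_pos
  have e0 : cos (32 * Eg) = (0 : ℝ) / 1298074214633706907132624082305024 := by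
    rw [show 32 * Eg = π / 2 by unfold Eg; ring, cos_pi_div_two]; norm_num
  have l0 : (0 : ℝ) / 1298074214633706907132624082305024 ≤ cos (32 * Eg) := e0.ge
  have u0 : cos (32 * Eg) ≤ (0 : ℝ) / 1298074214633706907132624082305024 := e0.le
  have hE := Eg_pos
  have hb : 32 * Eg ≤ π := by unfold Eg; linarith
  have l1 := half_lo (l := (917877079650896116428504075918673 : ℝ) / 1298074214633706907132624082305024) (by linarith) (by linarith) l0 (by norm_num)
  have l2 := half_lo (l := (1199264198580744843200563224800005 : ℝ) / 1298074214633706907132624082305024) (by linarith) (by linarith) l1 (by norm_num)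
  have l3 := half_lo (l := (1273132082583723374915870621466441 : ℝ) / 1298074214633706907132624082305024) (by linarith) (by linarith) l2 (by norm_num)
  have l4 := half_lo (l := (1291823632490472243930577892241864 : ℝ) / 1298074214633706907132624082305024) (by linarith) (by linarith) l3 (by norm_num)
  have l5 := half_lo (l := (1296510627393244155817624562215892 : ℝ) / 1298074214633706907132624082305024) (by linarith) (by linarith) l4 (by norm_num)
  have u1 := half_hi (u := (917877079650896116428504075918676 : ℝ) / 1298074214633706907132624082305024) u0 (by norm_num) (by norm_num)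
  have u2 := half_hi (u := (1199264198580744843200563224800009 : ℝ) / 1298074214633706907132624082305024) u1 (by norm_num) (by norm_num)
  have u3 := half_hi (u := (1273132082583723374915870621466445 : ℝ) / 1298074214633706907132624082305024) u2 (by norm_num) (by norm_num)
  have u4 := half_hi (u := (1291823632490472243930577892241868 : ℝ) / 1298074214633706907132624082305024) u3 (by norm_num) (by norm_num)
  have u5 := half_hi (u := (1296510627393244155817624562215896 : ℝ) / 1298074214633706907132624082305024) u4 (by norm_num) (by norm_num)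
  rw [show 32 * Eg / 2 / 2 / 2 / 2 / 2 = Eg by ring] at l5 u5
  exact ⟨l5, u5⟩

theorem tab (n : ℕ) (hn : n ≤ 32) :
    (LOn n : ℝ) ≤ 1298074214633706907132624082305024 * cos (n * Eg) ∧ 1298074214633706907132624082305024 * cos (n * Eg) ≤ (HIn n : ℝ) := by
  obtain ⟨b1, b2, b3, b4, b5, b6⟩ := base_ok
  rcases Nat.lt_or_eq_of_le hn with h | h
  · refine cos_table (E := Eg) (D := 1298074214633706907132624082305024) (by norm_num) (fun n => (LOn n : ℝ)) (fun n => (HIn n : ℝ))
      31 (fun n => Nat.cast_nonneg _) ?_ ?_ ?_ n (by omega)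
    · simp only [b1, b2]; norm_num
    · simp only [b3, b4]
      obtain ⟨c1, c2⟩ := cosE
      rw [div_le_iff₀ (by norm_num)] at c1
      rw [le_div_iff₀ (by norm_num)] at c2
      constructor <;> push_cast <;> linarith
    · intro k hk
      have := allB_spec rec_ok k (by omega)
      rw [decide_eq_true_eq] at this
      exact ⟨by exact_mod_cast this.1, by exact_mod_cast this.2⟩
  · rw [h, b5, b6, show ((32 : ℕ) : ℝ) * Eg = π / 2 by unfold Eg; push_cast; ring, cos_pi_div_two]
    simp

theorem cos_CU (m : ℕ) (hm : m < 128) : cos (m * Eg) ≤ (CU m : ℝ) / 1298074214633706907132624082305024 - 2 := by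
  have key : ∀ n, n ≤ 32 → LOn n ≤ 2596148429267413814265248164610048 := by
    intro n hn
    have h1 := (tab n hn).1
    have h2 := cos_le_one (n * Eg)
    have : (LOn n : ℝ) ≤ 2596148429267413814265248164610048 := by linarith
    exact_mod_cast this
  rw [le_sub_iff_add_le, le_div_iff₀ (by norm_num)]
  unfold CU
  split_ifs with h1 h2 h3
  · have := (tab m h1).2
    push_cast; linarith
  · have h4 := (tab (64 - m) (by omega)).1
    rw [Nat.cast_sub (key _ (by omega))]
    rw [Nat.cast_sub h2, show (((64 : ℕ) : ℝ) - m) * Eg = π - m * Eg by unfold Eg; push_cast; ring,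
      cos_pi_sub] at h4
    push_cast; linarith
  · have h4 := (tab (m - 64) (by omega)).1
    rw [Nat.cast_sub (key _ (by omega))]
    rw [Nat.cast_sub (by omega),
      show ((m : ℝ) - ((64 : ℕ) : ℝ)) * Eg = m * Eg - π by unfold Eg; push_cast; ring,
      cos_sub_pi] at h4
    push_cast; linarith
  · have h4 := (tab (128 - m) (by omega)).2
    rw [Nat.cast_sub (by omega),
      show (((128 : ℕ) : ℝ) - m) * Eg = 2 * π - m * Eg by unfold Eg; push_cast; ring,
      cos_two_pi_sub] at h4
    push_cast; linarith

theorem JS_small (r m q : ℕ) (hm : m < 128)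
    (h : CU m * (8 * 1298074214633706907132624082305024 ^ 2) + MM r m * (r * 63719069007931157819162827736858) ^ 2 ≤ q * 77371252455336267181195264 * (8 * 1298074214633706907132624082305024 ^ 2)) :
    JS (r * Eg) (m * Eg) ((q : ℝ) / 16777216 - 2) := by
  have hE : Eg ≤ (63719069007931157819162827736858 : ℝ) / 1298074214633706907132624082305024 := by
    have := pi_lt_d20
    unfold Eg; linarith
  have hE0 := Eg_pos
  refine JS.of_bound (ρ' := r * ((63719069007931157819162827736858 : ℝ) / 1298074214633706907132624082305024)) (M := (MM r m : ℝ) / 1298074214633706907132624082305024) (by positivity)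
    (by gcongr) (cos_CU m hm) (div_nonneg (Nat.cast_nonneg _) (by norm_num)) ?_ ?_
  · unfold MM
    rcases le_total 1298074214633706907132624082305024 (CU m + r * 63719069007931157819162827736858 - 2596148429267413814265248164610048) with h1 | h1
    · left; rw [min_eq_left h1]; norm_num
    · right; rw [min_eq_right h1]
      have h2 := cast_tsub_ge (CU m + r * 63719069007931157819162827736858) 2596148429267413814265248164610048
      push_cast at h2
      linarith
  · have h2 : (CU m : ℝ) * (8 * 1298074214633706907132624082305024 ^ 2) + MM r m * (r * 63719069007931157819162827736858) ^ 2 ≤ q * 77371252455336267181195264 * (8 * 1298074214633706907132624082305024 ^ 2) := by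
      exact_mod_cast h
    linarith

theorem JS_mod {ρ q : ℝ} (m : ℕ) (h : JS ρ ((m % 128 : ℕ) * Eg) q) : JS ρ (m * Eg) q := by
  have h1 := h.shift (m / 128)
  have h2 : (m : ℝ) = ((m % 128 : ℕ) : ℝ) + 128 * ((m / 128 : ℕ) : ℝ) := by
    exact_mod_cast (Nat.mod_add_div m 128).symm
  have h3 : ((m % 128 : ℕ) : ℝ) * Eg + ((m / 128 : ℕ) : ℝ) * (2 * π) = m * Eg := by
    rw [h2]; unfold Eg
    ring
  rwa [h3] at h1

theorem Q1_mod (m : ℕ) : Q1 (m % 128) = Q1 m := by
  unfold Q1
  rw [show Nat.mod (m % 128) (nat_lit 128) = Nat.mod m (nat_lit 128) from Nat.mod_mod m 128]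

theorem Q2_mod (m : ℕ) : Q2 (m % 128) = Q2 m := by
  unfold Q2
  rw [show Nat.mod (m % 128) (nat_lit 128) = Nat.mod m (nat_lit 128) from Nat.mod_mod m 128]

theorem JS1 (m : ℕ) : JS ((1 : ℕ) * Eg) (m * Eg) ((Q1 m : ℝ) / 16777216 - 2) := by
  have hm : m % 128 < 128 := Nat.mod_lt _ (by norm_num)
  have := allB_spec q_ok _ hm
  rw [decide_eq_true_eq] at this
  rw [← Q1_mod]
  exact JS_mod m (JS_small 1 _ _ hm this.1)

theorem JS2 (m : ℕ) : JS ((2 : ℕ) * Eg) (m * Eg) ((Q2 m : ℝ) / 16777216 - 2) := by
  have hm : m % 128 < 128 := Nat.mod_lt _ (by norm_num)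
  have := allB_spec q_ok _ hm
  rw [decide_eq_true_eq] at this
  rw [← Q2_mod]
  exact JS_mod m (JS_small 2 _ _ hm this.2)

end Pool.Agent.MP_8fe08c_co.h31
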