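import Mathlib.Tactic.Monotonicity.Lemmas
import Pool.Agent.MP_8fe08c_co.h31.Tables

-- ======== part 0: formerly Pool.Agent.MP_8fe08c_co.h31.Node
section MrgPart0

set_option autoImplicit false

open Real

namespace Pool.Agent.MP_8fe08c_co.h31

attribute [local irreducible] XX Q1 Q2 cA cB cC

/-- Four nodes with weights. -/
structure SP where
  v0 : ℕ
  v1 : ℕ
  v2 : ℕ
  v3 : ℕ
  w0 : ℝ
  w1 : ℝ
  w2 : ℝ
  w3 : ℝ

/-- Weighted average of nodal values. -/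
def SP.av (s : SP) (f : ℕ → ℕ) : ℝ :=
  s.w0 * f s.v0 + s.w1 * f s.v1 + s.w2 * f s.v2 + s.w3 * f s.v3

/-- A property at all four nodes. -/
def SP.all (s : SP) (p : ℕ → Prop) : Prop := p s.v0 ∧ p s.v1 ∧ p s.v2 ∧ p s.v3

/-- A coordinate increases by at most one along the chain. -/
def SP.mono (s : SP) (f : ℕ → ℕ) : Prop :=
  f s.v0 ≤ f s.v1 ∧ f s.v1 ≤ f s.v2 ∧ f s.v2 ≤ f s.v3 ∧ f s.v3 ≤ f s.v0 + 1

/-- A node of the tetrahedron. -/
def Val (v : ℕ) : Prop := cA v ≤ cB v ∧ cB v ≤ cC v ∧ cC v ≤ 64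

/-- The point `y` has barycentric description `s`. -/
structure SP.Ok (s : SP) (y : ℝ × ℝ × ℝ) : Prop where
  p0 : 0 ≤ s.w0
  p1 : 0 ≤ s.w1
  p2 : 0 ≤ s.w2
  p3 : 0 ≤ s.w3
  sum : s.w0 + s.w1 + s.w2 + s.w3 = 1
  val : s.all Val
  mA : s.mono cA
  mB : s.mono cB
  mC : s.mono cC
  y1 : y.1 = Eg * s.av cA
  y2 : y.2.1 = Eg * s.av cB
  y3 : y.2.2 = Eg * s.av cC

variable {s : SP} {y : ℝ × ℝ × ℝ}

theorem av_le (h : s.Ok y) (F G : ℕ → ℝ) (hv : s.all fun v => F v ≤ G v) :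
    s.w0 * F s.v0 + s.w1 * F s.v1 + s.w2 * F s.v2 + s.w3 * F s.v3 ≤
    s.w0 * G s.v0 + s.w1 * G s.v1 + s.w2 * G s.v2 + s.w3 * G s.v3 := by
  obtain ⟨a, b, c, d⟩ := hv
  have := mul_le_mul_of_nonneg_left a h.p0
  have := mul_le_mul_of_nonneg_left b h.p1
  have := mul_le_mul_of_nonneg_left c h.p2
  have := mul_le_mul_of_nonneg_left d h.p3
  linarith

theorem av_nonneg (h : s.Ok y) (f : ℕ → ℕ) : 0 ≤ s.av f := by
  unfold SP.av
  have := mul_nonneg h.p0 (Nat.cast_nonneg (α := ℝ) (f s.v0))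
  have := mul_nonneg h.p1 (Nat.cast_nonneg (α := ℝ) (f s.v1))
  have := mul_nonneg h.p2 (Nat.cast_nonneg (α := ℝ) (f s.v2))
  have := mul_nonneg h.p3 (Nat.cast_nonneg (α := ℝ) (f s.v3))
  linarith

theorem jenr (h : s.Ok y) (r : ℕ) (Q : ℕ → ℕ)
    (hQ : ∀ m : ℕ, JS (r * Eg) (m * Eg) ((Q m : ℝ) / 16777216 - 2)) (φ : ℕ → ℕ)
    (hr : ∃ lo, s.all fun v => lo ≤ φ v ∧ φ v ≤ lo + r) :
    cos (Eg * s.av φ) ≤ s.av (fun v => Q (φ v)) / 16777216 - 2 := by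
  obtain ⟨lo, a, b, c, d⟩ := hr
  have mem : ∀ m : ℕ, lo ≤ m ∧ m ≤ lo + r → (m : ℝ) * Eg ∈ Set.Icc (lo * Eg) (lo * Eg + r * Eg) := by
    intro m hm
    have h1 : (lo : ℝ) ≤ m := by exact_mod_cast hm.1
    have h2 : (m : ℝ) ≤ lo + r := by exact_mod_cast hm.2
    have := mul_le_mul_of_nonneg_right h1 Eg_pos.le
    have := mul_le_mul_of_nonneg_right h2 Eg_pos.le
    constructor <;> linarith
  have := jensen (hQ _) (hQ _) (hQ _) (hQ _) (mem _ a) (mem _ b) (mem _ c) (mem _ d)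
    h.p0 h.p1 h.p2 h.p3 h.sum
  unfold SP.av
  have e : Eg * (s.w0 * φ s.v0 + s.w1 * φ s.v1 + s.w2 * φ s.v2 + s.w3 * φ s.v3) =
      s.w0 * (φ s.v0 * Eg) + s.w1 * (φ s.v1 * Eg) + s.w2 * (φ s.v2 * Eg)
        + s.w3 * (φ s.v3 * Eg) := by ring
  rw [e]
  have hs := h.sum
  linear_combination this + (-2) * hs

theorem form (h : s.Ok y) (φ : ℕ → ℕ) (α β γ o : ℝ)
    (hφ : ∀ v, Val v → (φ v : ℝ) = α * cA v + β * cB v + γ * cC v + o) :
    Eg * s.av φ = α * y.1 + β * y.2.1 + γ * y.2.2 + o * Eg := by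
  obtain ⟨a, b, c, d⟩ := h.val
  rw [h.y1, h.y2, h.y3]
  unfold SP.av
  rw [hφ _ a, hφ _ b, hφ _ c, hφ _ d]
  linear_combination (o * Eg) * h.sum

theorem i1_eq (o v : ℕ) : i1 o v = cA v + cB v + o - cC v := rfl
theorem i2_eq (o v : ℕ) : i2 o v = cA v + cC v + o - cB v := rfl
theorem i3_eq (o v : ℕ) : i3 o v = cA v + cC v + o := rfl
theorem i4_eq (o v : ℕ) : i4 o v = cB v + cB v + o - (cA v + cC v) := rfl
theorem i5_eq (o v : ℕ) : i5 o v = cC v + o - cA v := rfl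
theorem i6_eq (v : ℕ) : i6 v = cC v - cB v := rfl

theorem rng4 {m0 m1 m2 m3 r : ℕ} (h01 : m0 ≤ m1 + r) (h10 : m1 ≤ m0 + r) (h02 : m0 ≤ m2 + r)
    (h20 : m2 ≤ m0 + r) (h03 : m0 ≤ m3 + r) (h30 : m3 ≤ m0 + r) (h12 : m1 ≤ m2 + r)
    (h21 : m2 ≤ m1 + r) (h13 : m1 ≤ m3 + r) (h31 : m3 ≤ m1 + r) (h23 : m2 ≤ m3 + r)
    (h32 : m3 ≤ m2 + r) : ∃ lo, (lo ≤ m0 ∧ m0 ≤ lo + r) ∧ (lo ≤ m1 ∧ m1 ≤ lo + r) ∧
      (lo ≤ m2 ∧ m2 ≤ lo + r) ∧ (lo ≤ m3 ∧ m3 ≤ lo + r) := by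
  by_cases a : m0 ≤ m1 ∧ m0 ≤ m2 ∧ m0 ≤ m3
  · exact ⟨m0, by omega⟩
  by_cases b : m1 ≤ m2 ∧ m1 ≤ m3
  · exact ⟨m1, by omega⟩
  by_cases c : m2 ≤ m3
  · exact ⟨m2, by omega⟩
  · exact ⟨m3, by omega⟩

theorem rng (h : s.Ok y) (φ : ℕ → ℕ) (r a1 b1 c1 a2 b2 c2 o : ℕ)
    (he : ∀ v, Val v → φ v + (a2 * cA v + b2 * cB v + c2 * cC v) = a1 * cA v + b1 * cB v + c1 * cC v + o)
    (h1 : a1 + b1 + c1 ≤ r) (h2 : a2 + b2 + c2 ≤ r) :
    ∃ lo, s.all fun v => lo ≤ φ v ∧ φ v ≤ lo + r := by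
  have step : ∀ u v, Val u → Val v → cA u ≤ cA v → cA v ≤ cA u + 1 → cB u ≤ cB v → cB v ≤ cB u + 1 →
      cC u ≤ cC v → cC v ≤ cC u + 1 → φ u ≤ φ v + r ∧ φ v ≤ φ u + r := by
    intro u v hu hv p1 p2 p3 p4 p5 p6
    have e1 := he u hu
    have e2 := he v hv
    have q1 := Nat.mul_le_mul_left a1 p1
    have q2 := Nat.mul_le_mul_left a1 p2
    have q3 := Nat.mul_le_mul_left b1 p3
    have q4 := Nat.mul_le_mul_left b1 p4
    have q5 := Nat.mul_le_mul_left c1 p5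
    have q6 := Nat.mul_le_mul_left c1 p6
    have r1 := Nat.mul_le_mul_left a2 p1
    have r2 := Nat.mul_le_mul_left a2 p2
    have r3 := Nat.mul_le_mul_left b2 p3
    have r4 := Nat.mul_le_mul_left b2 p4
    have r5 := Nat.mul_le_mul_left c2 p5
    have r6 := Nat.mul_le_mul_left c2 p6
    rw [Nat.mul_add, Nat.mul_one] at q2 q4 q6 r2 r4 r6
    constructor <;> omega
  obtain ⟨v0, v1, v2, v3⟩ := h.val
  obtain ⟨a1, a2, a3, a4⟩ := h.mA
  obtain ⟨b1, b2, b3, b4⟩ := h.mB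
  obtain ⟨c1, c2, c3, c4⟩ := h.mC
  have s01 := step _ _ v0 v1 (by omega) (by omega) (by omega) (by omega) (by omega) (by omega)
  have s02 := step _ _ v0 v2 (by omega) (by omega) (by omega) (by omega) (by omega) (by omega)
  have s03 := step _ _ v0 v3 (by omega) (by omega) (by omega) (by omega) (by omega) (by omega)
  have s12 := step _ _ v1 v2 (by omega) (by omega) (by omega) (by omega) (by omega) (by omega)
  have s13 := step _ _ v1 v3 (by omega) (by omega) (by omega) (by omega) (by omega) (by omega)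
  have s23 := step _ _ v2 v3 (by omega) (by omega) (by omega) (by omega) (by omega) (by omega)
  exact rng4 s01.1 s01.2 s02.1 s02.2 s03.1 s03.2 s12.1 s12.2 s13.1 s13.2 s23.1 s23.2

theorem j1 (h : s.Ok y) (o : ℕ) (ho : 64 ≤ o) :
    cos (y.1 + y.2.1 - y.2.2 + o * Eg) ≤ s.av (fun v => Q2 (i1 o v)) / 16777216 - 2 := by
  have := jenr h 2 Q2 JS2 (i1 o) (rng h _ _ 1 1 0 0 0 1 o (by
    intro v hv; unfold Val at hv; rw [i1_eq]; omega) (by norm_num) (by norm_num))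
  rw [form h (i1 o) 1 1 (-1) o (by
    intro v hv; unfold Val at hv; rw [i1_eq, Nat.cast_sub (by omega)]; push_cast; ring)] at this
  rwa [show y.1 + y.2.1 - y.2.2 + o * Eg = 1 * y.1 + 1 * y.2.1 + -1 * y.2.2 + o * Eg by ring]

theorem j2 (h : s.Ok y) (o : ℕ) :
    cos (y.1 + (y.2.2 - y.2.1) + o * Eg) ≤ s.av (fun v => Q2 (i2 o v)) / 16777216 - 2 := by
  have := jenr h 2 Q2 JS2 (i2 o) (rng h _ _ 1 0 1 0 1 0 o (by
    intro v hv; unfold Val at hv; rw [i2_eq]; omega) (by norm_num) (by norm_num))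
  rw [form h (i2 o) 1 (-1) 1 o (by
    intro v hv; unfold Val at hv; rw [i2_eq, Nat.cast_sub (by omega)]; push_cast; ring)] at this
  rwa [show y.1 + (y.2.2 - y.2.1) + o * Eg = 1 * y.1 + -1 * y.2.1 + 1 * y.2.2 + o * Eg by ring]

theorem j3 (h : s.Ok y) (o : ℕ) :
    cos (y.1 + y.2.2 + o * Eg) ≤ s.av (fun v => Q2 (i3 o v)) / 16777216 - 2 := by
  have := jenr h 2 Q2 JS2 (i3 o) (rng h _ _ 1 0 1 0 0 0 o (by
    intro v hv; unfold Val at hv; rw [i3_eq]; omega) (by norm_num) (by norm_num))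
  rw [form h (i3 o) 1 0 1 o (by
    intro v hv; rw [i3_eq]; push_cast; ring)] at this
  rwa [show y.1 + y.2.2 + o * Eg = 1 * y.1 + 0 * y.2.1 + 1 * y.2.2 + o * Eg by ring]

theorem j4 (h : s.Ok y) (o : ℕ) (ho : 64 ≤ o) :
    cos (2 * y.2.1 - y.1 - y.2.2 + o * Eg) ≤ s.av (fun v => Q2 (i4 o v)) / 16777216 - 2 := by
  have := jenr h 2 Q2 JS2 (i4 o) (rng h _ _ 0 2 0 1 0 1 o (by
    intro v hv; unfold Val at hv; rw [i4_eq]; omega) (by norm_num) (by norm_num))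
  rw [form h (i4 o) (-1) 2 (-1) o (by
    intro v hv; unfold Val at hv; rw [i4_eq, Nat.cast_sub (by omega)]; push_cast; ring)] at this
  rwa [show 2 * y.2.1 - y.1 - y.2.2 + o * Eg = -1 * y.1 + 2 * y.2.1 + -1 * y.2.2 + o * Eg by ring]

theorem j5 (h : s.Ok y) (o : ℕ) :
    cos (y.2.2 - y.1 + o * Eg) ≤ s.av (fun v => Q1 (i5 o v)) / 16777216 - 2 := by
  have := jenr h 1 Q1 JS1 (i5 o) (rng h _ _ 0 0 1 1 0 0 o (by
    intro v hv; unfold Val at hv; rw [i5_eq]; omega) (by norm_num) (by norm_num))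
  rw [form h (i5 o) (-1) 0 1 o (by
    intro v hv; unfold Val at hv; rw [i5_eq, Nat.cast_sub (by omega)]; push_cast; ring)] at this
  rwa [show y.2.2 - y.1 + o * Eg = -1 * y.1 + 0 * y.2.1 + 1 * y.2.2 + o * Eg by ring]

theorem form6 (h : s.Ok y) : Eg * s.av i6 = y.2.2 - y.2.1 := by
  rw [form h i6 0 (-1) 1 0 (by
    intro v hv; unfold Val at hv; rw [i6_eq, Nat.cast_sub (by omega)]; ring)]
  ring

theorem rng6 (h : s.Ok y) : ∃ lo, s.all fun v => lo ≤ i6 v ∧ i6 v ≤ lo + 1 :=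
  rng h _ _ 0 0 1 0 1 0 0 (by intro v hv; unfold Val at hv; rw [i6_eq]; omega) le_rfl le_rfl

theorem rngA (h : s.Ok y) : ∃ lo, s.all fun v => lo ≤ cA v ∧ cA v ≤ lo + 1 :=
  rng h _ _ 1 0 0 0 0 0 0 (by intro v _; omega) le_rfl (by norm_num)

theorem jφ (h : s.Ok y) (φ : ℕ → ℕ) (hr : ∃ lo, s.all fun v => lo ≤ φ v ∧ φ v ≤ lo + 1) (o : ℕ) :
    cos (Eg * s.av φ + o * Eg) ≤ s.av (fun v => Q1 (φ v + o)) / 16777216 - 2 := by
  obtain ⟨lo, a, b, c, d⟩ := hr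
  have := jenr h 1 Q1 JS1 (fun v => φ v + o) ⟨lo + o, by simp only [SP.all]; omega⟩
  have e : Eg * s.av (fun v => φ v + o) = Eg * s.av φ + o * Eg := by
    unfold SP.av; push_cast; linear_combination (o * Eg) * h.sum
  rwa [e] at this

theorem cP (x : ℝ) : cos (x + (64 : ℕ) * Eg) = -cos x := by
  rw [show ((64 : ℕ) : ℝ) * Eg = π by unfold Eg; push_cast; ring, cos_add_pi]
theorem cP2 (x : ℝ) : cos (x + (128 : ℕ) * Eg) = cos x := by
  rw [show ((128 : ℕ) : ℝ) * Eg = 2 * π by unfold Eg; push_cast; ring, cos_add_two_pi]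
theorem cP3 (x : ℝ) : cos (x + (192 : ℕ) * Eg) = -cos x := by
  rw [show x + ((192 : ℕ) : ℝ) * Eg = x + π + 2 * π by unfold Eg; push_cast; ring, cos_add_two_pi,
    cos_add_pi]
theorem cPH (x : ℝ) : cos (x + (32 : ℕ) * Eg) = -sin x := by
  rw [show ((32 : ℕ) : ℝ) * Eg = π / 2 by unfold Eg; push_cast; ring, cos_add_pi_div_two]
theorem cP32 (x : ℝ) : cos (x + (96 : ℕ) * Eg) = sin x := by
  rw [show x + ((96 : ℕ) : ℝ) * Eg = x - π / 2 + 2 * π by unfold Eg; push_cast; ring,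
    cos_add_two_pi, cos_sub_pi_div_two]
theorem cP52 (x : ℝ) : cos (x + (160 : ℕ) * Eg) = -sin x := by
  rw [show x + ((160 : ℕ) : ℝ) * Eg = x + π / 2 + 2 * π by unfold Eg; push_cast; ring,
    cos_add_two_pi, cos_add_pi_div_two]
theorem cP72 (x : ℝ) : cos (x + (224 : ℕ) * Eg) = sin x := by
  rw [show x + ((224 : ℕ) : ℝ) * Eg = x - π / 2 + 2 * π + 2 * π by unfold Eg; push_cast; ring,
    cos_add_two_pi, cos_add_two_pi, cos_sub_pi_div_two]

theorem AM_eq (v : ℕ) : AM v = Q2 (i4 192 v) + Q1 (i5 128 v) := rfl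
theorem AP_eq (v : ℕ) : AP v = Q2 (i4 128 v) + Q1 (i5 192 v) := rfl
theorem BP_eq (v : ℕ) : BP v = Q2 (i3 64 v) + Q1 (i5 128 v) := rfl
theorem BM_eq (v : ℕ) : BM v = Q2 (i3 128 v) + Q1 (i5 192 v) := rfl
theorem EE_eq (v : ℕ) : EE v = 104100 * (Q2 (i1 192 v) + Q2 (i2 128 v)) := rfl
theorem KN_eq (v : ℕ) : KN v = 53972150819 * (Q2 (i3 160 v) + Q2 (i4 160 v)) / 1099511627776 + 1 := rfl
theorem up_eq (q c : ℕ) : up q c = (q - 33554432) * c / 1099511627776 + 1 := rfl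
theorem co_eq (v : ℕ) : co v = up (Q2 (i2 224 v)) 13350884289 := rfl
theorem fT_eq (j : ℕ) : fT j = up (Q1 (j + 96)) 130171121814 + 180000 * (j - 5) := rfl
theorem tm_eq (j : ℕ) : tm j = up (Q1 (j + 96)) 13350884289 := rfl
theorem HH_eq (l v : ℕ) : HH l v = EE v + KN v * XX l v + 35184372088832 - (3294198 * XX l v + 6986032742400) := rfl

theorem prod_a (y : ℝ × ℝ × ℝ) : 2 * (sin (y.2.1 - y.1) * sin (y.2.2 - y.2.1)) =
    cos (2 * y.2.1 - y.1 - y.2.2) - cos (y.2.2 - y.1) := by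
  rw [show 2 * y.2.1 - y.1 - y.2.2 = (y.2.1 - y.1) - (y.2.2 - y.2.1) by ring,
    show y.2.2 - y.1 = (y.2.1 - y.1) + (y.2.2 - y.2.1) by ring, cos_sub (y.2.1 - y.1), cos_add]
  ring

theorem prod_b (y : ℝ × ℝ × ℝ) : 2 * (sin y.1 * sin (π - y.2.2)) =
    cos (y.2.2 - y.1) - cos (y.1 + y.2.2) := by
  rw [sin_pi_sub, cos_sub, cos_add]; ring

theorem prod_e (y : ℝ × ℝ × ℝ) : 2 * (sin y.1 * sin (y.2.2 - y.2.1)) =
    cos (y.1 + y.2.1 - y.2.2) - cos (y.1 + (y.2.2 - y.2.1)) := by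
  rw [show y.1 + y.2.1 - y.2.2 = y.1 - (y.2.2 - y.2.1) by ring, cos_sub y.1, cos_add]
  ring

theorem prod_k (y : ℝ × ℝ × ℝ) : 2 * (cos (y.1 + (y.2.2 - y.2.1)) * sin y.2.1) =
    sin (y.1 + y.2.2) + sin (2 * y.2.1 - y.1 - y.2.2) := by
  rw [show y.1 + y.2.2 = y.2.1 + (y.1 + (y.2.2 - y.2.1)) by ring,
    show 2 * y.2.1 - y.1 - y.2.2 = y.2.1 - (y.1 + (y.2.2 - y.2.1)) by ring, sin_add y.2.1,
    sin_sub y.2.1]
  ring

theorem bAM (h : s.Ok y) :
    -(33554432 * (sin (y.2.1 - y.1) * sin (y.2.2 - y.2.1))) ≤ s.av AM - 67108864 := by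
  have a := j4 h 192 (by norm_num)
  have b := j5 h 128
  rw [cP3] at a; rw [cP2] at b
  have e := prod_a y
  simp only [SP.av, AM_eq] at a b ⊢
  push_cast; linarith

theorem bAP (h : s.Ok y) :
    33554432 * (sin (y.2.1 - y.1) * sin (y.2.2 - y.2.1)) ≤ s.av AP - 67108864 := by
  have a := j4 h 128 (by norm_num)
  have b := j5 h 192
  rw [cP2] at a; rw [cP3] at b
  have e := prod_a y
  simp only [SP.av, AP_eq] at a b ⊢
  push_cast; linarith

theorem bBP (h : s.Ok y) : 33554432 * (sin y.1 * sin (π - y.2.2)) ≤ s.av BP - 67108864 := by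
  have a := j3 h 64
  have b := j5 h 128
  rw [cP] at a; rw [cP2] at b
  have e := prod_b y
  simp only [SP.av, BP_eq] at a b ⊢
  push_cast; linarith

theorem bBM (h : s.Ok y) : -(33554432 * (sin y.1 * sin (π - y.2.2))) ≤ s.av BM - 67108864 := by
  have a := j3 h 128
  have b := j5 h 192
  rw [cP2] at a; rw [cP3] at b
  have e := prod_b y
  simp only [SP.av, BM_eq] at a b ⊢
  push_cast; linarith

theorem bEE (h : s.Ok y) :
    -(104100 * 33554432 * (sin y.1 * sin (y.2.2 - y.2.1))) ≤ s.av EE - 6986032742400 := by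
  have a := j1 h 192 (by norm_num)
  have b := j2 h 128
  rw [cP3] at a; rw [cP2] at b
  have e := prod_e y
  simp only [SP.av, EE_eq] at a b ⊢
  push_cast; linarith

theorem div_succ_ge (x W : ℕ) (hW : 0 < W) : (x : ℝ) / W ≤ ((x / W + 1 : ℕ) : ℝ) := by
  have hW' : (0 : ℝ) < W := by exact_mod_cast hW
  rw [div_le_iff₀ hW']
  have : x ≤ (x / W + 1) * W := by
    have := Nat.lt_div_mul_add (a := x) hW
    rw [Nat.add_mul]; omega
  exact_mod_cast this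

theorem KN_ge (v : ℕ) :
    Eg * ((Q2 (i3 160 v) : ℝ) + Q2 (i4 160 v) - 67108864) ≤ (KN v : ℝ) - 3294198 := by
  have h1 := div_succ_ge (53972150819 * (Q2 (i3 160 v) + Q2 (i4 160 v))) 1099511627776 (by norm_num)
  rw [← KN_eq] at h1
  push_cast at h1
  have hU : Eg ≤ (53972150819 : ℝ) / 1099511627776 := by have := pi_lt_d20; unfold Eg; linarith
  have hL : (3294198 : ℝ) ≤ Eg * 67108864 := by have := pi_gt_d20; unfold Eg; linarith
  have h2 := mul_le_mul_of_nonneg_right hU (add_nonneg (Nat.cast_nonneg (α := ℝ) (Q2 (i3 160 v)))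
    (Nat.cast_nonneg (α := ℝ) (Q2 (i4 160 v))))
  linarith

theorem bKN (h : s.Ok y) :
    -(Eg * 33554432 * (cos (y.1 + (y.2.2 - y.2.1)) * sin y.2.1)) ≤ s.av KN - 3294198 := by
  have a := j3 h 160
  have b := j4 h 160 (by norm_num)
  rw [cP52] at a b
  have e := prod_k y
  have c := av_le h (fun v => Eg * ((Q2 (i3 160 v) : ℝ) + Q2 (i4 160 v) - 67108864))
    (fun v => (KN v : ℝ) - 3294198) ⟨KN_ge _, KN_ge _, KN_ge _, KN_ge _⟩
  have d : -(33554432 * (cos (y.1 + (y.2.2 - y.2.1)) * sin y.2.1)) ≤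
      s.av (fun v => Q2 (i3 160 v)) + s.av (fun v => Q2 (i4 160 v)) - 67108864 := by linarith
  have d' := mul_le_mul_of_nonneg_left d Eg_pos.le
  simp only [SP.av] at d' ⊢
  have hs := h.sum
  linear_combination d' + c + (Eg * 67108864 - 3294198) * hs

theorem up_ge (q c : ℕ) {κ : ℝ} (h0 : 0 ≤ κ) (hc : κ ≤ (c : ℝ) / 1099511627776) :
    κ * ((q : ℝ) - 33554432) ≤ (up q c : ℝ) := by
  have h1 := div_succ_ge ((q - 33554432) * c) 1099511627776 (by norm_num)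
  rw [← up_eq, Nat.cast_mul] at h1
  have h2 := cast_tsub_ge q 33554432
  have h3 := mul_le_mul_of_nonneg_left h2 h0
  have h4 := mul_le_mul_of_nonneg_right hc (Nat.cast_nonneg (α := ℝ) (q - 33554432))
  push_cast at h1 h3
  have h5 : (c : ℝ) / 1099511627776 * ((q - 33554432 : ℕ) : ℝ) = ((q - 33554432 : ℕ) : ℝ) * c / 1099511627776 := by ring
  linarith

theorem av_up (h : s.Ok y) (ψ : ℕ → ℕ) (c : ℕ) {κ t : ℝ} (h0 : 0 ≤ κ) (hc : κ ≤ (c : ℝ) / 1099511627776)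
    (ht : t ≤ s.av ψ / 16777216 - 2) : κ * 16777216 * t ≤ s.av (fun v => up (ψ v) c) := by
  have a := av_le h (fun v => κ * ((ψ v : ℝ) - 33554432)) (fun v => (up (ψ v) c : ℝ))
    ⟨up_ge _ _ h0 hc, up_ge _ _ h0 hc, up_ge _ _ h0 hc, up_ge _ _ h0 hc⟩
  have b := mul_le_mul_of_nonneg_left ht h0
  simp only [SP.av] at b ⊢
  have hs := h.sum
  linear_combination a + 16777216 * b + (κ * 33554432) * hs

theorem hCO : (2 * 30000 / (6 * 16777216)) / Eg ≤ ((13350884289 : ℕ) : ℝ) / 1099511627776 := by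
  rw [div_le_iff₀ Eg_pos]
  have := pi_gt_d20; unfold Eg; push_cast; linarith

theorem hCC : ((13 / 4) * 30000 / 16777216) / Eg ≤ ((130171121814 : ℕ) : ℝ) / 1099511627776 := by
  rw [div_le_iff₀ Eg_pos]
  have := pi_gt_d20; unfold Eg; push_cast; linarith

theorem bco (h : s.Ok y) : 2 * sin (y.1 + (y.2.2 - y.2.1)) / 6 ≤ Eg / 30000 * s.av co := by
  have a := j2 h 224
  rw [cP72] at a
  have hE := Eg_pos
  have b := av_up h _ 13350884289 (by positivity) hCO a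
  have c := mul_le_mul_of_nonneg_left b (show 0 ≤ Eg / 30000 by positivity)
  have e : Eg / 30000 * (2 * 30000 / (6 * 16777216) / Eg * 16777216 * sin (y.1 + (y.2.2 - y.2.1))) =
      2 * sin (y.1 + (y.2.2 - y.2.1)) / 6 := by field_simp
  rw [e] at c
  exact c

theorem btm (h : s.Ok y) :
    2 * sin (y.2.2 - y.2.1) / 6 ≤ Eg / 30000 * s.av (fun v => tm (i6 v)) := by
  have a := jφ h i6 (rng6 h) 96
  rw [cP32, form6 h] at a
  have hE := Eg_pos
  have b := av_up h _ 13350884289 (by positivity) hCO a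
  have c := mul_le_mul_of_nonneg_left b (show 0 ≤ Eg / 30000 by positivity)
  have e : Eg / 30000 * (2 * 30000 / (6 * 16777216) / Eg * 16777216 * sin (y.2.2 - y.2.1)) =
      2 * sin (y.2.2 - y.2.1) / 6 := by field_simp
  rw [e] at c
  exact c

/-- The profile of the two analytic pieces. -/
noncomputable def prof (t : ℝ) : ℝ := (13 / 4) * sin t + 6 * max (t - 5 * Eg) 0

theorem bfT (h : s.Ok y) (φ : ℕ → ℕ) (hr : ∃ lo, s.all fun v => lo ≤ φ v ∧ φ v ≤ lo + 1) :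
    prof (Eg * s.av φ) ≤ Eg / 30000 * s.av (fun v => fT (φ v)) := by
  have a := jφ h φ hr 96
  rw [cP32] at a
  have hE := Eg_pos
  have b := av_up h _ 130171121814 (by positivity) hCC a
  have c := mul_le_mul_of_nonneg_left b (show 0 ≤ Eg / 30000 by positivity)
  have e : Eg / 30000 * ((13 / 4) * 30000 / 16777216 / Eg * 16777216 * sin (Eg * s.av φ)) =
      (13 / 4) * sin (Eg * s.av φ) := by field_simp
  rw [e] at c
  have d : max (Eg * s.av φ - 5 * Eg) 0 ≤ Eg * s.av (fun v => φ v - 5) := by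
    apply max_le _ (mul_nonneg hE.le (av_nonneg h _))
    have := av_le h (fun v => (φ v : ℝ) - (5 : ℕ)) (fun v => ((φ v - 5 : ℕ) : ℝ))
      ⟨cast_tsub_ge _ _, cast_tsub_ge _ _, cast_tsub_ge _ _, cast_tsub_ge _ _⟩
    have h2 := mul_le_mul_of_nonneg_left this hE.le
    simp only [SP.av]
    push_cast at h2
    have hs := h.sum
    linear_combination h2 + (5 * Eg) * hs
  unfold prof
  have f : Eg / 30000 * s.av (fun v => fT (φ v)) = Eg / 30000 * s.av (fun v => up (Q1 (φ v + 96)) 130171121814)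
      + 6 * (Eg * s.av (fun v => φ v - 5)) := by
    simp only [SP.av, fT_eq]; push_cast; ring
  rw [f]; linarith

theorem ext_spec {x j : ℕ} (h : ext x j = true) (hj : 5 ≤ j) :
    (x : ℝ) + 1 ≤ (13 / 4) * 30000 / Eg * (2 - (Q1 (j + 32) : ℝ) / 16777216) + 180000 * ((j : ℝ) - 5) := by
  unfold ext at h
  rw [rec_imp, Bool.or_eq_true, Bool.not_eq_true', Nat.ble_eq] at h
  have hb : Nat.ble (nat_lit 5) j = true := Nat.ble_eq_true_of_le hj
  rw [hb] at h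
  have h1 : x * 1099511627776 + Q1 (j + 32) * 130171121814 + 1099511627776 ≤ 4367818055267259515 + 180000 * (j - 5) * 1099511627776 := by
    rcases h with h | h
    · exact absurd h (by simp)
    · exact h
  have h2 : (x : ℝ) * 1099511627776 + Q1 (j + 32) * 130171121814 + 1099511627776 ≤ 4367818055267259515 + 180000 * ((j : ℝ) - 5) * 1099511627776 := by
    have h3 : ((j - 5 : ℕ) : ℝ) = (j : ℝ) - 5 := by rw [Nat.cast_sub hj]; norm_num
    rw [← h3]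
    exact_mod_cast h1
  have h4 := mul_le_mul_of_nonneg_right hCC (Nat.cast_nonneg (α := ℝ) (Q1 (j + 32)))
  have h5 : (4367818055267259515 : ℝ) / 1099511627776 ≤ 2 * ((13 / 4) * 30000) / Eg := by
    rw [le_div_iff₀ Eg_pos]
    have := pi_lt_d20; unfold Eg; linarith
  have e : (13 / 4) * 30000 / Eg * (2 - (Q1 (j + 32) : ℝ) / 16777216) =
      2 * ((13 / 4) * 30000) / Eg - (13 / 4) * 30000 / 16777216 / Eg * (Q1 (j + 32) : ℝ) := by ring
  rw [e]
  push_cast at h4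
  linarith

theorem bext (h : s.Ok y) (φ x : ℕ → ℕ) (hr : ∃ lo, s.all fun v => lo ≤ φ v ∧ φ v ≤ lo + 1)
    (hx : s.all fun v => ext (x v) (φ v) = true) (hk : 5 * Eg ≤ Eg * s.av φ) :
    Eg / 30000 * s.av x < prof (Eg * s.av φ) := by
  have hE := Eg_pos
  have a := jφ h φ hr 32
  rw [cPH] at a
  have hk' : (5 : ℝ) ≤ s.av φ := by
    rw [mul_comm] at hk; exact le_of_mul_le_mul_left hk hE
  have hs := h.sum
  have one : ∀ (w : ℝ) (v : ℕ), 0 ≤ w → (w = 0 ∨ 5 ≤ φ v) → ext (x v) (φ v) = true →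
      w * ((x v : ℝ) + 1) ≤ w * ((13 / 4) * 30000 / Eg * (2 - (Q1 (φ v + 32) : ℝ) / 16777216)
        + 180000 * ((φ v : ℝ) - 5)) := by
    intro w v hw h1 h2
    rcases h1 with h1 | h1
    · rw [h1]; simp
    · exact mul_le_mul_of_nonneg_left (ext_spec h2 h1) hw
  have cases4 : (s.w0 = 0 ∨ 5 ≤ φ s.v0) ∧ (s.w1 = 0 ∨ 5 ≤ φ s.v1) ∧ (s.w2 = 0 ∨ 5 ≤ φ s.v2) ∧
      (s.w3 = 0 ∨ 5 ≤ φ s.v3) := by
    obtain ⟨lo, r0, r1, r2, r3⟩ := hr
    by_cases hlo : 5 ≤ lo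
    · exact ⟨Or.inr (by omega), Or.inr (by omega), Or.inr (by omega), Or.inr (by omega)⟩
    · have t : ∀ v, φ v ≤ lo + 1 → 0 ≤ (5 : ℝ) - φ v := by
        intro v hv
        have : φ v ≤ 5 := by omega
        have : (φ v : ℝ) ≤ 5 := by exact_mod_cast this
        linarith
      have u0 := mul_nonneg h.p0 (t _ r0.2)
      have u1 := mul_nonneg h.p1 (t _ r1.2)
      have u2 := mul_nonneg h.p2 (t _ r2.2)
      have u3 := mul_nonneg h.p3 (t _ r3.2)
      have tot : s.w0 * ((5 : ℝ) - φ s.v0) + s.w1 * ((5 : ℝ) - φ s.v1)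
          + s.w2 * ((5 : ℝ) - φ s.v2) + s.w3 * ((5 : ℝ) - φ s.v3) ≤ 0 := by
        unfold SP.av at hk'
        linear_combination hk' + (5 : ℝ) * hs
      have z : ∀ (w : ℝ) (v : ℕ), w * ((5 : ℝ) - φ v) = 0 → w = 0 ∨ 5 ≤ φ v := by
        intro w v hw
        rcases mul_eq_zero.mp hw with h1 | h1
        · exact Or.inl h1
        · right
          have : ((5 : ℕ) : ℝ) ≤ φ v := by push_cast; linarith
          exact_mod_cast this
      exact ⟨z _ _ (by linarith), z _ _ (by linarith), z _ _ (by linarith), z _ _ (by linarith)⟩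
  obtain ⟨c0, c1, c2, c3⟩ := cases4
  obtain ⟨x0, x1, x2, x3⟩ := hx
  have o0 := one _ _ h.p0 c0 x0
  have o1 := one _ _ h.p1 c1 x1
  have o2 := one _ _ h.p2 c2 x2
  have o3 := one _ _ h.p3 c3 x3
  have b := mul_le_mul_of_nonneg_left a (show 0 ≤ (13 / 4) * 30000 / Eg by positivity)
  have tot : s.av x + 1 ≤ (13 / 4) * 30000 / Eg * sin (Eg * s.av φ) + 180000 * (s.av φ - 5) := by
    simp only [SP.av] at b ⊢
    linear_combination o0 + o1 + o2 + o3 + b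
      + (2 * ((13 / 4) * 30000 / Eg) - 180000 * 5 - 1) * hs
  have c := mul_le_mul_of_nonneg_left tot (show 0 ≤ Eg / 30000 by positivity)
  have e : Eg / 30000 * ((13 / 4) * 30000 / Eg * sin (Eg * s.av φ) + 180000 * (s.av φ - 5)) =
      (13 / 4) * sin (Eg * s.av φ) + 6 * (Eg * s.av φ - 5 * Eg) := by field_simp; ring
  rw [e] at c
  unfold prof
  have := le_max_left (Eg * s.av φ - 5 * Eg) 0
  linarith

end Pool.Agent.MP_8fe08c_co.h31

end MrgPart0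

-- ======== part 1: formerly Pool.Agent.MP_8fe08c_co.h31.Game
section MrgPart1

set_option autoImplicit false

open Real Filter Topology Set

namespace Pool.Agent.MP_8fe08c_co.h31

/-- The tetrahedron of states. -/
def Dom (y : ℝ × ℝ × ℝ) : Prop := 0 ≤ y.1 ∧ y.1 ≤ y.2.1 ∧ y.2.1 ≤ y.2.2 ∧ y.2.2 ≤ π

/-- The three differential inequalities. -/
def Ineq (ρ lam V g1 g2 g3 : ℝ) (y : ℝ × ℝ × ℝ) : Prop :=
  2 * lam ≤ g1 ∧ 2 * (1 - lam) ≤ g3 ∧
  -(2 * ρ * (sin y.1 * sin (y.2.2 - y.2.1))) - cos (y.1 + (y.2.2 - y.2.1)) * sin y.2.1 * V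
    - sin (y.2.1 - y.1) * sin (y.2.2 - y.2.1) * g2
    + sin y.1 * sin (π - y.2.2) * (g1 + g2 + g3) ≤ 0

/-- Local smooth models. -/
noncomputable def Vf (α β1 β2 β3 c1 c3 : ℝ) (y : ℝ × ℝ × ℝ) : ℝ :=
  α + β1 * y.1 + β2 * y.2.1 + β3 * y.2.2 + c1 * sin y.1 + c3 * sin (y.2.2 - y.2.1)

/-- A piece is active at a state. -/
def Act {ι : Type} (lam : ι → ℝ) (U : ι → ℝ × ℝ × ℝ → ℝ) (i : ι) (y : ℝ × ℝ × ℝ) : Prop :=
  ∃ δ : ℝ, |δ| ≤ 2 * sin (y.1 + (y.2.2 - y.2.1)) ∧ ∀ j, lam i * δ + U i y ≤ lam j * δ + U j y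

/-- A certificate. -/
structure Good {ι κ : Type} (ρ : ℝ) (lam : ι → ℝ) (U : ι → ℝ × ℝ × ℝ → ℝ)
    (S : ι → κ → Set (ℝ × ℝ × ℝ)) : Prop where
  lam0 : ∀ i, 0 ≤ lam i
  lam1 : ∀ i, lam i ≤ 1
  cont : ∀ i, Continuous (U i)
  closed : ∀ i k, IsClosed (S i k)
  cover : ∀ i y, Dom y → ∃ k, y ∈ S i k
  loc : ∀ i k y, y ∈ S i k → Dom y → Act lam U i y →
    ∃ α β1 β2 β3 c1 c3 : ℝ, (∀ z ∈ S i k, U i z = Vf α β1 β2 β3 c1 c3 z) ∧
      Ineq ρ (lam i) (U i y) (β1 + c1 * cos y.1) (β2 - c3 * cos (y.2.2 - y.2.1))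
        (β3 + c3 * cos (y.2.2 - y.2.1)) y
  start : ∀ A, 0 ≤ A → A ≤ π → ∃ i, U i (A, A, π) ≤ 2 * ρ * sin A
  term : ∀ i y, Dom y → y.1 = 0 → (1 - lam i) * (2 * sin (y.2.2 - y.2.1)) ≤ U i y

/-- The potential is nonpositive. -/
def Pot {ι : Type} (ρ : ℝ) (lam : ι → ℝ) (U : ι → ℝ × ℝ × ℝ → ℝ) (da db r x : ℝ)
    (y : ℝ × ℝ × ℝ) : Prop :=
  ∃ i, lam i * da + (1 - lam i) * db + r * U i y ≤ ρ * x

theorem mono_path {ι κ : Type} [Fintype ι] [Finite κ] {ρ : ℝ} {lam : ι → ℝ}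
    {U : ι → ℝ × ℝ × ℝ → ℝ} {S : ι → κ → Set (ℝ × ℝ × ℝ)} (hG : Good ρ lam U S)
    {t0 t1 : ℝ} (ht : t0 ≤ t1) (da db r x y1 y2 y3 : ℝ → ℝ)
    (cda : ContinuousOn da (Icc t0 t1)) (cdb : ContinuousOn db (Icc t0 t1))
    (cr : ContinuousOn r (Icc t0 t1)) (cx : ContinuousOn x (Icc t0 t1))
    (c1 : ContinuousOn y1 (Icc t0 t1)) (c2 : ContinuousOn y2 (Icc t0 t1))
    (c3 : ContinuousOn y3 (Icc t0 t1))
    (hdom : ∀ t ∈ Icc t0 t1, Dom (y1 t, y2 t, y3 t))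
    (hr : ∀ t ∈ Icc t0 t1, 0 < r t)
    (hd : ∀ t ∈ Icc t0 t1, |da t - db t| ≤ r t * (2 * sin (y1 t + (y3 t - y2 t))))
    (hder : ∀ t ∈ Ico t0 t1, ∃ a' b' r' x' d1 d2 d3 : ℝ,
      (∀ z ∈ Icc t t1, da z ≤ da t + a' * (z - t)) ∧ (∀ z ∈ Icc t t1, db z ≤ db t + b' * (z - t)) ∧
      HasDerivAt r r' t ∧ HasDerivAt x x' t ∧ HasDerivAt y1 d1 t ∧ HasDerivAt y2 d2 t ∧
      HasDerivAt y3 d3 t ∧
      ∀ l V g1 g2 g3 : ℝ, 0 ≤ l → l ≤ 1 → Ineq ρ l V g1 g2 g3 (y1 t, y2 t, y3 t) →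
        l * a' + (1 - l) * b' + r' * V + r t * (g1 * d1 + g2 * d2 + g3 * d3) - ρ * x' ≤ 0)
    (h0 : Pot ρ lam U (da t0) (db t0) (r t0) (x t0) (y1 t0, y2 t0, y3 t0)) :
    Pot ρ lam U (da t1) (db t1) (r t1) (x t1) (y1 t1, y2 t1, y3 t1) := by
  classical
  obtain ⟨i0, hi0⟩ := h0
  have hne : (Finset.univ : Finset ι).Nonempty := ⟨i0, Finset.mem_univ _⟩
  set f : ι → ℝ → ℝ := fun i t =>
    lam i * da t + (1 - lam i) * db t + r t * U i (y1 t, y2 t, y3 t) - ρ * x t with hf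
  set W : ℝ → ℝ := fun t => Finset.univ.inf' hne (fun i => f i t) with hW
  have cy : ContinuousOn (fun t => (y1 t, y2 t, y3 t)) (Icc t0 t1) := c1.prodMk (c2.prodMk c3)
  have cf : ∀ i, ContinuousOn (f i) (Icc t0 t1) := by
    intro i
    have hU : ContinuousOn (fun t => U i (y1 t, y2 t, y3 t)) (Icc t0 t1) :=
      (hG.cont i).comp_continuousOn cy
    exact (((continuousOn_const.mul cda).add (continuousOn_const.mul cdb)).add (cr.mul hU)).sub
      (continuousOn_const.mul cx)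
  have cW : ContinuousOn W (Icc t0 t1) := by
    have := ContinuousOn.finset_inf'_apply hne (f := f) (fun i _ => cf i)
    exact this
  have key : ∀ ⦃t⦄, t ∈ Icc t0 t1 → W t ≤ (fun _ => W t0) t := by
    apply image_le_of_liminf_slope_right_le_deriv_boundary cW (B := fun _ => W t0)
      (B' := fun _ => 0) le_rfl continuousOn_const
      (fun x _ => (hasDerivAt_const x (W t0)).hasDerivWithinAt)
    intro t htm ε hε
    have htI : t ∈ Icc t0 t1 := ⟨htm.1, htm.2.le⟩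
    obtain ⟨i, -, hi⟩ := Finset.exists_mem_eq_inf' hne (fun i => f i t)
    have hact : Act lam U i (y1 t, y2 t, y3 t) := by
      have hrt := hr t htI
      refine ⟨(da t - db t) / r t, ?_, ?_⟩
      · rw [abs_div, abs_of_pos hrt, div_le_iff₀ hrt]
        have := hd t htI
        simp only at this ⊢
        linarith
      · intro j
        have h1 : f i t ≤ f j t := by
          have : W t ≤ f j t := Finset.inf'_le _ (Finset.mem_univ j)
          rw [← hi]; exact this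
        simp only [hf] at h1
        have h2 : r t * (lam i * ((da t - db t) / r t) + U i (y1 t, y2 t, y3 t)) ≤
            r t * (lam j * ((da t - db t) / r t) + U j (y1 t, y2 t, y3 t)) := by
          have e : ∀ l : ℝ, r t * (l * ((da t - db t) / r t)) = l * (da t - db t) := by
            intro l; field_simp
          rw [mul_add, mul_add, e, e]; linarith
        exact le_of_mul_le_mul_left h2 hrt
    have hev : ∀ᶠ z in 𝓝[>] t, z ∈ Ioc t t1 := Ioc_mem_nhdsGT htm.2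
    have hfr : ∃ k, ∃ᶠ z in 𝓝[>] t, (y1 z, y2 z, y3 z) ∈ S i k := by
      by_contra hcon
      push Not at hcon
      have h1 : ∀ᶠ z in 𝓝[>] t, ∀ k, (y1 z, y2 z, y3 z) ∉ S i k := by
        rw [eventually_all]
        intro k
        exact hcon k
      obtain ⟨z, hz1, hz2⟩ := (h1.and hev).exists
      obtain ⟨k, hk⟩ := hG.cover i _ (hdom z ⟨htm.1.trans hz2.1.le, hz2.2⟩)
      exact hz1 k hk
    obtain ⟨k, hk⟩ := hfr
    obtain ⟨a', b', r', x', d1, d2, d3, ha, hb, hr', hx', h1, h2, h3, hin⟩ := hder t htm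
    have hmem : (y1 t, y2 t, y3 t) ∈ S i k := by
      apply (hG.closed i k).mem_of_frequently_of_tendsto hk
      exact ((h1.continuousAt.prodMk (h2.continuousAt.prodMk h3.continuousAt)).tendsto).mono_left
        nhdsWithin_le_nhds
    obtain ⟨α, β1, β2, β3, e1, e3, hV, hI⟩ := hG.loc i k _ hmem (hdom t htI) hact
    have hin' := hin _ _ _ _ _ (hG.lam0 i) (hG.lam1 i) hI
    set F : ℝ → ℝ := fun z => lam i * (da t + a' * (z - t)) + (1 - lam i) * (db t + b' * (z - t))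
      + r z * Vf α β1 β2 β3 e1 e3 (y1 z, y2 z, y3 z) - ρ * x z with hF
    have hVd : HasDerivAt (fun z => Vf α β1 β2 β3 e1 e3 (y1 z, y2 z, y3 z))
        ((β1 + e1 * cos (y1 t)) * d1 + (β2 - e3 * cos (y3 t - y2 t)) * d2
          + (β3 + e3 * cos (y3 t - y2 t)) * d3) t := by
      have := (((((hasDerivAt_const t α).add (h1.const_mul β1)).add (h2.const_mul β2)).add
        (h3.const_mul β3)).add (h1.sin.const_mul e1)).add ((h3.sub h2).sin.const_mul e3)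
      refine (this.congr_deriv ?_)
      simp only [Pi.sub_apply]
      ring
    have hlin : ∀ c d : ℝ, HasDerivAt (fun z => c + d * (z - t)) d t := by
      intro c d
      have := (((hasDerivAt_id t).sub_const t).const_mul d).const_add c
      simpa using this
    have hFd : HasDerivAt F (lam i * a' + (1 - lam i) * b' +
        (r' * Vf α β1 β2 β3 e1 e3 (y1 t, y2 t, y3 t) + r t *
        ((β1 + e1 * cos (y1 t)) * d1 + (β2 - e3 * cos (y3 t - y2 t)) * d2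
          + (β3 + e3 * cos (y3 t - y2 t)) * d3)) - ρ * x') t :=
      ((((hlin (da t) a').const_mul (lam i)).add ((hlin (db t) b').const_mul (1 - lam i))).add
        (hr'.mul hVd)).sub (hx'.const_mul ρ)
    have hFt : F t = W t := by
      rw [hW]; simp only; rw [hi]; simp only [hF, hf]; rw [hV _ hmem]; ring
    have hsl := (hasDerivAt_iff_tendsto_slope.mp hFd).mono_left
      (nhdsWithin_mono t (fun z (hz : z ∈ Ioi t) => (ne_of_gt hz : z ≠ t)))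
    have hlt : ∀ᶠ z in 𝓝[>] t, slope F t z < ε := by
      apply hsl.eventually_lt_const
      rw [← hV _ hmem]
      simp only at hin'
      linarith
    refine (hk.and_eventually (hlt.and hev)).mono ?_
    rintro z ⟨hz1, hz2, hz3⟩
    refine lt_of_le_of_lt ?_ hz2
    have hzt : 0 < z - t := by linarith [hz3.1]
    rw [slope_def_field, slope_def_field, hFt]
    apply div_le_div_of_nonneg_right _ hzt.le
    have h4 : W z ≤ f i z := Finset.inf'_le _ (Finset.mem_univ i)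
    have h5 : f i z ≤ F z := by
      simp only [hf, hF]
      rw [hV _ hz1]
      have := ha z ⟨hz3.1.le, hz3.2⟩
      have := hb z ⟨hz3.1.le, hz3.2⟩
      have := hG.lam0 i
      have := hG.lam1 i
      nlinarith
    linarith
  have h1 := key (t := t1) ⟨ht, le_rfl⟩
  obtain ⟨i, -, hi⟩ := Finset.exists_mem_eq_inf' hne (fun i => f i t1)
  have h2 : W t0 ≤ f i0 t0 := Finset.inf'_le _ (Finset.mem_univ i0)
  refine ⟨i, ?_⟩
  have h3 : W t1 = f i t1 := hi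
  simp only [hf] at h2 h3 h1
  linarith

end Pool.Agent.MP_8fe08c_co.h31

end MrgPart1

-- marker of a merged file
example : 731051 + 872694 = 731051 + 872694 := rfl
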