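import Mathlib.Topology.Sheaves.Presheaf
import Mathlib.Combinatorics.SimpleGraph.Basic
import Pool.Agent.MP_8fe08c_co.h31.Game
import Pool.Agent.MP_8fe08c_co.h31.Del

-- ======== part 0: formerly Pool.Agent.MP_8fe08c_co.h31.Sound
section MrgPart0

set_option autoImplicit false

open Real

namespace Pool.Agent.MP_8fe08c_co.h31

attribute [local irreducible] XX Q1 Q2 cA cB cC KN HH AM AP BP BM EE co fT tm

variable {s : SP} {y : ℝ × ℝ × ℝ}

theorem nadd (a b : ℕ) : Nat.add a b = a + b := rfl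
theorem nsub (a b : ℕ) : Nat.sub a b = a - b := rfl
theorem nmul (a b : ℕ) : Nat.mul a b = a * b := rfl

theorem d4_sound (h : s.Ok y) (t : ℕ → ℕ → ℕ) (d : ℕ → ℕ → Bool) (l : ℕ)
    (hd : ∀ v, d l v = Nat.ble (t l v + 1) (XX l v)) (hc : d4 d l s.v0 s.v1 s.v2 s.v3 = true)
    (ht : s.av (XX l) ≤ s.av (t l)) : False := by
  unfold d4 at hc
  simp only [rec_and, Bool.and_eq_true, hd, Nat.ble_eq] at hc
  obtain ⟨a, b, c, e⟩ := hc
  have := av_le h (fun v => (t l v : ℝ) + 1) (fun v => (XX l v : ℝ))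
    ⟨by exact_mod_cast a, by exact_mod_cast b, by exact_mod_cast c, by exact_mod_cast e⟩
  have hs := h.sum
  unfold SP.av at ht
  linarith

theorem cnd2_sound (h : s.Ok y) (t : ℕ → ℕ → ℕ) {l f0 f1 f2 f3 z ta : ℕ}
    (hc : cnd2 t l s.v0 s.v1 s.v2 s.v3 f0 f1 f2 f3 z ta = true) (ht : s.av (XX l) ≤ s.av (t l)) :
    s.w0 * f0 + s.w1 * f1 + s.w2 * f2 + s.w3 * f3 ≤ z := by
  unfold cnd2 at hc
  simp only [rec_and, Bool.and_eq_true, Nat.ble_eq, nadd, nmul] at hc
  obtain ⟨a, b, c, e⟩ := hc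
  have a' : (f0 : ℝ) + ta * t l s.v0 ≤ z + ta * XX l s.v0 := by exact_mod_cast a
  have b' : (f1 : ℝ) + ta * t l s.v1 ≤ z + ta * XX l s.v1 := by exact_mod_cast b
  have c' : (f2 : ℝ) + ta * t l s.v2 ≤ z + ta * XX l s.v2 := by exact_mod_cast c
  have e' : (f3 : ℝ) + ta * t l s.v3 ≤ z + ta * XX l s.v3 := by exact_mod_cast e
  have a2 := mul_le_mul_of_nonneg_left a' h.p0
  have b2 := mul_le_mul_of_nonneg_left b' h.p1
  have c2 := mul_le_mul_of_nonneg_left c' h.p2
  have e2 := mul_le_mul_of_nonneg_left e' h.p3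
  have t2 := mul_le_mul_of_nonneg_left ht (Nat.cast_nonneg (α := ℝ) ta)
  have hs := h.sum
  unfold SP.av at t2
  linear_combination a2 + b2 + c2 + e2 + t2 + (z : ℝ) * hs

theorem fin4_sound (h : s.Ok y) {l f0 f1 f2 f3 z : ℕ}
    (hc : fin4 l s.v0 s.v1 s.v2 s.v3 f0 f1 f2 f3 z = true) (t1 : s.av (XX l) ≤ s.av (tL l))
    (t2 : s.av (XX l) ≤ s.av (tR l)) (t3 : s.av (XX l) ≤ s.av (tM l)) :
    s.w0 * f0 + s.w1 * f1 + s.w2 * f2 + s.w3 * f3 ≤ z := by
  unfold fin4 cn3 at hc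
  simp only [rec_and, rec_or, Bool.and_eq_true, Bool.or_eq_true, Nat.ble_eq] at hc
  rcases hc with ⟨a, b, c, e⟩ | hc | hc | hc
  · have a' : (f0 : ℝ) ≤ z := by exact_mod_cast a
    have b' : (f1 : ℝ) ≤ z := by exact_mod_cast b
    have c' : (f2 : ℝ) ≤ z := by exact_mod_cast c
    have e' : (f3 : ℝ) ≤ z := by exact_mod_cast e
    have a2 := mul_le_mul_of_nonneg_left a' h.p0
    have b2 := mul_le_mul_of_nonneg_left b' h.p1
    have c2 := mul_le_mul_of_nonneg_left c' h.p2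
    have e2 := mul_le_mul_of_nonneg_left e' h.p3
    have hs := h.sum
    linear_combination a2 + b2 + c2 + e2 + (z : ℝ) * hs
  · exact cnd2_sound h tL hc t1
  · exact cnd2_sound h tR hc t2
  · exact cnd2_sound h tM hc t3

theorem k4_sound (h : s.Ok y) {l m2 r m4 : ℕ} {c2 c4 : ℕ → ℕ}
    (hc : k4 l s.v0 s.v1 s.v2 s.v3 c2 m2 r c4 m4 = true) (t1 : s.av (XX l) ≤ s.av (tL l))
    (t2 : s.av (XX l) ≤ s.av (tR l)) (t3 : s.av (XX l) ≤ s.av (tM l)) :
    s.av (HH l) + s.av c2 * m2 + s.av c4 * m4 + r ≤ 35184372088832 + 67108864 * ((m2 : ℝ) + m4) := by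
  unfold k4 at hc
  have := fin4_sound h hc t1 t2 t3
  simp only [nadd, nmul] at this
  push_cast at this
  have hs := h.sum
  unfold SP.av
  linear_combination this - (r : ℝ) * hs

theorem k2_sound (h : s.Ok y) {l m2 r nn : ℕ} {c2 : ℕ → ℕ}
    (hc : k2 l s.v0 s.v1 s.v2 s.v3 r c2 m2 nn = true) (t1 : s.av (XX l) ≤ s.av (tL l))
    (t2 : s.av (XX l) ≤ s.av (tR l)) (t3 : s.av (XX l) ≤ s.av (tM l)) :
    s.av (HH l) + (s.av c2 - 67108864) * m2 + r + nn * m2 +
      33554432 * (sin y.1 * sin (π - y.2.2)) * ((XX l s.v3 : ℝ) - XX l s.v0) ≤ 35184372088832 := by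
  unfold k2 at hc
  cases hb : Nat.ble (XX l s.v0) (XX l s.v3)
  · rw [hb] at hc
    have h1 := k4_sound h hc t1 t2 t3
    have h2 : XX l s.v3 ≤ XX l s.v0 := by
      by_contra hcon
      have h3 : XX l s.v0 ≤ XX l s.v3 := by omega
      rw [Nat.ble_eq_true_of_le h3] at hb
      exact absurd hb (by simp)
    simp only [nadd, nmul, nsub] at h1
    rw [Nat.cast_sub h2] at h1
    push_cast at h1
    have h4 : (0 : ℝ) ≤ (XX l s.v0 : ℝ) - XX l s.v3 := sub_nonneg.mpr (by exact_mod_cast h2)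
    have h5 := mul_le_mul_of_nonneg_right (bBM h) h4
    linarith
  · rw [hb] at hc
    have h1 := k4_sound h hc t1 t2 t3
    have h2 : XX l s.v0 ≤ XX l s.v3 := Nat.le_of_ble_eq_true hb
    simp only [nadd, nmul, nsub] at h1
    rw [Nat.cast_sub h2] at h1
    push_cast at h1
    have h4 : (0 : ℝ) ≤ (XX l s.v3 : ℝ) - XX l s.v0 := sub_nonneg.mpr (by exact_mod_cast h2)
    have h5 := mul_le_mul_of_nonneg_right (bBP h) h4
    linarith

theorem k1_sound (h : s.Ok y) {l lo2 hi2 r N2 P2 : ℕ} {γ : ℝ}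
    (hc : k1 l s.v0 s.v1 s.v2 s.v3 lo2 hi2 r N2 P2 = true) (t1 : s.av (XX l) ≤ s.av (tL l))
    (t2 : s.av (XX l) ≤ s.av (tR l)) (t3 : s.av (XX l) ≤ s.av (tM l))
    (g1 : γ ≤ N2) (g2 : -γ ≤ P2) :
    s.av (HH l) + (γ - 33554432 * (sin (y.2.1 - y.1) * sin (y.2.2 - y.2.1))) * ((XX l hi2 : ℝ) - XX l lo2)
      + r + 33554432 * (sin y.1 * sin (π - y.2.2)) * ((XX l s.v3 : ℝ) - XX l s.v0) ≤ 35184372088832 := by
  unfold k1 at hc
  cases hb : Nat.ble (XX l lo2) (XX l hi2)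
  · rw [hb] at hc
    have h1 := k2_sound h hc t1 t2 t3
    have h2 : XX l hi2 ≤ XX l lo2 := by
      by_contra hcon
      have h3 : XX l lo2 ≤ XX l hi2 := by omega
      rw [Nat.ble_eq_true_of_le h3] at hb
      exact absurd hb (by simp)
    simp only [nsub] at h1
    rw [Nat.cast_sub h2] at h1
    have h4 : (0 : ℝ) ≤ (XX l lo2 : ℝ) - XX l hi2 := sub_nonneg.mpr (by exact_mod_cast h2)
    have h5 := mul_le_mul_of_nonneg_right (bAP h) h4
    have h6 := mul_le_mul_of_nonneg_right g2 h4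
    linarith
  · rw [hb] at hc
    have h1 := k2_sound h hc t1 t2 t3
    have h2 : XX l lo2 ≤ XX l hi2 := Nat.le_of_ble_eq_true hb
    simp only [nsub] at h1
    rw [Nat.cast_sub h2] at h1
    have h4 : (0 : ℝ) ≤ (XX l hi2 : ℝ) - XX l lo2 := sub_nonneg.mpr (by exact_mod_cast h2)
    have h5 := mul_le_mul_of_nonneg_right (bAM h) h4
    have h6 := mul_le_mul_of_nonneg_right g1 h4
    linarith

theorem HH_ge (l v : ℕ) :
    (EE v : ℝ) + ((KN v * XX l v : ℕ) : ℝ) + 35184372088832 - (3294198 * XX l v + 6986032742400) ≤ (HH l v : ℝ) := by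
  have := cast_tsub_ge (EE v + KN v * XX l v + 35184372088832) (3294198 * XX l v + 6986032742400)
  rw [← HH_eq] at this
  push_cast at this ⊢
  exact this

theorem chk_sound (h : s.Ok y) {l lo1 hi1 lo2 hi2 lo3 hi3 N1 N3 N2 P2 : ℕ} (hl : l ≤ 6)
    (hc : chk l s.v0 s.v1 s.v2 s.v3 lo1 hi1 lo2 hi2 lo3 hi3 N1 N3 N2 P2 = true)
    (t1 : s.av (XX l) ≤ s.av (tL l)) (t2 : s.av (XX l) ≤ s.av (tR l))
    (t3 : s.av (XX l) ≤ s.av (tM l)) {γ1 γ2 γ3 : ℝ}
    (hcov : s.av KN * s.av (XX l) = s.av (fun v => KN v * XX l v)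
      + γ1 * ((XX l hi1 : ℝ) - XX l lo1) + γ2 * ((XX l hi2 : ℝ) - XX l lo2)
      + γ3 * ((XX l hi3 : ℝ) - XX l lo3))
    (b1 : γ1 ≤ N1) (b3 : γ3 ≤ N3) (b2 : γ2 ≤ N2) (b2' : -γ2 ≤ P2)
    (hsum : ((XX l hi1 : ℝ) - XX l lo1) + ((XX l hi2 : ℝ) - XX l lo2) + ((XX l hi3 : ℝ) - XX l lo3)
      = (XX l s.v3 : ℝ) - XX l s.v0) :
    Ineq (347 / 200) ((l : ℝ) / 6) (Eg / 30000 * s.av (XX l)) (((XX l hi1 : ℝ) - XX l lo1) / 30000)
      (((XX l hi2 : ℝ) - XX l lo2) / 30000) (((XX l hi3 : ℝ) - XX l lo3) / 30000) y := by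
  unfold chk at hc
  simp only [rec_or, Bool.or_eq_true] at hc
  rcases hc with hc | hc | hc | hc
  · exact (d4_sound h tL dL l (fun _ => rfl) hc t1).elim
  · exact (d4_sound h tR dR l (fun _ => rfl) hc t2).elim
  · exact (d4_sound h tM dM l (fun _ => rfl) hc t3).elim
  unfold alive at hc
  simp only [rec_and, Bool.and_eq_true, Nat.ble_eq] at hc
  obtain ⟨a1, a3, hc⟩ := hc
  have a1' : XX l lo1 + l * 10000 ≤ XX l hi1 := a1
  have a3' : XX l lo3 + (6 - l) * 10000 ≤ XX l hi3 := a3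
  have c1 : (XX l lo1 : ℝ) + l * 10000 ≤ XX l hi1 := by exact_mod_cast a1'
  have c3 : (XX l lo3 : ℝ) + (6 - l) * 10000 ≤ XX l hi3 := by
    have : ((6 - l : ℕ) : ℝ) = 6 - l := by rw [Nat.cast_sub hl]; norm_num
    rw [← this]; exact_mod_cast a3'
  have hl' : (l : ℝ) ≤ 6 := by exact_mod_cast hl
  have hl0 : (0 : ℝ) ≤ l := Nat.cast_nonneg l
  have k := k1_sound h hc t1 t2 t3 b2 b2'
  simp only [nadd, nmul, nsub] at k
  rw [Nat.cast_add, Nat.cast_mul, Nat.cast_mul,
    Nat.cast_sub (show XX l lo1 ≤ XX l hi1 from le_trans (Nat.le_add_right _ _) a1'),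
    Nat.cast_sub (show XX l lo3 ≤ XX l hi3 from le_trans (Nat.le_add_right _ _) a3')] at k
  refine ⟨by linarith, by linarith, ?_⟩
  have e1 := bEE h
  have e2 := mul_le_mul_of_nonneg_right (bKN h) (av_nonneg h (XX l))
  have e3 := av_le h (fun v => (EE v : ℝ) + ((KN v * XX l v : ℕ) : ℝ) + 35184372088832
    - (3294198 * XX l v + 6986032742400)) (fun v => (HH l v : ℝ)) ⟨HH_ge l s.v0, HH_ge l s.v1, HH_ge l s.v2, HH_ge l s.v3⟩
  have e4 : s.av EE + s.av (fun v => KN v * XX l v) + 35184372088832 - (3294198 * s.av (XX l) + 6986032742400)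
      ≤ s.av (HH l) := by
    have hs := h.sum
    unfold SP.av
    linear_combination e3 - (35184372088832 - 6986032742400 : ℝ) * hs
  have e5 := mul_le_mul_of_nonneg_right b1 (show (0 : ℝ) ≤ (XX l hi1 : ℝ) - XX l lo1 by linarith)
  have e6 := mul_le_mul_of_nonneg_right b3 (show (0 : ℝ) ≤ (XX l hi3 : ℝ) - XX l lo3 by linarith)
  rw [← hsum] at k
  linear_combination (1 / (33554432 * 30000)) * (e1 + e2 + e4 + e5 + e6 + k + hcov)

theorem mx_l (a b : ℕ) : a ≤ mx a b := Nat.le_add_right _ _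
theorem mx_r (a b : ℕ) : b ≤ mx a b := by show b ≤ a + (b - a); omega
theorem mn_l (a b : ℕ) : mn a b ≤ a := Nat.sub_le _ _
theorem mn_r (a b : ℕ) : mn a b ≤ b := by show a - (a - b) ≤ b; omega

theorem qu_ge {a b x z : ℕ} (h1 : x ≤ a) (h2 : b ≤ z) : (x : ℝ) - z ≤ 4 * (qu a b : ℝ) := by
  have : x ≤ 4 * qu a b + z := by
    show x ≤ 4 * ((a - b) / 4 + 1) + z
    omega
  have h3 : (x : ℝ) ≤ 4 * (qu a b : ℝ) + z := by exact_mod_cast this
  linarith

theorem cov13 {p q r t k0 k1 k2 k3 N : ℝ} (hp : 0 ≤ p) (hq : 0 ≤ q) (hr : 0 ≤ r) (ht : 0 ≤ t)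
    (hs : p + q + r + t = 1) (hN : 0 ≤ N) (h1 : k0 - k1 ≤ 4 * N) (h2 : k0 - k2 ≤ 4 * N)
    (h3 : k0 - k3 ≤ 4 * N) : p * q * (k0 - k1) + p * r * (k0 - k2) + p * t * (k0 - k3) ≤ N := by
  have a := mul_le_mul_of_nonneg_left h1 (mul_nonneg hp hq)
  have b := mul_le_mul_of_nonneg_left h2 (mul_nonneg hp hr)
  have c := mul_le_mul_of_nonneg_left h3 (mul_nonneg hp ht)
  have d : 4 * (p * (q + r + t)) ≤ 1 := by nlinarith [sq_nonneg (p - (q + r + t))]
  have e := mul_le_mul_of_nonneg_right d hN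
  linarith

theorem cov22 {p q r t k0 k1 k2 k3 N : ℝ} (hp : 0 ≤ p) (hq : 0 ≤ q) (hr : 0 ≤ r) (ht : 0 ≤ t)
    (hs : p + q + r + t = 1) (hN : 0 ≤ N) (h1 : k0 - k2 ≤ 4 * N) (h2 : k0 - k3 ≤ 4 * N)
    (h3 : k1 - k2 ≤ 4 * N) (h4 : k1 - k3 ≤ 4 * N) :
    p * r * (k0 - k2) + p * t * (k0 - k3) + q * r * (k1 - k2) + q * t * (k1 - k3) ≤ N := by
  have a := mul_le_mul_of_nonneg_left h1 (mul_nonneg hp hr)
  have b := mul_le_mul_of_nonneg_left h2 (mul_nonneg hp ht)
  have c := mul_le_mul_of_nonneg_left h3 (mul_nonneg hq hr)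
  have c' := mul_le_mul_of_nonneg_left h4 (mul_nonneg hq ht)
  have d : 4 * ((p + q) * (r + t)) ≤ 1 := by nlinarith [sq_nonneg (p + q - (r + t))]
  have e := mul_le_mul_of_nonneg_right d hN
  linarith

theorem cov_main (h : s.Ok y) (x : ℕ → ℕ) : ∃ c1 c2 c3 : ℝ,
    s.av KN * s.av x = s.av (fun v => KN v * x v) + c1 * ((x s.v1 : ℝ) - x s.v0)
      + c2 * ((x s.v2 : ℝ) - x s.v1) + c3 * ((x s.v3 : ℝ) - x s.v2) ∧
    c1 ≤ n1 s.v0 s.v1 s.v2 s.v3 ∧ c2 ≤ n2 s.v0 s.v1 s.v2 s.v3 ∧ c3 ≤ n3 s.v0 s.v1 s.v2 s.v3 ∧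
    -c1 ≤ p1 s.v0 s.v1 s.v2 s.v3 ∧ -c2 ≤ p2 s.v0 s.v1 s.v2 s.v3 ∧
    -c3 ≤ p3 s.v0 s.v1 s.v2 s.v3 := by
  have hs := h.sum
  have p0 := h.p0
  have p1 := h.p1
  have p2 := h.p2
  have p3 := h.p3
  set k0 : ℝ := (KN s.v0 : ℝ) with e0
  set k1 : ℝ := (KN s.v1 : ℝ) with e1
  set k2 : ℝ := (KN s.v2 : ℝ) with e2
  set k3 : ℝ := (KN s.v3 : ℝ) with e3
  have A1 : ∀ a b c d : ℕ, (KN a : ℝ) - KN b ≤ 4 * (n1 a b c d : ℝ) ∧
      (KN a : ℝ) - KN c ≤ 4 * (n1 a b c d : ℝ) ∧ (KN a : ℝ) - KN d ≤ 4 * (n1 a b c d : ℝ) :=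
    fun a b c d => ⟨qu_ge le_rfl (mn_l _ _), qu_ge le_rfl ((mn_r _ _).trans (mn_l _ _)),
      qu_ge le_rfl ((mn_r _ _).trans (mn_r _ _))⟩
  have A2 : ∀ a b c d : ℕ, (KN a : ℝ) - KN c ≤ 4 * (n2 a b c d : ℝ) ∧
      (KN a : ℝ) - KN d ≤ 4 * (n2 a b c d : ℝ) ∧ (KN b : ℝ) - KN c ≤ 4 * (n2 a b c d : ℝ) ∧
      (KN b : ℝ) - KN d ≤ 4 * (n2 a b c d : ℝ) :=
    fun a b c d => ⟨qu_ge (mx_l _ _) (mn_l _ _), qu_ge (mx_l _ _) (mn_r _ _),
      qu_ge (mx_r _ _) (mn_l _ _), qu_ge (mx_r _ _) (mn_r _ _)⟩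
  have A3 : ∀ a b c d : ℕ, (KN a : ℝ) - KN d ≤ 4 * (n3 a b c d : ℝ) ∧
      (KN b : ℝ) - KN d ≤ 4 * (n3 a b c d : ℝ) ∧ (KN c : ℝ) - KN d ≤ 4 * (n3 a b c d : ℝ) :=
    fun a b c d => ⟨qu_ge (mx_l _ _) le_rfl, qu_ge ((mx_l _ _).trans (mx_r _ _)) le_rfl,
      qu_ge ((mx_r _ _).trans (mx_r _ _)) le_rfl⟩
  refine ⟨s.w0 * s.w1 * (k0 - k1) + s.w0 * s.w2 * (k0 - k2) + s.w0 * s.w3 * (k0 - k3),
    s.w0 * s.w2 * (k0 - k2) + s.w0 * s.w3 * (k0 - k3) + s.w1 * s.w2 * (k1 - k2)
      + s.w1 * s.w3 * (k1 - k3),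
    s.w0 * s.w3 * (k0 - k3) + s.w1 * s.w3 * (k1 - k3) + s.w2 * s.w3 * (k2 - k3),
    ?_, ?_, ?_, ?_, ?_, ?_, ?_⟩
  · unfold SP.av
    push_cast
    rw [← e0, ← e1, ← e2, ← e3]
    linear_combination (s.w0 * (k0 * x s.v0) + s.w1 * (k1 * x s.v1) + s.w2 * (k2 * x s.v2)
      + s.w3 * (k3 * x s.v3)) * hs
  · obtain ⟨a, b, c⟩ := A1 s.v0 s.v1 s.v2 s.v3
    exact cov13 p0 p1 p2 p3 hs (Nat.cast_nonneg _) a b c
  · obtain ⟨a, b, c, d⟩ := A2 s.v0 s.v1 s.v2 s.v3
    exact cov22 p0 p1 p2 p3 hs (Nat.cast_nonneg _) a b c d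
  · obtain ⟨a, b, c⟩ := A3 s.v0 s.v1 s.v2 s.v3
    have := cov13 (k0 := -k3) (k1 := -k0) (k2 := -k1) (k3 := -k2) p3 p0 p1 p2 (by linarith)
      (Nat.cast_nonneg (n3 s.v0 s.v1 s.v2 s.v3)) (by linarith) (by linarith) (by linarith)
    linarith
  · obtain ⟨a, b, c⟩ := A3 s.v3 s.v2 s.v1 s.v0
    have := cov13 (k0 := -k0) (k1 := -k1) (k2 := -k2) (k3 := -k3) p0 p1 p2 p3 hs
      (Nat.cast_nonneg (n3 s.v3 s.v2 s.v1 s.v0)) (by linarith) (by linarith) (by linarith)
    show _ ≤ (n3 s.v3 s.v2 s.v1 s.v0 : ℝ)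
    linarith
  · obtain ⟨a, b, c, d⟩ := A2 s.v3 s.v2 s.v1 s.v0
    have := cov22 (k0 := -k0) (k1 := -k1) (k2 := -k2) (k3 := -k3) p0 p1 p2 p3 hs
      (Nat.cast_nonneg (n2 s.v3 s.v2 s.v1 s.v0)) (by linarith) (by linarith) (by linarith)
      (by linarith)
    show _ ≤ (n2 s.v3 s.v2 s.v1 s.v0 : ℝ)
    linarith
  · obtain ⟨a, b, c⟩ := A1 s.v3 s.v2 s.v1 s.v0
    have := cov13 (k0 := k3) (k1 := k0) (k2 := k1) (k3 := k2) p3 p0 p1 p2 (by linarith)
      (Nat.cast_nonneg (n1 s.v3 s.v2 s.v1 s.v0)) (by linarith) (by linarith) (by linarith)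
    show _ ≤ (n1 s.v3 s.v2 s.v1 s.v0 : ℝ)
    linarith

end Pool.Agent.MP_8fe08c_co.h31

end MrgPart0

-- ======== part 1: formerly Pool.Agent.MP_8fe08c_co.h31.Interp
section MrgPart1

set_option autoImplicit false

open Finset

namespace Pool.Agent.MP_8fe08c_co.h31

/-- Hat function of the Kuhn triangulation. -/
noncomputable def hat (x y z : ℝ) : ℝ :=
  max 0 (1 + min (min 0 x) (min y z) - max (max 0 x) (max y z))

theorem hat_swap12 (x y z : ℝ) : hat x y z = hat y x z := by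
  unfold hat
  rw [min_min_min_comm, max_max_max_comm]

theorem hat_swap23 (x y z : ℝ) : hat x y z = hat x z y := by
  unfold hat
  rw [min_comm y z, max_comm y z]

theorem hat_zero1 {x : ℝ} (y z : ℝ) (h : 1 ≤ |x|) : hat x y z = 0 := by
  unfold hat
  apply max_eq_left
  have h1 : min (min 0 x) (min y z) ≤ 0 := (min_le_left _ _).trans (min_le_left _ _)
  have h2 : min (min 0 x) (min y z) ≤ x := (min_le_left _ _).trans (min_le_right _ _)
  have h3 : 0 ≤ max (max 0 x) (max y z) := (le_max_left _ _).trans (le_max_left _ _)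
  have h4 : x ≤ max (max 0 x) (max y z) := (le_max_right _ _).trans (le_max_left _ _)
  rcases le_abs.mp h with h | h <;> linarith

theorem hat_gap12 {x y : ℝ} (z : ℝ) (h : x + 1 ≤ y) : hat x y z = 0 := by
  unfold hat
  apply max_eq_left
  have h2 : min (min 0 x) (min y z) ≤ x := (min_le_left _ _).trans (min_le_right _ _)
  have h4 : y ≤ max (max 0 x) (max y z) := (le_max_left _ _).trans (le_max_right _ _)
  linarith

theorem hat_val {x y z m M : ℝ} (h1 : min (min 0 x) (min y z) = m)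
    (h2 : max (max 0 x) (max y z) = M) (h : 0 ≤ 1 + m - M) : hat x y z = 1 + m - M := by
  unfold hat
  rw [h1, h2, max_eq_right h]

theorem continuous_hat : Continuous fun p : ℝ × ℝ × ℝ => hat p.1 p.2.1 p.2.2 := by
  unfold hat
  fun_prop

/-- Piecewise linear interpolation of nodal values. -/
noncomputable def interp (P : ℕ) (X : ℕ → ℕ → ℕ → ℝ) (x y z : ℝ) : ℝ :=
  ∑ a ∈ range (P + 1), ∑ b ∈ range (P + 1), ∑ c ∈ range (P + 1),
    X a b c * hat (x - a) (y - b) (z - c)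

theorem continuous_interp (P : ℕ) (X : ℕ → ℕ → ℕ → ℝ) :
    Continuous fun p : ℝ × ℝ × ℝ => interp P X p.1 p.2.1 p.2.2 := by
  unfold interp hat
  fun_prop

theorem sum_two {P n : ℕ} (hn : n < P) {f : ℝ} (f0 : 0 ≤ f) (f1 : f ≤ 1) (g : ℕ → ℝ)
    (hg : ∀ a : ℕ, 1 ≤ |(n : ℝ) + f - a| → g a = 0) :
    ∑ a ∈ range (P + 1), g a = g n + g (n + 1) := by
  apply Finset.sum_eq_add_of_mem n (n + 1) (by simp; omega) (by simp; omega) (by omega)
  intro c _ hc
  apply hg
  rcases lt_or_gt_of_ne hc.1 with h | h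
  · have : (c : ℝ) + 1 ≤ n := by exact_mod_cast h
    rw [le_abs]; left; linarith
  · have : n + 2 ≤ c := by omega
    have : (n : ℝ) + 2 ≤ c := by exact_mod_cast this
    rw [le_abs]; right; linarith

theorem interp_cube {P a b c : ℕ} (X : ℕ → ℕ → ℕ → ℝ) (ha : a < P) (hb : b < P) (hc : c < P)
    {f g h : ℝ} (f0 : 0 ≤ f) (f1 : f ≤ 1) (g0 : 0 ≤ g) (g1 : g ≤ 1) (h0 : 0 ≤ h) (h1 : h ≤ 1) :
    interp P X (a + f) (b + g) (c + h) =
      X a b c * hat f g h + X a b (c + 1) * hat f g (h - 1)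
      + X a (b + 1) c * hat f (g - 1) h + X a (b + 1) (c + 1) * hat f (g - 1) (h - 1)
      + X (a + 1) b c * hat (f - 1) g h + X (a + 1) b (c + 1) * hat (f - 1) g (h - 1)
      + X (a + 1) (b + 1) c * hat (f - 1) (g - 1) h
      + X (a + 1) (b + 1) (c + 1) * hat (f - 1) (g - 1) (h - 1) := by
  unfold interp
  have e3 : ∀ (i j : ℕ) (x y : ℝ), ∑ k ∈ range (P + 1), X i j k * hat x y (c + h - k) =
      X i j c * hat x y h + X i j (c + 1) * hat x y (h - 1) := by
    intro i j x y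
    rw [sum_two hc h0 h1]
    · push_cast; ring_nf
    · intro k hk
      rw [hat_swap23, hat_swap12, hat_zero1 _ _ hk, mul_zero]
  simp only [e3]
  have e2 : ∀ (i : ℕ) (x : ℝ), ∑ j ∈ range (P + 1), (X i j c * hat x (b + g - j) h
      + X i j (c + 1) * hat x (b + g - j) (h - 1)) =
      X i b c * hat x g h + X i b (c + 1) * hat x g (h - 1) +
      (X i (b + 1) c * hat x (g - 1) h + X i (b + 1) (c + 1) * hat x (g - 1) (h - 1)) := by
    intro i x
    rw [sum_two hb g0 g1]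
    · push_cast; ring_nf
    · intro k hk
      rw [hat_swap12, hat_zero1 _ _ hk, hat_swap12 x, hat_zero1 _ _ hk]; ring
  simp only [e2]
  rw [sum_two ha f0 f1]
  · push_cast; ring_nf
  · intro k hk
    simp only [hat_zero1 _ _ hk]; ring

theorem kuhn {f g h : ℝ} (h1 : f ≤ 1) (h2 : g ≤ f) (h3 : h ≤ g) (h4 : 0 ≤ h) :
    hat f g h = 1 - f ∧ hat (f - 1) g h = f - g ∧ hat (f - 1) (g - 1) h = g - h ∧
    hat (f - 1) (g - 1) (h - 1) = h ∧ hat f g (h - 1) = 0 ∧ hat f (g - 1) h = 0 ∧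
    hat f (g - 1) (h - 1) = 0 ∧ hat (f - 1) g (h - 1) = 0 := by
  refine ⟨?_, ?_, ?_, ?_, ?_, ?_, ?_, ?_⟩
  · rw [hat_val (m := 0) (M := f)]
    · ring
    · rw [min_eq_left (by linarith : (0:ℝ) ≤ f), min_eq_right h3, min_eq_left h4]
    · rw [max_eq_right (by linarith : (0:ℝ) ≤ f), max_eq_left h3, max_eq_left h2]
    · linarith
  · rw [hat_val (m := f - 1) (M := g)]
    · ring
    · rw [min_eq_right (by linarith : f - 1 ≤ 0), min_eq_right h3, min_eq_left (by linarith)]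
    · rw [max_eq_left (by linarith : f - 1 ≤ 0), max_eq_left h3, max_eq_right (by linarith)]
    · linarith
  · rw [hat_val (m := g - 1) (M := h)]
    · ring
    · rw [min_eq_right (by linarith : f - 1 ≤ 0), min_eq_left (by linarith : g - 1 ≤ h),
        min_eq_right (by linarith)]
    · rw [max_eq_left (by linarith : f - 1 ≤ 0), max_eq_right (by linarith : g - 1 ≤ h),
        max_eq_right h4]
    · linarith
  · rw [hat_val (m := h - 1) (M := 0)]
    · ring
    · rw [min_eq_right (by linarith : f - 1 ≤ 0), min_eq_right (by linarith : h - 1 ≤ g - 1),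
        min_eq_right (by linarith)]
    · rw [max_eq_left (by linarith : f - 1 ≤ 0), max_eq_left (by linarith : h - 1 ≤ g - 1),
        max_eq_left (by linarith)]
    · linarith
  · rw [hat_swap23, hat_swap12, hat_gap12 _ (by linarith)]
  · rw [hat_swap12, hat_gap12 _ (by linarith)]
  · rw [hat_swap12, hat_gap12 _ (by linarith)]
  · rw [hat_swap12, hat_swap23, hat_swap12, hat_gap12 _ (by linarith)]

section six
variable {P a b c : ℕ} (X : ℕ → ℕ → ℕ → ℝ) (ha : a < P) (hb : b < P) (hc : c < P) {f g h : ℝ}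
include ha hb hc

theorem interp123 (h1 : f ≤ 1) (h2 : g ≤ f) (h3 : h ≤ g) (h4 : 0 ≤ h) :
    interp P X (a + f) (b + g) (c + h) = (1 - f) * X a b c + (f - g) * X (a + 1) b c
      + (g - h) * X (a + 1) (b + 1) c + h * X (a + 1) (b + 1) (c + 1) := by
  obtain ⟨k1, k2, k3, k4, k5, k6, k7, k8⟩ := kuhn h1 h2 h3 h4
  rw [interp_cube X ha hb hc (by linarith) h1 (by linarith) (by linarith) h4 (by linarith),
    k1, k2, k3, k4, k5, k6, k7, k8]
  ring

theorem interp132 (h1 : f ≤ 1) (h2 : h ≤ f) (h3 : g ≤ h) (h4 : 0 ≤ g) :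
    interp P X (a + f) (b + g) (c + h) = (1 - f) * X a b c + (f - h) * X (a + 1) b c
      + (h - g) * X (a + 1) b (c + 1) + g * X (a + 1) (b + 1) (c + 1) := by
  obtain ⟨k1, k2, k3, k4, k5, k6, k7, k8⟩ := kuhn h1 h2 h3 h4
  rw [hat_swap23] at k1 k2 k3 k4 k5 k6 k7 k8
  rw [interp_cube X ha hb hc (by linarith) h1 (by linarith) (by linarith) (by linarith)
    (by linarith), k1, k2, k3, k4, k5, k6, k7, k8]
  ring

theorem interp213 (h1 : g ≤ 1) (h2 : f ≤ g) (h3 : h ≤ f) (h4 : 0 ≤ h) :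
    interp P X (a + f) (b + g) (c + h) = (1 - g) * X a b c + (g - f) * X a (b + 1) c
      + (f - h) * X (a + 1) (b + 1) c + h * X (a + 1) (b + 1) (c + 1) := by
  obtain ⟨k1, k2, k3, k4, k5, k6, k7, k8⟩ := kuhn h1 h2 h3 h4
  rw [hat_swap12] at k1 k2 k3 k4 k5 k6 k7 k8
  rw [interp_cube X ha hb hc (by linarith) (by linarith) (by linarith) (by linarith) (by linarith)
    (by linarith), k1, k2, k3, k4, k5, k6, k7, k8]
  ring

theorem interp231 (h1 : g ≤ 1) (h2 : h ≤ g) (h3 : f ≤ h) (h4 : 0 ≤ f) :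
    interp P X (a + f) (b + g) (c + h) = (1 - g) * X a b c + (g - h) * X a (b + 1) c
      + (h - f) * X a (b + 1) (c + 1) + f * X (a + 1) (b + 1) (c + 1) := by
  obtain ⟨k1, k2, k3, k4, k5, k6, k7, k8⟩ := kuhn h1 h2 h3 h4
  rw [hat_swap23, hat_swap12] at k1 k2 k3 k4 k5 k6 k7 k8
  rw [interp_cube X ha hb hc (by linarith) (by linarith) (by linarith) (by linarith) (by linarith)
    (by linarith), k1, k2, k3, k4, k5, k6, k7, k8]
  ring

theorem interp312 (h1 : h ≤ 1) (h2 : f ≤ h) (h3 : g ≤ f) (h4 : 0 ≤ g) :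
    interp P X (a + f) (b + g) (c + h) = (1 - h) * X a b c + (h - f) * X a b (c + 1)
      + (f - g) * X (a + 1) b (c + 1) + g * X (a + 1) (b + 1) (c + 1) := by
  obtain ⟨k1, k2, k3, k4, k5, k6, k7, k8⟩ := kuhn h1 h2 h3 h4
  rw [hat_swap12, hat_swap23] at k1 k2 k3 k4 k5 k6 k7 k8
  rw [interp_cube X ha hb hc (by linarith) (by linarith) (by linarith) (by linarith) (by linarith)
    (by linarith), k1, k2, k3, k4, k5, k6, k7, k8]
  ring

theorem interp321 (h1 : h ≤ 1) (h2 : g ≤ h) (h3 : f ≤ g) (h4 : 0 ≤ f) :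
    interp P X (a + f) (b + g) (c + h) = (1 - h) * X a b c + (h - g) * X a b (c + 1)
      + (g - f) * X a (b + 1) (c + 1) + f * X (a + 1) (b + 1) (c + 1) := by
  obtain ⟨k1, k2, k3, k4, k5, k6, k7, k8⟩ := kuhn h1 h2 h3 h4
  rw [hat_swap12, hat_swap23, hat_swap12] at k1 k2 k3 k4 k5 k6 k7 k8
  rw [interp_cube X ha hb hc (by linarith) (by linarith) (by linarith) (by linarith) (by linarith)
    (by linarith), k1, k2, k3, k4, k5, k6, k7, k8]
  ring

end six

end Pool.Agent.MP_8fe08c_co.h31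

end MrgPart1

-- ======== part 2: formerly Pool.Agent.MP_8fe08c_co.h31.Cell
section MrgPart2

set_option autoImplicit false

open Real

namespace Pool.Agent.MP_8fe08c_co.h31

theorem enc_eq (a b c : ℕ) : enc a b c = a * 16384 + b * 128 + c := rfl

theorem cA_enc {a b c : ℕ} (hb : b ≤ 64) (hc : c ≤ 64) : cA (enc a b c) = a := by
  show (a * 16384 + b * 128 + c) / 16384 = a
  omega

theorem cB_enc {a b c : ℕ} (hb : b ≤ 64) (hc : c ≤ 64) : cB (enc a b c) = b := by
  show (a * 16384 + b * 128 + c) / 128 % 128 = b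
  omega

theorem cC_enc {a b c : ℕ} (hc : c ≤ 64) : cC (enc a b c) = c := by
  show (a * 16384 + b * 128 + c) % 128 = c
  omega

attribute [local irreducible] XX Q1 Q2 cA cB cC KN HH AM AP BP BM EE co fT tm

theorem an2_spec {a b : Bool} (h : an2 a b = true) : a = true ∧ b = true := by
  cases a <;> cases b <;> simp_all [an2]

theorem cube3_spec {ab bc t321 t213 t231 t132 t312 t123 : Bool}
    (h : cube3 ab bc t321 t213 t231 t132 t312 t123 = true) :
    t321 = true ∧ (bc = true → t213 = true ∧ t231 = true) ∧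
      (ab = true → t132 = true ∧ t312 = true ∧ (bc = true → t123 = true)) := by
  unfold cube3 at h
  simp only [rec_and, rec_imp, Bool.and_eq_true, Bool.or_eq_true, Bool.not_eq_true'] at h
  obtain ⟨h1, h2, h3⟩ := h
  refine ⟨h1, fun hb => h2.resolve_left (by simp [hb]), fun ha => ?_⟩
  obtain ⟨u1, u2, u3⟩ := h3.resolve_left (by simp [ha])
  exact ⟨u1, u2, fun hb => u3.resolve_left (by simp [hb])⟩

theorem slab_spec {b : ℕ} (h : slab b = true) :
    (∀ k, k < 65 - b → ∀ a, a < b + 1 → frc (enc a b (b + k)) node = true) ∧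
    (∀ k, k < 64 - b → ∀ a, a < b + 1 → cube a b (b + k) = true) := by
  unfold slab at h
  replace h := an2_spec h
  exact ⟨fun k hk a ha => allB_spec (allB_spec h.1 k hk) a ha,
    fun k hk a ha => allB_spec (allB_spec h.2 k hk) a ha⟩

theorem cube_of (hall : ∀ b, b ≤ 64 → slab b = true) {a b c : ℕ} (h1 : a ≤ b) (h2 : b ≤ c)
    (h3 : c < 64) : cube a b c = true := by
  have := (slab_spec (hall b (by omega))).2 (c - b) (by omega) a (by omega)
  rwa [show b + (c - b) = c by omega] at this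

theorem node_of (hall : ∀ b, b ≤ 64 → slab b = true) {a b c : ℕ} (h1 : a ≤ b) (h2 : b ≤ c)
    (h3 : c ≤ 64) : node (enc a b c) = true := by
  have := (slab_spec (hall b (by omega))).1 (c - b) (by omega) a (by omega)
  rw [show b + (c - b) = c by omega] at this
  exact (frc_eq _ _).symm.trans this

theorem frc_eq2 (x : Nat) (k : Nat → Bool) : frc x k = k x := (frc_eq x k).trans (Eq.refl _)

theorem cube_spec {a b c : ℕ} (h : cube a b c = true) :
    s321 (enc a b c) (enc a b (c + 1)) (enc a (b + 1) (c + 1)) (enc (a + 1) (b + 1) (c + 1)) = true ∧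
    (b < c → s213 (enc a b c) (enc a (b + 1) c) (enc (a + 1) (b + 1) c) (enc (a + 1) (b + 1) (c + 1)) = true ∧
      s231 (enc a b c) (enc a (b + 1) c) (enc a (b + 1) (c + 1)) (enc (a + 1) (b + 1) (c + 1)) = true) ∧
    (a < b → s132 (enc a b c) (enc (a + 1) b c) (enc (a + 1) b (c + 1)) (enc (a + 1) (b + 1) (c + 1)) = true ∧
      s312 (enc a b c) (enc a b (c + 1)) (enc (a + 1) b (c + 1)) (enc (a + 1) (b + 1) (c + 1)) = true ∧
      (b < c → s123 (enc a b c) (enc (a + 1) b c) (enc (a + 1) (b + 1) c) (enc (a + 1) (b + 1) (c + 1)) = true)) := by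
  unfold cube at h
  rw [frc_eq2, frc_eq2, frc_eq2, frc_eq2, frc_eq2, frc_eq2, frc_eq2, frc_eq2] at h
  rw [show Nat.add (enc a b c) (nat_lit 1) = enc a b (c + 1) from
      show enc a b c + 1 = _ by simp only [enc_eq]; omega,
    show Nat.add (enc a b c) (nat_lit 128) = enc a (b + 1) c from
      show enc a b c + 128 = _ by simp only [enc_eq]; omega,
    show Nat.add (enc a b c) (nat_lit 129) = enc a (b + 1) (c + 1) from
      show enc a b c + 129 = _ by simp only [enc_eq]; omega,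
    show Nat.add (enc a b c) (nat_lit 16384) = enc (a + 1) b c from
      show enc a b c + 16384 = _ by simp only [enc_eq]; omega,
    show Nat.add (enc a b c) (nat_lit 16385) = enc (a + 1) b (c + 1) from
      show enc a b c + 16385 = _ by simp only [enc_eq]; omega,
    show Nat.add (enc a b c) (nat_lit 16512) = enc (a + 1) (b + 1) c from
      show enc a b c + 16512 = _ by simp only [enc_eq]; omega,
    show Nat.add (enc a b c) (nat_lit 16513) = enc (a + 1) (b + 1) (c + 1) from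
      show enc a b c + 16513 = _ by simp only [enc_eq]; omega] at h
  unfold cube2 at h
  obtain ⟨h1, h2, h3⟩ := cube3_spec h
  have t : ∀ x z : ℕ, x < z → Nat.ble (Nat.add x (nat_lit 1)) z = true :=
    fun x z hx => Nat.ble_eq_true_of_le (show Nat.add x (nat_lit 1) ≤ z from hx)
  refine ⟨h1, fun hb => h2 (t _ _ hb), fun ha => ?_⟩
  obtain ⟨u1, u2, u3⟩ := h3 (t _ _ ha)
  exact ⟨u1, u2, fun hb => u3 (t _ _ hb)⟩

/-- The grid pieces. -/
noncomputable def UG (l : ℕ) (y : ℝ × ℝ × ℝ) : ℝ :=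
  Eg / 30000 * interp 64 (fun a b c => (XX l (enc a b c) : ℝ)) (y.1 / Eg) (y.2.1 / Eg) (y.2.2 / Eg)

/-- Ordered fractional parts. -/
def Od (F G H : ℝ × ℝ × ℝ → ℝ) : Set (ℝ × ℝ × ℝ) :=
  {y | F y ≤ 1 ∧ G y ≤ F y ∧ H y ≤ G y ∧ 0 ≤ H y}

theorem Od_closed {F G H : ℝ × ℝ × ℝ → ℝ} (hF : Continuous F) (hG : Continuous G)
    (hH : Continuous H) (p : Prop) : IsClosed ({_y | p} ∩ Od F G H) :=
  isClosed_const.inter ((isClosed_le hF continuous_const).inter ((isClosed_le hG hF).inter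
    ((isClosed_le hH hG).inter (isClosed_le continuous_const hH))))

/-- The simplices of the triangulation. -/
def Sx (a b c : ℕ) : Fin 6 → Set (ℝ × ℝ × ℝ)
  | 0 => {_y | a < b ∧ b < c} ∩ Od (fun y => y.1 / Eg - a)
      (fun y => y.2.1 / Eg - b) (fun y => y.2.2 / Eg - c)
  | 1 => {_y | a < b ∧ b ≤ c} ∩ Od (fun y => y.1 / Eg - a)
      (fun y => y.2.2 / Eg - c) (fun y => y.2.1 / Eg - b)
  | 2 => {_y | a ≤ b ∧ b < c} ∩ Od (fun y => y.2.1 / Eg - b)
      (fun y => y.1 / Eg - a) (fun y => y.2.2 / Eg - c)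
  | 3 => {_y | a ≤ b ∧ b < c} ∩ Od (fun y => y.2.1 / Eg - b)
      (fun y => y.2.2 / Eg - c) (fun y => y.1 / Eg - a)
  | 4 => {_y | a < b ∧ b ≤ c} ∩ Od (fun y => y.2.2 / Eg - c)
      (fun y => y.1 / Eg - a) (fun y => y.2.1 / Eg - b)
  | 5 => {_y | a ≤ b ∧ b ≤ c} ∩ Od (fun y => y.2.2 / Eg - c)
      (fun y => y.2.1 / Eg - b) (fun y => y.1 / Eg - a)

theorem Sx_closed (a b c : ℕ) (p : Fin 6) : IsClosed (Sx a b c p) := by
  fin_cases p <;> exact Od_closed (by fun_prop) (by fun_prop) (by fun_prop) _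

/-- Everything the checker gives at a point of a simplex. -/
structure Cell (a b c : ℕ) (y : ℝ × ℝ × ℝ) (lo1 hi1 lo2 hi2 lo3 hi3 : ℕ) (s : SP) : Prop where
  ok : s.Ok y
  nodes : s.all fun v => node v = true
  val : ∀ l, UG l y = Eg / 30000 * s.av (XX l)
  lin : ∀ l, s.av (XX l) = XX l (enc a b c) + (y.1 / Eg - a) * ((XX l hi1 : ℝ) - XX l lo1)
    + (y.2.1 / Eg - b) * ((XX l hi2 : ℝ) - XX l lo2) + (y.2.2 / Eg - c) * ((XX l hi3 : ℝ) - XX l lo3)
  ineq : ∀ l, l ≤ 6 → s.av (XX l) ≤ s.av (tL l) → s.av (XX l) ≤ s.av (tR l) →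
    s.av (XX l) ≤ s.av (tM l) →
    Ineq (347 / 200) ((l : ℝ) / 6) (Eg / 30000 * s.av (XX l)) (((XX l hi1 : ℝ) - XX l lo1) / 30000)
      (((XX l hi2 : ℝ) - XX l lo2) / 30000) (((XX l hi3 : ℝ) - XX l lo3) / 30000) y

theorem cell123 (hall : ∀ b, b ≤ 64 → slab b = true) {a b c : ℕ} (hc : c < 64)
    {y : ℝ × ℝ × ℝ} (hy : y ∈ Sx a b c 0) : ∃ s, Cell a b c y
      (enc a b c) (enc (a + 1) b c) (enc (a + 1) b c) (enc (a + 1) (b + 1) c) (enc (a + 1) (b + 1) c) (enc (a + 1) (b + 1) (c + 1)) s := by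
  obtain ⟨⟨v1, v2⟩, o1, o2, o3, o4⟩ := hy
  have hE := Eg_pos
  have hs := cube_spec (cube_of hall (a := a) (b := b) (by omega) (by omega) hc)
  have hk := ((hs.2.2 v1).2.2 v2)
  unfold s123 sx at hk
  have e0 : b ≤ 64 := by omega
  have e1 : b + 1 ≤ 64 := by omega
  have e2 : c ≤ 64 := by omega
  have e3 : c + 1 ≤ 64 := by omega
  have ok : SP.Ok ⟨(enc a b c), (enc (a + 1) b c), (enc (a + 1) (b + 1) c), (enc (a + 1) (b + 1) (c + 1)),
      (1 - (y.1 / Eg - a)), ((y.1 / Eg - a) - (y.2.1 / Eg - b)), ((y.2.1 / Eg - b) - (y.2.2 / Eg - c)), (y.2.2 / Eg - c)⟩ y := by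
    refine ⟨by simp only; linarith, by simp only; linarith, by simp only; linarith, o4,
      by simp only; ring, ?_, ?_, ?_, ?_, ?_, ?_, ?_⟩
    · simp only [SP.all, Val, cA_enc, cB_enc, cC_enc, e0, e1, e2, e3, and_true]; omega
    · simp only [SP.mono, cA_enc, e0, e1, e2, e3]; omega
    · simp only [SP.mono, cB_enc, e0, e1, e2, e3]; omega
    · simp only [SP.mono, cC_enc, e2, e3]; omega
    · simp only [SP.av, cA_enc, e0, e1, e2, e3]; push_cast; field_simp; ring
    · simp only [SP.av, cB_enc, e0, e1, e2, e3]; push_cast; field_simp; ring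
    · simp only [SP.av, cC_enc, e2, e3]; push_cast; field_simp; ring
  refine ⟨_, ok, ⟨node_of hall (by omega) (by omega) (by omega),
    node_of hall (by omega) (by omega) (by omega), node_of hall (by omega) (by omega) (by omega),
    node_of hall (by omega) (by omega) (by omega)⟩, ?_, ?_, ?_⟩
  · intro l
    have := interp123 (P := 64) (a := a) (b := b) (c := c) (fun a b c => (XX l (enc a b c) : ℝ))
      (by omega) (by omega) hc o1 o2 o3 o4
    simp only [add_sub_cancel] at this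
    unfold UG
    rw [this]; rfl
  · intro l
    simp only [SP.av]; ring
  · intro l hl t1 t2 t3
    obtain ⟨c1, c2, c3, hcov, n1, n2, n3, p1, p2, p3⟩ := cov_main ok (XX l)
    exact chk_sound ok hl (allB_spec hk l (Nat.lt_succ_of_le hl)) t1 t2 t3
      (γ1 := c1) (γ2 := c2) (γ3 := c3) (by rw [hcov]) n1 n3 n2 p2 (by ring)

theorem cell132 (hall : ∀ b, b ≤ 64 → slab b = true) {a b c : ℕ} (hc : c < 64)
    {y : ℝ × ℝ × ℝ} (hy : y ∈ Sx a b c 1) : ∃ s, Cell a b c y
      (enc a b c) (enc (a + 1) b c) (enc (a + 1) b (c + 1)) (enc (a + 1) (b + 1) (c + 1)) (enc (a + 1) b c) (enc (a + 1) b (c + 1)) s := by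
  obtain ⟨⟨v1, v2⟩, o1, o2, o3, o4⟩ := hy
  have hE := Eg_pos
  have hs := cube_spec (cube_of hall (a := a) (b := b) (by omega) (by omega) hc)
  have hk := (hs.2.2 v1).1
  unfold s132 sx at hk
  have e0 : b ≤ 64 := by omega
  have e1 : b + 1 ≤ 64 := by omega
  have e2 : c ≤ 64 := by omega
  have e3 : c + 1 ≤ 64 := by omega
  have ok : SP.Ok ⟨(enc a b c), (enc (a + 1) b c), (enc (a + 1) b (c + 1)), (enc (a + 1) (b + 1) (c + 1)),
      (1 - (y.1 / Eg - a)), ((y.1 / Eg - a) - (y.2.2 / Eg - c)), ((y.2.2 / Eg - c) - (y.2.1 / Eg - b)), (y.2.1 / Eg - b)⟩ y := by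
    refine ⟨by simp only; linarith, by simp only; linarith, by simp only; linarith, o4,
      by simp only; ring, ?_, ?_, ?_, ?_, ?_, ?_, ?_⟩
    · simp only [SP.all, Val, cA_enc, cB_enc, cC_enc, e0, e1, e2, e3, and_true]; omega
    · simp only [SP.mono, cA_enc, e0, e1, e2, e3]; omega
    · simp only [SP.mono, cB_enc, e0, e1, e2, e3]; omega
    · simp only [SP.mono, cC_enc, e2, e3]; omega
    · simp only [SP.av, cA_enc, e0, e1, e2, e3]; push_cast; field_simp; ring
    · simp only [SP.av, cB_enc, e0, e1, e2, e3]; push_cast; field_simp; ring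
    · simp only [SP.av, cC_enc, e2, e3]; push_cast; field_simp; ring
  refine ⟨_, ok, ⟨node_of hall (by omega) (by omega) (by omega),
    node_of hall (by omega) (by omega) (by omega), node_of hall (by omega) (by omega) (by omega),
    node_of hall (by omega) (by omega) (by omega)⟩, ?_, ?_, ?_⟩
  · intro l
    have := interp132 (P := 64) (a := a) (b := b) (c := c) (fun a b c => (XX l (enc a b c) : ℝ))
      (by omega) (by omega) hc o1 o2 o3 o4
    simp only [add_sub_cancel] at this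
    unfold UG
    rw [this]; rfl
  · intro l
    simp only [SP.av]; ring
  · intro l hl t1 t2 t3
    obtain ⟨c1, c2, c3, hcov, n1, n2, n3, p1, p2, p3⟩ := cov_main ok (XX l)
    exact chk_sound ok hl (allB_spec hk l (Nat.lt_succ_of_le hl)) t1 t2 t3
      (γ1 := c1) (γ2 := c3) (γ3 := c2) (by rw [hcov]; ring) n1 n2 n3 p3 (by ring)

theorem cell213 (hall : ∀ b, b ≤ 64 → slab b = true) {a b c : ℕ} (hc : c < 64)
    {y : ℝ × ℝ × ℝ} (hy : y ∈ Sx a b c 2) : ∃ s, Cell a b c y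
      (enc a (b + 1) c) (enc (a + 1) (b + 1) c) (enc a b c) (enc a (b + 1) c) (enc (a + 1) (b + 1) c) (enc (a + 1) (b + 1) (c + 1)) s := by
  obtain ⟨⟨v1, v2⟩, o1, o2, o3, o4⟩ := hy
  have hE := Eg_pos
  have hs := cube_spec (cube_of hall (a := a) (b := b) (by omega) (by omega) hc)
  have hk := (hs.2.1 v2).1
  unfold s213 sx at hk
  have e0 : b ≤ 64 := by omega
  have e1 : b + 1 ≤ 64 := by omega
  have e2 : c ≤ 64 := by omega
  have e3 : c + 1 ≤ 64 := by omega
  have ok : SP.Ok ⟨(enc a b c), (enc a (b + 1) c), (enc (a + 1) (b + 1) c), (enc (a + 1) (b + 1) (c + 1)),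
      (1 - (y.2.1 / Eg - b)), ((y.2.1 / Eg - b) - (y.1 / Eg - a)), ((y.1 / Eg - a) - (y.2.2 / Eg - c)), (y.2.2 / Eg - c)⟩ y := by
    refine ⟨by simp only; linarith, by simp only; linarith, by simp only; linarith, o4,
      by simp only; ring, ?_, ?_, ?_, ?_, ?_, ?_, ?_⟩
    · simp only [SP.all, Val, cA_enc, cB_enc, cC_enc, e0, e1, e2, e3, and_true]; omega
    · simp only [SP.mono, cA_enc, e0, e1, e2, e3]; omega
    · simp only [SP.mono, cB_enc, e0, e1, e2, e3]; omega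
    · simp only [SP.mono, cC_enc, e2, e3]; omega
    · simp only [SP.av, cA_enc, e0, e1, e2, e3]; push_cast; field_simp; ring
    · simp only [SP.av, cB_enc, e0, e1, e2, e3]; push_cast; field_simp; ring
    · simp only [SP.av, cC_enc, e2, e3]; push_cast; field_simp; ring
  refine ⟨_, ok, ⟨node_of hall (by omega) (by omega) (by omega),
    node_of hall (by omega) (by omega) (by omega), node_of hall (by omega) (by omega) (by omega),
    node_of hall (by omega) (by omega) (by omega)⟩, ?_, ?_, ?_⟩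
  · intro l
    have := interp213 (P := 64) (a := a) (b := b) (c := c) (fun a b c => (XX l (enc a b c) : ℝ))
      (by omega) (by omega) hc o1 o2 o3 o4
    simp only [add_sub_cancel] at this
    unfold UG
    rw [this]; rfl
  · intro l
    simp only [SP.av]; ring
  · intro l hl t1 t2 t3
    obtain ⟨c1, c2, c3, hcov, n1, n2, n3, p1, p2, p3⟩ := cov_main ok (XX l)
    exact chk_sound ok hl (allB_spec hk l (Nat.lt_succ_of_le hl)) t1 t2 t3
      (γ1 := c2) (γ2 := c1) (γ3 := c3) (by rw [hcov]; ring) n2 n3 n1 p1 (by ring)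

theorem cell231 (hall : ∀ b, b ≤ 64 → slab b = true) {a b c : ℕ} (hc : c < 64)
    {y : ℝ × ℝ × ℝ} (hy : y ∈ Sx a b c 3) : ∃ s, Cell a b c y
      (enc a (b + 1) (c + 1)) (enc (a + 1) (b + 1) (c + 1)) (enc a b c) (enc a (b + 1) c) (enc a (b + 1) c) (enc a (b + 1) (c + 1)) s := by
  obtain ⟨⟨v1, v2⟩, o1, o2, o3, o4⟩ := hy
  have hE := Eg_pos
  have hs := cube_spec (cube_of hall (a := a) (b := b) (by omega) (by omega) hc)
  have hk := (hs.2.1 v2).2
  unfold s231 sx at hk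
  have e0 : b ≤ 64 := by omega
  have e1 : b + 1 ≤ 64 := by omega
  have e2 : c ≤ 64 := by omega
  have e3 : c + 1 ≤ 64 := by omega
  have ok : SP.Ok ⟨(enc a b c), (enc a (b + 1) c), (enc a (b + 1) (c + 1)), (enc (a + 1) (b + 1) (c + 1)),
      (1 - (y.2.1 / Eg - b)), ((y.2.1 / Eg - b) - (y.2.2 / Eg - c)), ((y.2.2 / Eg - c) - (y.1 / Eg - a)), (y.1 / Eg - a)⟩ y := by
    refine ⟨by simp only; linarith, by simp only; linarith, by simp only; linarith, o4,
      by simp only; ring, ?_, ?_, ?_, ?_, ?_, ?_, ?_⟩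
    · simp only [SP.all, Val, cA_enc, cB_enc, cC_enc, e0, e1, e2, e3, and_true]; omega
    · simp only [SP.mono, cA_enc, e0, e1, e2, e3]; omega
    · simp only [SP.mono, cB_enc, e0, e1, e2, e3]; omega
    · simp only [SP.mono, cC_enc, e2, e3]; omega
    · simp only [SP.av, cA_enc, e0, e1, e2, e3]; push_cast; field_simp; ring
    · simp only [SP.av, cB_enc, e0, e1, e2, e3]; push_cast; field_simp; ring
    · simp only [SP.av, cC_enc, e2, e3]; push_cast; field_simp; ring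
  refine ⟨_, ok, ⟨node_of hall (by omega) (by omega) (by omega),
    node_of hall (by omega) (by omega) (by omega), node_of hall (by omega) (by omega) (by omega),
    node_of hall (by omega) (by omega) (by omega)⟩, ?_, ?_, ?_⟩
  · intro l
    have := interp231 (P := 64) (a := a) (b := b) (c := c) (fun a b c => (XX l (enc a b c) : ℝ))
      (by omega) (by omega) hc o1 o2 o3 o4
    simp only [add_sub_cancel] at this
    unfold UG
    rw [this]; rfl
  · intro l
    simp only [SP.av]; ring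
  · intro l hl t1 t2 t3
    obtain ⟨c1, c2, c3, hcov, n1, n2, n3, p1, p2, p3⟩ := cov_main ok (XX l)
    exact chk_sound ok hl (allB_spec hk l (Nat.lt_succ_of_le hl)) t1 t2 t3
      (γ1 := c3) (γ2 := c1) (γ3 := c2) (by rw [hcov]; ring) n3 n2 n1 p1 (by ring)

theorem cell312 (hall : ∀ b, b ≤ 64 → slab b = true) {a b c : ℕ} (hc : c < 64)
    {y : ℝ × ℝ × ℝ} (hy : y ∈ Sx a b c 4) : ∃ s, Cell a b c y
      (enc a b (c + 1)) (enc (a + 1) b (c + 1)) (enc (a + 1) b (c + 1)) (enc (a + 1) (b + 1) (c + 1)) (enc a b c) (enc a b (c + 1)) s := by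
  obtain ⟨⟨v1, v2⟩, o1, o2, o3, o4⟩ := hy
  have hE := Eg_pos
  have hs := cube_spec (cube_of hall (a := a) (b := b) (by omega) (by omega) hc)
  have hk := (hs.2.2 v1).2.1
  unfold s312 sx at hk
  have e0 : b ≤ 64 := by omega
  have e1 : b + 1 ≤ 64 := by omega
  have e2 : c ≤ 64 := by omega
  have e3 : c + 1 ≤ 64 := by omega
  have ok : SP.Ok ⟨(enc a b c), (enc a b (c + 1)), (enc (a + 1) b (c + 1)), (enc (a + 1) (b + 1) (c + 1)),
      (1 - (y.2.2 / Eg - c)), ((y.2.2 / Eg - c) - (y.1 / Eg - a)), ((y.1 / Eg - a) - (y.2.1 / Eg - b)), (y.2.1 / Eg - b)⟩ y := by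
    refine ⟨by simp only; linarith, by simp only; linarith, by simp only; linarith, o4,
      by simp only; ring, ?_, ?_, ?_, ?_, ?_, ?_, ?_⟩
    · simp only [SP.all, Val, cA_enc, cB_enc, cC_enc, e0, e1, e2, e3, and_true]; omega
    · simp only [SP.mono, cA_enc, e0, e1, e2, e3]; omega
    · simp only [SP.mono, cB_enc, e0, e1, e2, e3]; omega
    · simp only [SP.mono, cC_enc, e2, e3]; omega
    · simp only [SP.av, cA_enc, e0, e1, e2, e3]; push_cast; field_simp; ring
    · simp only [SP.av, cB_enc, e0, e1, e2, e3]; push_cast; field_simp; ring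
    · simp only [SP.av, cC_enc, e2, e3]; push_cast; field_simp; ring
  refine ⟨_, ok, ⟨node_of hall (by omega) (by omega) (by omega),
    node_of hall (by omega) (by omega) (by omega), node_of hall (by omega) (by omega) (by omega),
    node_of hall (by omega) (by omega) (by omega)⟩, ?_, ?_, ?_⟩
  · intro l
    have := interp312 (P := 64) (a := a) (b := b) (c := c) (fun a b c => (XX l (enc a b c) : ℝ))
      (by omega) (by omega) hc o1 o2 o3 o4
    simp only [add_sub_cancel] at this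
    unfold UG
    rw [this]; rfl
  · intro l
    simp only [SP.av]; ring
  · intro l hl t1 t2 t3
    obtain ⟨c1, c2, c3, hcov, n1, n2, n3, p1, p2, p3⟩ := cov_main ok (XX l)
    exact chk_sound ok hl (allB_spec hk l (Nat.lt_succ_of_le hl)) t1 t2 t3
      (γ1 := c2) (γ2 := c3) (γ3 := c1) (by rw [hcov]; ring) n2 n1 n3 p3 (by ring)

theorem cell321 (hall : ∀ b, b ≤ 64 → slab b = true) {a b c : ℕ} (hc : c < 64)
    {y : ℝ × ℝ × ℝ} (hy : y ∈ Sx a b c 5) : ∃ s, Cell a b c y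
      (enc a (b + 1) (c + 1)) (enc (a + 1) (b + 1) (c + 1)) (enc a b (c + 1)) (enc a (b + 1) (c + 1)) (enc a b c) (enc a b (c + 1)) s := by
  obtain ⟨⟨v1, v2⟩, o1, o2, o3, o4⟩ := hy
  have hE := Eg_pos
  have hs := cube_spec (cube_of hall (a := a) (b := b) (by omega) (by omega) hc)
  have hk := hs.1
  unfold s321 sx at hk
  have e0 : b ≤ 64 := by omega
  have e1 : b + 1 ≤ 64 := by omega
  have e2 : c ≤ 64 := by omega
  have e3 : c + 1 ≤ 64 := by omega
  have ok : SP.Ok ⟨(enc a b c), (enc a b (c + 1)), (enc a (b + 1) (c + 1)), (enc (a + 1) (b + 1) (c + 1)),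
      (1 - (y.2.2 / Eg - c)), ((y.2.2 / Eg - c) - (y.2.1 / Eg - b)), ((y.2.1 / Eg - b) - (y.1 / Eg - a)), (y.1 / Eg - a)⟩ y := by
    refine ⟨by simp only; linarith, by simp only; linarith, by simp only; linarith, o4,
      by simp only; ring, ?_, ?_, ?_, ?_, ?_, ?_, ?_⟩
    · simp only [SP.all, Val, cA_enc, cB_enc, cC_enc, e0, e1, e2, e3, and_true]; omega
    · simp only [SP.mono, cA_enc, e0, e1, e2, e3]; omega
    · simp only [SP.mono, cB_enc, e0, e1, e2, e3]; omega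
    · simp only [SP.mono, cC_enc, e2, e3]; omega
    · simp only [SP.av, cA_enc, e0, e1, e2, e3]; push_cast; field_simp; ring
    · simp only [SP.av, cB_enc, e0, e1, e2, e3]; push_cast; field_simp; ring
    · simp only [SP.av, cC_enc, e2, e3]; push_cast; field_simp; ring
  refine ⟨_, ok, ⟨node_of hall (by omega) (by omega) (by omega),
    node_of hall (by omega) (by omega) (by omega), node_of hall (by omega) (by omega) (by omega),
    node_of hall (by omega) (by omega) (by omega)⟩, ?_, ?_, ?_⟩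
  · intro l
    have := interp321 (P := 64) (a := a) (b := b) (c := c) (fun a b c => (XX l (enc a b c) : ℝ))
      (by omega) (by omega) hc o1 o2 o3 o4
    simp only [add_sub_cancel] at this
    unfold UG
    rw [this]; rfl
  · intro l
    simp only [SP.av]; ring
  · intro l hl t1 t2 t3
    obtain ⟨c1, c2, c3, hcov, n1, n2, n3, p1, p2, p3⟩ := cov_main ok (XX l)
    exact chk_sound ok hl (allB_spec hk l (Nat.lt_succ_of_le hl)) t1 t2 t3
      (γ1 := c3) (γ2 := c2) (γ3 := c1) (by rw [hcov]; ring) n3 n1 n2 p2 (by ring)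

theorem cell (hall : ∀ b, b ≤ 64 → slab b = true) {a b c : ℕ} (hc : c < 64) (p : Fin 6) :
    ∃ lo1 hi1 lo2 hi2 lo3 hi3, ∀ y ∈ Sx a b c p, ∃ s, Cell a b c y lo1 hi1 lo2 hi2 lo3 hi3 s := by
  fin_cases p
  · exact ⟨_, _, _, _, _, _, fun y hy => cell123 hall hc hy⟩
  · exact ⟨_, _, _, _, _, _, fun y hy => cell132 hall hc hy⟩
  · exact ⟨_, _, _, _, _, _, fun y hy => cell213 hall hc hy⟩
  · exact ⟨_, _, _, _, _, _, fun y hy => cell231 hall hc hy⟩
  · exact ⟨_, _, _, _, _, _, fun y hy => cell312 hall hc hy⟩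
  · exact ⟨_, _, _, _, _, _, fun y hy => cell321 hall hc hy⟩

end Pool.Agent.MP_8fe08c_co.h31

end MrgPart2

-- ======== part 3: formerly Pool.Agent.MP_8fe08c_co.h31.Moves
section MrgPart3

set_option autoImplicit false

open Real Filter Topology Set

namespace Pool.Agent.MP_8fe08c_co.h31

variable {ι κ : Type} [Fintype ι] [Finite κ] {ρ : ℝ} {lam : ι → ℝ}
    {U : ι → ℝ × ℝ × ℝ → ℝ} {S : ι → κ → Set (ℝ × ℝ × ℝ)}

theorem sin_lip (s t : ℝ) : sin s ≤ sin t + |s - t| := by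
  have := abs_sin_sub_sin_le s t
  have h2 := le_abs_self (sin s - sin t)
  linarith

theorem moveA (hG : Good ρ lam U S) {da db r x y1 y2 y3 z1 : ℝ} (hr : 0 < r)
    (hdom : Dom (y1, y2, y3)) (hz0 : 0 ≤ z1) (hz1 : z1 ≤ y1)
    (hd : |da - db| ≤ r * (2 * sin (y1 + (y3 - y2))))
    (h0 : Pot ρ lam U da db r x (y1, y2, y3)) :
    Pot ρ lam U (min (da + 2 * r * (y1 - z1)) (db + r * (2 * sin (z1 + (y3 - y2))))) db r x
      (z1, y2, y3) := by
  obtain ⟨h1, h2, h3, h4⟩ := hdom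
  simp only at h1 h2 h3 h4
  have habs := abs_le.mp hd
  have := mono_path hG (t0 := 0) (t1 := y1 - z1) (by linarith)
    (fun t => min (da + 2 * r * t) (db + r * (2 * sin (y1 - t + (y3 - y2))))) (fun _ => db)
    (fun _ => r) (fun _ => x) (fun t => y1 - t) (fun _ => y2) (fun _ => y3)
    (by fun_prop) continuousOn_const continuousOn_const continuousOn_const (by fun_prop)
    continuousOn_const continuousOn_const
    (fun t ht => ⟨by simp only; linarith [ht.2], by simp only; linarith [ht.1], h3, h4⟩)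
    (fun _ _ => hr) ?_ ?_ ?_
  · simpa using this
  · intro t ht
    rw [abs_le]
    have hs : 0 ≤ sin (y1 - t + (y3 - y2)) :=
      sin_nonneg_of_nonneg_of_le_pi (by linarith [ht.2]) (by linarith [ht.1])
    have hl := sin_lip (y1 + (y3 - y2)) (y1 - t + (y3 - y2))
    rw [show y1 + (y3 - y2) - (y1 - t + (y3 - y2)) = t by ring, abs_of_nonneg ht.1] at hl
    constructor
    · have : db - r * (2 * sin (y1 - t + (y3 - y2))) ≤
          min (da + 2 * r * t) (db + r * (2 * sin (y1 - t + (y3 - y2)))) := by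
        apply le_min
        · nlinarith
        · nlinarith
      linarith
    · have := min_le_right (da + 2 * r * t) (db + r * (2 * sin (y1 - t + (y3 - y2))))
      linarith
  · intro t ht
    refine ⟨2 * r, 0, 0, 0, -1, 0, 0, ?_, ?_, hasDerivAt_const _ _, hasDerivAt_const _ _, ?_,
      hasDerivAt_const _ _, hasDerivAt_const _ _, ?_⟩
    · intro z hz
      have hl := sin_lip (y1 - z + (y3 - y2)) (y1 - t + (y3 - y2))
      rw [show y1 - z + (y3 - y2) - (y1 - t + (y3 - y2)) = -(z - t) by ring, abs_neg,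
        abs_of_nonneg (by linarith [hz.1])] at hl
      rw [← min_add_add_right]
      apply min_le_min
      · linarith
      · nlinarith
    · intro z _; simp
    · simpa using (hasDerivAt_id t).const_sub y1
    · intro l V g1 g2 g3 _ _ hI
      have := hI.1
      nlinarith
  · have e : min (da + 2 * r * 0) (db + r * (2 * sin (y1 - 0 + (y3 - y2)))) = da := by
      rw [min_eq_left]
      · ring
      · simp only [sub_zero]; linarith
    simp only [e]
    simpa using h0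

theorem moveB (hG : Good ρ lam U S) {da db r x y1 y2 y3 z3 : ℝ} (hr : 0 < r)
    (hdom : Dom (y1, y2, y3)) (hz0 : y2 ≤ z3) (hz1 : z3 ≤ y3)
    (hd : |da - db| ≤ r * (2 * sin (y1 + (y3 - y2))))
    (h0 : Pot ρ lam U da db r x (y1, y2, y3)) :
    Pot ρ lam U da (min (db + 2 * r * (y3 - z3)) (da + r * (2 * sin (y1 + (z3 - y2))))) r x
      (y1, y2, z3) := by
  obtain ⟨h1, h2, h3, h4⟩ := hdom
  simp only at h1 h2 h3 h4
  have habs := abs_le.mp hd
  have := mono_path hG (t0 := 0) (t1 := y3 - z3) (by linarith) (fun _ => da)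
    (fun t => min (db + 2 * r * t) (da + r * (2 * sin (y1 + (y3 - t - y2)))))
    (fun _ => r) (fun _ => x) (fun _ => y1) (fun _ => y2) (fun t => y3 - t)
    continuousOn_const (by fun_prop) continuousOn_const continuousOn_const continuousOn_const
    continuousOn_const (by fun_prop)
    (fun t ht => ⟨h1, h2, by simp only; linarith [ht.2], by simp only; linarith [ht.1]⟩)
    (fun _ _ => hr) ?_ ?_ ?_
  · simpa using this
  · intro t ht
    rw [abs_le]
    have hs : 0 ≤ sin (y1 + (y3 - t - y2)) :=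
      sin_nonneg_of_nonneg_of_le_pi (by linarith [ht.2]) (by linarith [ht.1])
    have hl := sin_lip (y1 + (y3 - y2)) (y1 + (y3 - t - y2))
    rw [show y1 + (y3 - y2) - (y1 + (y3 - t - y2)) = t by ring, abs_of_nonneg ht.1] at hl
    constructor
    · have := min_le_right (db + 2 * r * t) (da + r * (2 * sin (y1 + (y3 - t - y2))))
      linarith
    · have : da - r * (2 * sin (y1 + (y3 - t - y2))) ≤
          min (db + 2 * r * t) (da + r * (2 * sin (y1 + (y3 - t - y2)))) := by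
        apply le_min
        · nlinarith
        · nlinarith
      linarith
  · intro t ht
    refine ⟨0, 2 * r, 0, 0, 0, 0, -1, ?_, ?_, hasDerivAt_const _ _, hasDerivAt_const _ _,
      hasDerivAt_const _ _, hasDerivAt_const _ _, ?_, ?_⟩
    · intro z _; simp
    · intro z hz
      have hl := sin_lip (y1 + (y3 - z - y2)) (y1 + (y3 - t - y2))
      rw [show y1 + (y3 - z - y2) - (y1 + (y3 - t - y2)) = -(z - t) by ring, abs_neg,
        abs_of_nonneg (by linarith [hz.1])] at hl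
      rw [← min_add_add_right]
      apply min_le_min
      · linarith
      · nlinarith
    · simpa using (hasDerivAt_id t).const_sub y3
    · intro l V g1 g2 g3 _ _ hI
      have := hI.2.1
      nlinarith
  · have e : min (db + 2 * r * 0) (da + r * (2 * sin (y1 + (y3 - 0 - y2)))) = db := by
      rw [min_eq_left]
      · ring
      · simp only [sub_zero]; linarith
    simp only [e]
    simpa using h0

/-- The inverse cotangent with values in the interval from zero to pi. -/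
noncomputable def acot (z : ℝ) : ℝ := π / 2 - arctan z

theorem acot_pos (z : ℝ) : 0 < acot z := by
  have := arctan_lt_pi_div_two z; unfold acot; linarith

theorem acot_lt (z : ℝ) : acot z < π := by
  have := neg_pi_div_two_lt_arctan z; unfold acot; linarith

theorem sin_acot_pos (z : ℝ) : 0 < sin (acot z) := sin_pos_of_pos_of_lt_pi (acot_pos z) (acot_lt z)

theorem cos_acot (z : ℝ) : cos (acot z) = z * sin (acot z) := by
  unfold acot
  rw [cos_pi_div_two_sub, sin_pi_div_two_sub, sin_arctan, cos_arctan]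
  ring

theorem acot_anti {z w : ℝ} (h : z ≤ w) : acot w ≤ acot z := by
  have := arctan_strictMono.monotone h
  unfold acot; linarith

theorem acot_eq {θ z : ℝ} (h0 : 0 < θ) (h1 : θ < π) (h : cos θ = z * sin θ) : acot z = θ := by
  have hs := sin_pos_of_pos_of_lt_pi h0 h1
  have : z = tan (π / 2 - θ) := by
    rw [tan_eq_sin_div_cos, sin_pi_div_two_sub, cos_pi_div_two_sub, h]; field_simp
  unfold acot
  rw [this, arctan_tan (by linarith) (by linarith)]; ring

theorem hasDerivAt_acot (x0 h : ℝ) (x : ℝ) :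
    HasDerivAt (fun x => acot ((x - x0) / h)) (-(sin (acot ((x - x0) / h)) ^ 2 / h)) x := by
  have h1 : HasDerivAt (fun x => (x - x0) / h) (1 / h) x := by
    simpa using ((hasDerivAt_id x).sub_const x0).div_const h
  have h2 := (h1.arctan).const_sub (π / 2)
  refine h2.congr_deriv ?_
  set z := (x - x0) / h
  have h3 := cos_acot z
  have h4 := sin_sq_add_cos_sq (acot z)
  rw [h3] at h4
  have h5 : sin (acot z) ^ 2 = 1 / (1 + z ^ 2) := by
    rw [eq_div_iff (by positivity)]; linarith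
  rw [h5]; ring

theorem moveC (hG : Good ρ lam U S) {da db xa ya xb yb ψ x0 x1 : ℝ} (hya : 0 < ya) (hyb : 0 < yb)
    (hψ0 : 0 < ψ) (hψ1 : ψ < π) (hψ : (xa - xb) * sin ψ = (ya + yb) * cos ψ) (hx : x0 ≤ x1)
    (hA : 0 < ψ - acot ((x0 - xb) / yb)) (hB : 0 < π - ψ - acot ((x0 - xa) / ya))
    (hd : |da - db| * sin ψ ≤ ya + yb)
    (h0 : Pot ρ lam U da db (ya / (2 * sin (ψ - acot ((x0 - xb) / yb)) * sin (acot ((x0 - xa) / ya))))
      x0 (ψ - acot ((x0 - xb) / yb), ψ - acot ((x0 - xb) / yb) + acot ((x0 - xa) / ya),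
        π - acot ((x0 - xb) / yb))) :
    Pot ρ lam U da db (ya / (2 * sin (ψ - acot ((x1 - xb) / yb)) * sin (acot ((x1 - xa) / ya))))
      x1 (ψ - acot ((x1 - xb) / yb), ψ - acot ((x1 - xb) / yb) + acot ((x1 - xa) / ya),
        π - acot ((x1 - xb) / yb)) := by
  set A' : ℝ → ℝ := fun x => acot ((x - xa) / ya) with hA'
  set B' : ℝ → ℝ := fun x => acot ((x - xb) / yb) with hB'
  have dA' : ∀ x, HasDerivAt A' (-(sin (A' x) ^ 2 / ya)) x := hasDerivAt_acot xa ya
  have dB' : ∀ x, HasDerivAt B' (-(sin (B' x) ^ 2 / yb)) x := hasDerivAt_acot xb yb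
  have cA' : Continuous A' := continuous_iff_continuousAt.mpr fun x => (dA' x).continuousAt
  have cB' : Continuous B' := continuous_iff_continuousAt.mpr fun x => (dB' x).continuousAt
  have sψ := sin_pos_of_pos_of_lt_pi hψ0 hψ1
  have pA : ∀ t, x0 ≤ t → 0 < ψ - B' t := by
    intro t ht
    have : B' t ≤ B' x0 := acot_anti (div_le_div_of_nonneg_right (by linarith) hyb.le)
    simp only [hB'] at this ⊢; linarith
  have pB : ∀ t, x0 ≤ t → 0 < π - ψ - A' t := by
    intro t ht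
    have : A' t ≤ A' x0 := acot_anti (div_le_div_of_nonneg_right (by linarith) hya.le)
    simp only [hA'] at this ⊢; linarith
  have pA' : ∀ t, 0 < A' t := fun t => acot_pos _
  have pB' : ∀ t, 0 < B' t := fun t => acot_pos _
  have sA' : ∀ t, 0 < sin (A' t) := fun t => sin_acot_pos _
  have sB' : ∀ t, 0 < sin (B' t) := fun t => sin_acot_pos _
  have sA : ∀ t, x0 ≤ t → 0 < sin (ψ - B' t) := fun t ht =>
    sin_pos_of_pos_of_lt_pi (pA t ht) (by linarith [pB' t])
  have sB : ∀ t, x0 ≤ t → 0 < sin (ψ + A' t) := fun t ht =>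
    sin_pos_of_pos_of_lt_pi (by linarith [pA' t]) (by linarith [pB t ht])
  have key : ∀ t, yb * (sin (ψ - B' t) * sin (A' t)) = ya * (sin (ψ + A' t) * sin (B' t)) := by
    intro t
    have e1 : ya * cos (A' t) = (t - xa) * sin (A' t) := by
      simp only [hA']; rw [cos_acot]; field_simp
    have e2 : yb * cos (B' t) = (t - xb) * sin (B' t) := by
      simp only [hB']; rw [cos_acot]; field_simp
    rw [sin_sub, sin_add]
    linear_combination (sin ψ * sin (A' t)) * e2 - (sin ψ * sin (B' t)) * e1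
      + (sin (A' t) * sin (B' t)) * hψ
  have := mono_path hG hx (fun _ => da) (fun _ => db)
    (fun t => ya / (2 * sin (ψ - B' t) * sin (A' t))) (fun t => t)
    (fun t => ψ - B' t) (fun t => ψ - B' t + A' t) (fun t => π - B' t)
    continuousOn_const continuousOn_const ?_ continuousOn_id (by fun_prop) (by fun_prop)
    (by fun_prop) ?_ ?_ ?_ ?_ h0
  · exact this
  · apply ContinuousOn.div continuousOn_const (by fun_prop)
    intro t ht
    have := sA t ht.1; have := sA' t; positivity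
  · intro t ht
    refine ⟨(pA t ht.1).le, ?_, ?_, ?_⟩ <;> simp only
    · linarith [pA' t]
    · linarith [pB t ht.1]
    · linarith [pB' t]
  · intro t ht
    have := sA t ht.1; have := sA' t; positivity
  · intro t ht
    have h1 := sA t ht.1
    have h2 := sA' t
    have h3 := key t
    have e : sin (ψ - B' t + (π - B' t - (ψ - B' t + A' t))) = sin (A' t + B' t) := by
      rw [show ψ - B' t + (π - B' t - (ψ - B' t + A' t)) = π - (A' t + B' t) by ring, sin_pi_sub]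
    rw [e, div_mul_eq_mul_div, le_div_iff₀ (by positivity)]
    have e2 : sin (A' t + B' t) * sin ψ =
        sin (ψ - B' t) * sin (A' t) + sin (ψ + A' t) * sin (B' t) := by
      rw [sin_add, sin_sub, sin_add]; ring
    have h4 : (|da - db| * (2 * sin (ψ - B' t) * sin (A' t))) * sin ψ ≤
        (ya * (2 * sin (A' t + B' t))) * sin ψ := by
      have : (ya * (2 * sin (A' t + B' t))) * sin ψ =
          (ya + yb) * (2 * (sin (ψ - B' t) * sin (A' t))) := by
        linear_combination (2 * ya) * e2 - 2 * h3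
      rw [this]
      have h5 : 0 ≤ 2 * (sin (ψ - B' t) * sin (A' t)) := by positivity
      nlinarith
    exact le_of_mul_le_mul_right h4 sψ
  · intro t ht
    have h1 := sA t ht.1
    have h2 := sA' t
    have h3 := key t
    have h4 := sB t ht.1
    have h5 := sB' t
    have dA : HasDerivAt (fun t => ψ - B' t) (sin (B' t) ^ 2 / yb) t := by
      simpa using (dB' t).const_sub ψ
    have dden := (dA.sin.const_mul 2).mul (dA' t).sin
    have dr := (hasDerivAt_const t ya).div dden (by simp only [Pi.mul_apply]; positivity)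
    refine ⟨0, 0, _, 1, _, _, sin (B' t) ^ 2 / yb, by simp, by simp, dr, hasDerivAt_id t, dA,
      dA.add (dA' t), by simpa using (dB' t).const_sub π, ?_⟩
    intro l V g1 g2 g3 _ _ hI
    have hC := hI.2.2
    simp only [Pi.mul_apply] at hC ⊢
    have e1 : sin (π - B' t - (ψ - B' t + A' t)) = sin (ψ + A' t) := by
      rw [show π - B' t - (ψ - B' t + A' t) = π - (ψ + A' t) by ring, sin_pi_sub]
    have e2 : cos (ψ - B' t + (π - B' t - (ψ - B' t + A' t))) = -cos (A' t + B' t) := by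
      rw [show ψ - B' t + (π - B' t - (ψ - B' t + A' t)) = π - (A' t + B' t) by ring, cos_pi_sub]
    have e3 : ψ - B' t + A' t - (ψ - B' t) = A' t := by ring
    have e4 : π - (π - B' t) = B' t := by ring
    rw [e1, e2, e3, e4] at hC
    have e5 : sin (B' t) * cos (ψ - B' t) + cos (A' t + B' t) * sin (ψ - B' t + A' t)
        = -cos (A' t) * -sin (ψ + A' t) := by
      have q1 := sin_sq_add_cos_sq (A' t)
      have q2 := sin_sq_add_cos_sq (B' t)
      simp only [sin_add, cos_add, sin_sub, cos_sub]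
      linear_combination (sin ψ * cos (A' t) ^ 2 + cos ψ * sin (A' t) * cos (A' t)
        - sin ψ * (sin (A' t) ^ 2 + cos (A' t) ^ 2 - 1) * 0 ) * q2
        + (- cos ψ * sin (B' t) * cos (B' t) - sin ψ * sin (B' t) ^ 2) * q1
    set sa := sin (ψ - B' t)
    set sa' := sin (A' t)
    set sb := sin (ψ + A' t)
    set sb' := sin (B' t)
    have hyb' : yb = ya * (sb * sb') / (sa * sa') := by
      rw [eq_div_iff (by positivity)]; exact h3
    have goal : l * 0 + (1 - l) * 0 +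
        (0 * (2 * sa * sa') - ya * (2 * (cos (ψ - B' t) * (sb' ^ 2 / yb)) * sa' +
          2 * sa * (cos (A' t) * -(sa' ^ 2 / ya)))) / (2 * sa * sa') ^ 2 * V +
        ya / (2 * sa * sa') * (g1 * (sb' ^ 2 / yb) + g2 * (sb' ^ 2 / yb + -(sa' ^ 2 / ya)) +
          g3 * (sb' ^ 2 / yb)) - ρ * 1 =
        (-(2 * ρ * (sa * sb)) - (sb' * cos (ψ - B' t) - cos (A' t) * sb) * V - sa' * sb * g2
          + sa * sb' * (g1 + g2 + g3) + (sb' - sa * sb') * 0) / (2 * sa * sb) := by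
      rw [hyb']; field_simp; ring
    rw [goal]
    apply div_nonpos_of_nonpos_of_nonneg _ (by positivity)
    have e6 : sb' * cos (ψ - B' t) - cos (A' t) * sb = -cos (A' t + B' t) * sin (ψ - B' t + A' t) := by
      linear_combination e5
    rw [e6]
    linarith

end Pool.Agent.MP_8fe08c_co.h31

end MrgPart3

-- ======== part 4: formerly Pool.Agent.MP_8fe08c_co.h31.State
section MrgPart4

set_option autoImplicit false

open Real Filter Topology Set

namespace Pool.Agent.MP_8fe08c_co.h31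

/-- Euclidean distance in coordinates. -/
noncomputable def dd (x1 y1 x2 y2 : ℝ) : ℝ := √((x1 - x2) ^ 2 + (y1 - y2) ^ 2)

theorem dd_comm (x1 y1 x2 y2 : ℝ) : dd x1 y1 x2 y2 = dd x2 y2 x1 y1 := by
  unfold dd; congr 1; ring

theorem dd_nonneg (x1 y1 x2 y2 : ℝ) : 0 ≤ dd x1 y1 x2 y2 := sqrt_nonneg _

theorem dd_circ (cx cy r s t : ℝ) (hr : 0 ≤ r) :
    dd (cx + r * sin s) (cy + r * cos s) (cx + r * sin t) (cy + r * cos t)
      = r * (2 * |sin ((t - s) / 2)|) := by
  unfold dd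
  rw [sqrt_eq_iff_mul_self_eq (by positivity) (by positivity)]
  have h1 : cos (t - s) = 1 - 2 * sin ((t - s) / 2) ^ 2 := by
    have := cos_two_mul ((t - s) / 2)
    rw [show 2 * ((t - s) / 2) = t - s by ring] at this
    have h2 := sin_sq_add_cos_sq ((t - s) / 2)
    linarith
  rw [cos_sub] at h1
  have h2 := sin_sq_add_cos_sq s
  have h3 := sin_sq_add_cos_sq t
  have h4 := sq_abs (sin ((t - s) / 2))
  linear_combination -(4 * r ^ 2) * h4 - 2 * r ^ 2 * h1 + r ^ 2 * h2 + r ^ 2 * h3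

theorem det_circ (cx cy r p q s : ℝ) :
    (cx + r * sin (2 * q) - (cx + r * sin (2 * p))) * (cy + r * cos (2 * s) - (cy + r * cos (2 * p)))
    - (cy + r * cos (2 * q) - (cy + r * cos (2 * p))) * (cx + r * sin (2 * s) - (cx + r * sin (2 * p)))
    = 4 * r ^ 2 * (sin (s - p) * sin (q - s) * sin (q - p)) := by
  simp only [sin_sub, sin_two_mul, cos_two_mul]
  have h1 := sin_sq_add_cos_sq p
  have h2 := sin_sq_add_cos_sq q
  have h3 := sin_sq_add_cos_sq s
  set a := sin p; set b := cos p; set c := sin q; set d := cos q; set e := sin s; set f := cos s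
  linear_combination -(4 * r ^ 2 * (c * d * f ^ 2 - d ^ 2 * e * f)) * h1
    - (4 * r ^ 2 * (-(a * b * f ^ 2) + b ^ 2 * e * f)) * h2
    - (4 * r ^ 2 * (a * b * d ^ 2 - b ^ 2 * c * d)) * h3

theorem exists_angle {X Y r : ℝ} (hr : 0 < r) (h : X ^ 2 + Y ^ 2 = r ^ 2) {β : ℝ} (h0 : 0 ≤ β)
    (h1 : β ≤ π) (hY : r * cos β ≤ Y) : ∃ ω, -β ≤ ω ∧ ω ≤ β ∧ X = r * sin ω ∧ Y = r * cos ω := by
  have hy1 : Y / r ≤ 1 := by rw [div_le_one hr]; nlinarith
  have hy0 : -1 ≤ Y / r := by rw [le_div_iff₀ hr]; nlinarith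
  have hθ : arccos (Y / r) ≤ β := by
    have : cos β ≤ Y / r := by rw [le_div_iff₀ hr]; linarith
    have h2 := arccos_le_arccos this
    rwa [arccos_cos h0 h1] at h2
  have hc : r * cos (arccos (Y / r)) = Y := by rw [cos_arccos hy0 hy1]; field_simp
  have hs : r * sin (arccos (Y / r)) = |X| := by
    have h2 : 0 ≤ sin (arccos (Y / r)) :=
      sin_nonneg_of_nonneg_of_le_pi (arccos_nonneg _) (arccos_le_pi _)
    have h3 := sin_sq_add_cos_sq (arccos (Y / r))
    have h4 : (r * sin (arccos (Y / r))) ^ 2 = |X| ^ 2 := by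
      rw [sq_abs]; linear_combination r ^ 2 * h3 - (r * cos (arccos (Y / r)) + Y) * hc - h
    exact (pow_left_inj₀ (by positivity) (abs_nonneg _) two_ne_zero).mp h4
  have hn := arccos_nonneg (Y / r)
  rcases le_total 0 X with hX | hX
  · exact ⟨arccos (Y / r), by linarith, hθ, by rw [hs, abs_of_nonneg hX], hc.symm⟩
  · refine ⟨-arccos (Y / r), by linarith, by linarith, ?_, by rw [cos_neg, hc]⟩
    rw [sin_neg, mul_neg, hs, abs_of_nonpos hX]; ring

theorem exists_up {cx cy r y2 x y : ℝ} (hr : 0 < r) (h0 : 0 ≤ y2) (h1 : y2 ≤ π)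
    (hcy : cy = -(r * cos y2)) (h : (x - cx) ^ 2 + (y - cy) ^ 2 = r ^ 2) (hy : 0 ≤ y) :
    ∃ y1, 0 ≤ y1 ∧ y1 ≤ y2 ∧ x = cx + r * sin (y2 - 2 * y1) ∧ y = cy + r * cos (y2 - 2 * y1) := by
  obtain ⟨ω, h2, h3, h4, h5⟩ := exists_angle hr h h0 h1 (by linarith)
  refine ⟨(y2 - ω) / 2, by linarith, by linarith, ?_, ?_⟩
  · rw [show y2 - 2 * ((y2 - ω) / 2) = ω by ring]; linarith
  · rw [show y2 - 2 * ((y2 - ω) / 2) = ω by ring]; linarith

theorem exists_down {cx cy r y2 x y : ℝ} (hr : 0 < r) (h0 : 0 ≤ y2) (h1 : y2 ≤ π)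
    (hcy : cy = -(r * cos y2)) (h : (x - cx) ^ 2 + (y - cy) ^ 2 = r ^ 2) (hy : y ≤ 0) :
    ∃ y3, y2 ≤ y3 ∧ y3 ≤ π ∧ x = cx + r * sin (2 * y3 - y2) ∧ y = cy + r * cos (2 * y3 - y2) := by
  obtain ⟨ω, h2, h3, h4, h5⟩ := exists_angle (X := x - cx) (Y := -(y - cy)) (β := π - y2) hr
    (by linarith) (by linarith) (by linarith) (by rw [cos_pi_sub]; linarith)
  refine ⟨(π - ω + y2) / 2, by linarith, by linarith, ?_, ?_⟩
  · rw [show 2 * ((π - ω + y2) / 2) - y2 = π - ω by ring, sin_pi_sub]; linarith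
  · rw [show 2 * ((π - ω + y2) / 2) - y2 = π - ω by ring, cos_pi_sub]; linarith

/-- A rung on a circle, with its angles. -/
structure St (cx cy r xa ya xb yb y1 y2 y3 : ℝ) : Prop where
  hr : 0 < r
  dom : Dom (y1, y2, y3)
  hcy : cy = -(r * cos y2)
  hxa : xa = cx + r * sin (y2 - 2 * y1)
  hya : ya = cy + r * cos (y2 - 2 * y1)
  hxb : xb = cx + r * sin (2 * y3 - y2)
  hyb : yb = cy + r * cos (2 * y3 - y2)

theorem St.dist {cx cy r xa ya xb yb y1 y2 y3 : ℝ} (h : St cx cy r xa ya xb yb y1 y2 y3) :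
    dd xa ya xb yb = r * (2 * sin (y1 + (y3 - y2))) := by
  obtain ⟨h1, h2, h3, h4⟩ := h.dom
  simp only at h1 h2 h3 h4
  rw [h.hxa, h.hya, h.hxb, h.hyb, dd_circ _ _ _ _ _ h.hr.le,
    show (2 * y3 - y2 - (y2 - 2 * y1)) / 2 = y1 + (y3 - y2) by ring,
    abs_of_nonneg (sin_nonneg_of_nonneg_of_le_pi (by linarith) (by linarith))]

theorem up_y (r y1 y2 : ℝ) :
    -(r * cos y2) + r * cos (y2 - 2 * y1) = 2 * r * (sin y1 * sin (y2 - y1)) := by
  have h1 : cos y2 = cos (y2 - y1 + y1) := by ring_nf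
  have h2 : cos (y2 - 2 * y1) = cos (y2 - y1 - y1) := by ring_nf
  rw [h1, h2, cos_add, cos_sub (y2 - y1)]; ring

theorem up_x (r y1 y2 : ℝ) :
    r * sin y2 - r * sin (y2 - 2 * y1) = 2 * r * (sin y1 * cos (y2 - y1)) := by
  have h1 : sin y2 = sin (y2 - y1 + y1) := by ring_nf
  have h2 : sin (y2 - 2 * y1) = sin (y2 - y1 - y1) := by ring_nf
  rw [h1, h2, sin_add, sin_sub (y2 - y1)]; ring

theorem down_y (r y2 y3 : ℝ) :
    -(r * cos y2) + r * cos (2 * y3 - y2) = -(2 * r * (sin (y3 - y2) * sin (π - y3))) := by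
  have h1 : cos y2 = cos (y3 - (y3 - y2)) := by ring_nf
  have h2 : cos (2 * y3 - y2) = cos (y3 + (y3 - y2)) := by ring_nf
  rw [h1, h2, cos_add, cos_sub y3 (y3 - y2), sin_pi_sub]; ring

theorem down_x (r y2 y3 : ℝ) :
    r * sin y2 - r * sin (2 * y3 - y2) = 2 * r * (sin (y3 - y2) * cos (π - y3)) := by
  have h1 : sin y2 = sin (y3 - (y3 - y2)) := by ring_nf
  have h2 : sin (2 * y3 - y2) = sin (y3 + (y3 - y2)) := by ring_nf
  rw [h1, h2, sin_add, sin_sub y3 (y3 - y2), cos_pi_sub]; ring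

theorem St.det_up {cx cy r xa ya xb yb y1 y2 y3 : ℝ} (h : St cx cy r xa ya xb yb y1 y2 y3)
    (z : ℝ) :
    (xb - xa) * (cy + r * cos (y2 - 2 * z) - ya) - (yb - ya) * (cx + r * sin (y2 - 2 * z) - xa)
      = 4 * r ^ 2 * (sin (y1 - z) * sin (y3 - y2 + z) * sin (y1 + (y3 - y2))) := by
  have := det_circ cx cy r (y2 / 2 - y1) (y3 - y2 / 2) (y2 / 2 - z)
  rw [show 2 * (y2 / 2 - y1) = y2 - 2 * y1 by ring, show 2 * (y3 - y2 / 2) = 2 * y3 - y2 by ring,
    show 2 * (y2 / 2 - z) = y2 - 2 * z by ring, show y2 / 2 - z - (y2 / 2 - y1) = y1 - z by ring,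
    show y3 - y2 / 2 - (y2 / 2 - z) = y3 - y2 + z by ring,
    show y3 - y2 / 2 - (y2 / 2 - y1) = y1 + (y3 - y2) by ring, ← h.hxa, ← h.hya, ← h.hxb,
    ← h.hyb] at this
  exact this

theorem St.det_down {cx cy r xa ya xb yb y1 y2 y3 : ℝ} (h : St cx cy r xa ya xb yb y1 y2 y3)
    (z : ℝ) :
    (xb - xa) * (cy + r * cos (2 * z - y2) - ya) - (yb - ya) * (cx + r * sin (2 * z - y2) - xa)
      = 4 * r ^ 2 * (sin (y1 + (z - y2)) * sin (y3 - z) * sin (y1 + (y3 - y2))) := by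
  have := det_circ cx cy r (y2 / 2 - y1) (y3 - y2 / 2) (z - y2 / 2)
  rw [show 2 * (y2 / 2 - y1) = y2 - 2 * y1 by ring, show 2 * (y3 - y2 / 2) = 2 * y3 - y2 by ring,
    show 2 * (z - y2 / 2) = 2 * z - y2 by ring,
    show z - y2 / 2 - (y2 / 2 - y1) = y1 + (z - y2) by ring,
    show y3 - y2 / 2 - (z - y2 / 2) = y3 - z by ring,
    show y3 - y2 / 2 - (y2 / 2 - y1) = y1 + (y3 - y2) by ring, ← h.hxa, ← h.hya, ← h.hxb,
    ← h.hyb] at this
  exact this

variable {ι κ : Type} [Fintype ι] [Finite κ] {ρ : ℝ} {lam : ι → ℝ}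
    {U : ι → ℝ × ℝ × ℝ → ℝ} {S : ι → κ → Set (ℝ × ℝ × ℝ)}

/-- The invariant carried along the chain of triangles. -/
def Inv (ρ : ℝ) (lam : ι → ℝ) (U : ι → ℝ × ℝ × ℝ → ℝ) (cx cy r xa ya xb yb da db : ℝ) : Prop :=
  ∃ y1 y2 y3, St cx cy r xa ya xb yb y1 y2 y3 ∧
    Pot ρ lam U da db r (cx + r * sin y2) (y1, y2, y3)

omit [Fintype ι] [Finite κ] in
theorem Pot.mono (hG : Good ρ lam U S) {da db da' db' r x : ℝ} {y : ℝ × ℝ × ℝ}
    (h : Pot ρ lam U da db r x y) (ha : da' ≤ da) (hb : db' ≤ db) : Pot ρ lam U da' db' r x y := by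
  obtain ⟨i, hi⟩ := h
  refine ⟨i, ?_⟩
  have := hG.lam0 i
  have := hG.lam1 i
  nlinarith

theorem abs_sin_le_of_nonneg {t : ℝ} (ht : 0 ≤ t) : |sin t| ≤ t := by
  have := abs_sin_le_abs (x := t)
  rwa [abs_of_nonneg ht] at this

theorem stepA (hG : Good ρ lam U S) {cx cy r xa ya xb yb y1 y2 y3 da db z dc : ℝ}
    (h : St cx cy r xa ya xb yb y1 y2 y3)
    (hP : Pot ρ lam U da db r (cx + r * sin y2) (y1, y2, y3)) (hz0 : 0 ≤ z) (hz1 : z ≤ y1)
    (hd : |da - db| ≤ dd xa ya xb yb)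
    (h1 : dc ≤ da + dd xa ya (cx + r * sin (y2 - 2 * z)) (cy + r * cos (y2 - 2 * z)))
    (h2 : dc ≤ db + dd (cx + r * sin (y2 - 2 * z)) (cy + r * cos (y2 - 2 * z)) xb yb) :
    St cx cy r (cx + r * sin (y2 - 2 * z)) (cy + r * cos (y2 - 2 * z)) xb yb z y2 y3 ∧
    Pot ρ lam U dc db r (cx + r * sin y2) (z, y2, y3) := by
  have hS : St cx cy r (cx + r * sin (y2 - 2 * z)) (cy + r * cos (y2 - 2 * z)) xb yb z y2 y3 :=
    ⟨h.hr, ⟨hz0, hz1.trans h.dom.2.1, h.dom.2.2.1, h.dom.2.2.2⟩, h.hcy, rfl, rfl, h.hxb, h.hyb⟩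
  refine ⟨hS, ?_⟩
  rw [h.dist] at hd
  refine (moveA hG h.hr h.dom hz0 hz1 hd hP).mono hG (le_min ?_ ?_) le_rfl
  · rw [h.hxa, h.hya, dd_circ _ _ _ _ _ h.hr.le,
      show (y2 - 2 * z - (y2 - 2 * y1)) / 2 = y1 - z by ring] at h1
    have := abs_sin_le_of_nonneg (t := y1 - z) (by linarith)
    have := h.hr
    nlinarith
  · rw [hS.dist] at h2; exact h2

theorem stepB (hG : Good ρ lam U S) {cx cy r xa ya xb yb y1 y2 y3 da db z dc : ℝ}
    (h : St cx cy r xa ya xb yb y1 y2 y3)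
    (hP : Pot ρ lam U da db r (cx + r * sin y2) (y1, y2, y3)) (hz0 : y2 ≤ z) (hz1 : z ≤ y3)
    (hd : |da - db| ≤ dd xa ya xb yb)
    (h1 : dc ≤ db + dd xb yb (cx + r * sin (2 * z - y2)) (cy + r * cos (2 * z - y2)))
    (h2 : dc ≤ da + dd xa ya (cx + r * sin (2 * z - y2)) (cy + r * cos (2 * z - y2))) :
    St cx cy r xa ya (cx + r * sin (2 * z - y2)) (cy + r * cos (2 * z - y2)) y1 y2 z ∧
    Pot ρ lam U da dc r (cx + r * sin y2) (y1, y2, z) := by
  have hS : St cx cy r xa ya (cx + r * sin (2 * z - y2)) (cy + r * cos (2 * z - y2)) y1 y2 z :=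
    ⟨h.hr, ⟨h.dom.1, h.dom.2.1, hz0, hz1.trans h.dom.2.2.2⟩, h.hcy, h.hxa, h.hya, rfl, rfl⟩
  refine ⟨hS, ?_⟩
  rw [h.dist] at hd
  refine (moveB hG h.hr h.dom hz0 hz1 hd hP).mono hG le_rfl (le_min ?_ ?_)
  · rw [h.hxb, h.hyb, dd_comm, dd_circ _ _ _ _ _ h.hr.le,
      show (2 * y3 - y2 - (2 * z - y2)) / 2 = y3 - z by ring] at h1
    have := abs_sin_le_of_nonneg (t := y3 - z) (by linarith)
    have := h.hr
    nlinarith
  · rw [hS.dist] at h2; exact h2

theorem invA_aux (hG : Good ρ lam U S) {cx cy r xa ya xb yb da db xc yc dc : ℝ}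
    (h : Inv ρ lam U cx cy r xa ya xb yb da db) (hd : |da - db| ≤ dd xa ya xb yb)
    (hc : (xc - cx) ^ 2 + (yc - cy) ^ 2 = r ^ 2) (hy : 0 ≤ yc)
    (hf : 0 < (xb - xa) * (yc - ya) - (yb - ya) * (xc - xa))
    (h1 : dc ≤ da + dd xa ya xc yc) (h2 : dc ≤ db + dd xc yc xb yb) :
    ∃ z y2 y3, z < y2 ∧ St cx cy r xc yc xb yb z y2 y3 ∧
      Pot ρ lam U dc db r (cx + r * sin y2) (z, y2, y3) := by
  obtain ⟨y1, y2, y3, hS, hP⟩ := h
  obtain ⟨d1, d2, d3, d4⟩ := hS.dom
  simp only at d1 d2 d3 d4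
  obtain ⟨z, z0, z1, hx, hy⟩ := exists_up hS.hr (by linarith) (by linarith) hS.hcy hc hy
  subst hx hy
  rw [hS.det_up] at hf
  have hz : z < y1 := by
    by_contra hcon
    push Not at hcon
    have s1 : sin (y1 - z) ≤ 0 := sin_nonpos_of_nonpos_of_neg_pi_le (by linarith) (by linarith)
    have s2 : 0 ≤ sin (y3 - y2 + z) := sin_nonneg_of_nonneg_of_le_pi (by linarith) (by linarith)
    have s3 : 0 ≤ sin (y1 + (y3 - y2)) := sin_nonneg_of_nonneg_of_le_pi (by linarith) (by linarith)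
    have := mul_nonpos_of_nonpos_of_nonneg (mul_nonpos_of_nonpos_of_nonneg s1 s2) s3
    nlinarith [sq_nonneg r]
  obtain ⟨a, b⟩ := stepA hG hS hP z0 hz.le hd h1 h2
  exact ⟨z, y2, y3, by linarith, a, b⟩

theorem invA (hG : Good ρ lam U S) {cx cy r xa ya xb yb da db xc yc dc : ℝ}
    (h : Inv ρ lam U cx cy r xa ya xb yb da db) (hd : |da - db| ≤ dd xa ya xb yb)
    (hc : (xc - cx) ^ 2 + (yc - cy) ^ 2 = r ^ 2) (hy : 0 ≤ yc)
    (hf : 0 < (xb - xa) * (yc - ya) - (yb - ya) * (xc - xa))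
    (h1 : dc ≤ da + dd xa ya xc yc) (h2 : dc ≤ db + dd xc yc xb yb) :
    Inv ρ lam U cx cy r xc yc xb yb dc db := by
  obtain ⟨z, y2, y3, -, a, b⟩ := invA_aux hG h hd hc hy hf h1 h2
  exact ⟨z, y2, y3, a, b⟩

theorem invEnd (hG : Good ρ lam U S) {cx cy r xa ya xb yb da db xc dc : ℝ}
    (h : Inv ρ lam U cx cy r xa ya xb yb da db) (hd : |da - db| ≤ dd xa ya xb yb)
    (hc : (xc - cx) ^ 2 + (0 - cy) ^ 2 = r ^ 2)
    (hf : 0 < (xb - xa) * (0 - ya) - (yb - ya) * (xc - xa))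
    (h1 : dc ≤ da + dd xa ya xc 0) (h2 : dc ≤ db + dd xc 0 xb yb) :
    dc ≤ ρ * xc := by
  obtain ⟨z, y2, y3, hz, hS, i, hi⟩ := invA_aux hG h hd hc le_rfl hf h1 h2
  obtain ⟨d1, d2, d3, d4⟩ := hS.dom
  simp only at d1 d2 d3 d4
  have hz0 : z = 0 := by
    by_contra hne
    have hp : 0 < z := lt_of_le_of_ne d1 (Ne.symm hne)
    have s1 : 0 < sin z := sin_pos_of_pos_of_lt_pi hp (by linarith)
    have s2 : 0 < sin (y2 - z) := sin_pos_of_pos_of_lt_pi (by linarith) (by linarith)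
    have := hS.hya
    rw [hS.hcy, up_y] at this
    have := hS.hr
    have : 0 < 2 * r * (sin z * sin (y2 - z)) := by positivity
    linarith
  subst hz0
  have ht := hG.term i _ hS.dom rfl
  simp only at ht
  rw [hS.dist, zero_add] at h2
  have hx := hS.hxa
  rw [mul_zero, sub_zero] at hx
  rw [← hx] at hi
  have := hG.lam0 i
  have := hG.lam1 i
  have := hS.hr
  have h5 : r * ((1 - lam i) * (2 * sin (y3 - y2))) ≤ r * U i (0, y2, y3) := by gcongr
  nlinarith

theorem invB (hG : Good ρ lam U S) {cx cy r xa ya xb yb da db xc yc dc : ℝ}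
    (h : Inv ρ lam U cx cy r xa ya xb yb da db) (hd : |da - db| ≤ dd xa ya xb yb)
    (hc : (xc - cx) ^ 2 + (yc - cy) ^ 2 = r ^ 2) (hy : yc ≤ 0)
    (hf : 0 < (xb - xa) * (yc - ya) - (yb - ya) * (xc - xa))
    (h1 : dc ≤ da + dd xa ya xc yc) (h2 : dc ≤ db + dd xc yc xb yb) :
    Inv ρ lam U cx cy r xa ya xc yc da dc := by
  obtain ⟨y1, y2, y3, hS, hP⟩ := h
  obtain ⟨d1, d2, d3, d4⟩ := hS.dom
  simp only at d1 d2 d3 d4
  obtain ⟨z, z0, z1, hx, hy⟩ := exists_down hS.hr (by linarith) (by linarith) hS.hcy hc hy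
  subst hx hy
  rw [hS.det_down] at hf
  have hz : z < y3 := by
    by_contra hcon
    push Not at hcon
    have s1 : sin (y3 - z) ≤ 0 := sin_nonpos_of_nonpos_of_neg_pi_le (by linarith) (by linarith)
    have s2 : 0 ≤ sin (y1 + (z - y2)) := sin_nonneg_of_nonneg_of_le_pi (by linarith) (by linarith)
    have s3 : 0 ≤ sin (y1 + (y3 - y2)) := sin_nonneg_of_nonneg_of_le_pi (by linarith) (by linarith)
    have := mul_nonpos_of_nonpos_of_nonneg (mul_nonpos_of_nonneg_of_nonpos s2 s1) s3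
    nlinarith [sq_nonneg r]
  obtain ⟨a, b⟩ := stepB hG hS hP z0 hz.le hd (by rw [dd_comm]; exact h2) h1
  exact ⟨y1, y2, z, a, b⟩

theorem exists_mid {cy r : ℝ} (hr : 0 < r) (h : cy ^ 2 ≤ r ^ 2) :
    ∃ y2, 0 ≤ y2 ∧ y2 ≤ π ∧ cy = -(r * cos y2) := by
  have := abs_le_of_sq_le_sq' h hr.le
  refine ⟨arccos (-cy / r), arccos_nonneg _, arccos_le_pi _, ?_⟩
  rw [cos_arccos (by rw [le_div_iff₀ hr]; linarith) (by rw [div_le_one hr]; linarith)]
  field_simp

theorem invStart (hG : Good ρ lam U S) {cx cy r xa ya xb yb da db : ℝ} (hr : 0 < r)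
    (hu : (0 - cx) ^ 2 + (0 - cy) ^ 2 = r ^ 2)
    (ha : (xa - cx) ^ 2 + (ya - cy) ^ 2 = r ^ 2) (hb : (xb - cx) ^ 2 + (yb - cy) ^ 2 = r ^ 2)
    (hya : 0 ≤ ya) (hyb : yb ≤ 0)
    (hf : (xb - xa) * (0 - ya) - (yb - ya) * (0 - xa) < 0)
    (h1 : |da| ≤ dd 0 0 xa ya) (h2 : db ≤ dd 0 0 xb yb) (h3 : db ≤ da + dd xa ya xb yb) :
    Inv ρ lam U cx cy r xa ya xb yb da db := by
  obtain ⟨y2, p0, p1, hcy⟩ := exists_mid (cy := cy) hr (by nlinarith [sq_nonneg cx])
  obtain ⟨y1, a0, a1, hxa, hya'⟩ := exists_up hr p0 p1 hcy ha hya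
  obtain ⟨y3, b0, b1, hxb, hyb'⟩ := exists_down hr p0 p1 hcy hb hyb
  obtain ⟨w, w0, w1, hxw, hyw⟩ := exists_up hr p0 p1 hcy hu le_rfl
  have hS : St cx cy r xa ya xb yb y1 y2 y3 := ⟨hr, ⟨a0, a1, b0, b1⟩, hcy, hxa, hya', hxb, hyb'⟩
  have hdet := hS.det_up w
  rw [← hxw, ← hyw] at hdet
  rw [hdet] at hf
  have hw : y1 < w := by
    by_contra hcon
    push Not at hcon
    have s1 : 0 ≤ sin (y1 - w) := sin_nonneg_of_nonneg_of_le_pi (by linarith) (by linarith)
    have s2 : 0 ≤ sin (y3 - y2 + w) := sin_nonneg_of_nonneg_of_le_pi (by linarith) (by linarith)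
    have s3 : 0 ≤ sin (y1 + (y3 - y2)) := sin_nonneg_of_nonneg_of_le_pi (by linarith) (by linarith)
    have : 0 ≤ 4 * r ^ 2 * (sin (y1 - w) * sin (y3 - y2 + w) * sin (y1 + (y3 - y2))) := by
      positivity
    linarith
  have hw2 : w = y2 := by
    by_contra hne
    have hp : w < y2 := lt_of_le_of_ne w1 hne
    have s1 : 0 < sin w := sin_pos_of_pos_of_lt_pi (by linarith) (by linarith)
    have s2 : 0 < sin (y2 - w) := sin_pos_of_pos_of_lt_pi (by linarith) (by linarith)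
    rw [hcy, up_y] at hyw
    have : 0 < 2 * r * (sin w * sin (y2 - w)) := by positivity
    linarith
  subst hw2
  have hS0 : St cx cy r 0 0 0 0 w w π := by
    refine ⟨hr, ⟨p0, le_rfl, p1, le_rfl⟩, hcy, hxw, hyw, ?_, ?_⟩
    · rw [hxw, show 2 * π - w = (w - 2 * w) + 2 * π by ring, sin_add_two_pi]
    · rw [hyw, show 2 * π - w = (w - 2 * w) + 2 * π by ring, cos_add_two_pi]
  have hP0 : Pot ρ lam U 0 0 r (cx + r * sin w) (w, w, π) := by
    obtain ⟨i, hi⟩ := hG.start w p0 p1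
    refine ⟨i, ?_⟩
    rw [show w - 2 * w = -w by ring, sin_neg] at hxw
    have : cx = r * sin w := by linarith
    rw [this]
    nlinarith
  have habs := abs_le.mp h1
  obtain ⟨hS1, hP1⟩ := stepA (dc := da) hG hS0 hP0 a0 hw.le (by simpa using dd_nonneg 0 0 0 0)
    (by rw [← hxa, ← hya']; linarith) (by rw [← hxa, ← hya', dd_comm]; linarith)
  rw [← hxa, ← hya'] at hS1
  obtain ⟨hS2, hP2⟩ := stepB (dc := db) hG hS1 hP1 b0 b1 (by rw [sub_zero, dd_comm]; exact h1)
    (by rw [← hxb, ← hyb']; linarith) (by rw [← hxb, ← hyb']; linarith)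
  exact ⟨y1, w, y3, hS, hP2⟩

theorem St.param {cx cy r xa ya xb yb y1 y2 y3 : ℝ} (h : St cx cy r xa ya xb yb y1 y2 y3)
    (hya : 0 < ya) (hyb : yb < 0) :
    0 < y1 ∧ y2 < y3 ∧ acot ((cx + r * sin y2 - xa) / ya) = y2 - y1 ∧
      acot ((cx + r * sin y2 - xb) / (-yb)) = π - y3 ∧
      r = ya / (2 * sin y1 * sin (y2 - y1)) ∧
      0 < y1 + (π - y3) ∧ y1 + (π - y3) < π ∧
      (xa - xb) * sin (y1 + (π - y3)) = (ya + -yb) * cos (y1 + (π - y3)) ∧
      dd xa ya xb yb * sin (y1 + (π - y3)) = ya + -yb := by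
  obtain ⟨d1, d2, d3, d4⟩ := h.dom
  simp only at d1 d2 d3 d4
  have hr := h.hr
  have e1 : ya = 2 * r * (sin y1 * sin (y2 - y1)) := by rw [h.hya, h.hcy, up_y]
  have e2 : -yb = 2 * r * (sin (y3 - y2) * sin (π - y3)) := by rw [h.hyb, h.hcy, down_y]; ring
  have e3 : cx + r * sin y2 - xa = 2 * r * (sin y1 * cos (y2 - y1)) := by
    rw [h.hxa, ← up_x]; ring
  have e4 : cx + r * sin y2 - xb = 2 * r * (sin (y3 - y2) * cos (π - y3)) := by
    rw [h.hxb, ← down_x]; ring
  have n1 : sin y1 ≠ 0 := by intro h0; rw [h0] at e1; linarith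
  have n2 : sin (y2 - y1) ≠ 0 := by intro h0; rw [h0] at e1; linarith
  have n3 : sin (y3 - y2) ≠ 0 := by intro h0; rw [h0] at e2; linarith
  have n4 : sin (π - y3) ≠ 0 := by intro h0; rw [h0] at e2; linarith
  have p1 : 0 < y1 := lt_of_le_of_ne d1 (by intro h0; rw [← h0] at n1; simp at n1)
  have p2 : 0 < y2 - y1 := lt_of_le_of_ne (by linarith) (by intro h0; rw [← h0] at n2; simp at n2)
  have p3 : 0 < y3 - y2 := lt_of_le_of_ne (by linarith) (by intro h0; rw [← h0] at n3; simp at n3)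
  have p4 : 0 < π - y3 := lt_of_le_of_ne (by linarith) (by intro h0; rw [← h0] at n4; simp at n4)
  refine ⟨p1, by linarith, ?_, ?_, ?_, by linarith, by linarith, ?_, ?_⟩
  · apply acot_eq p2 (by linarith)
    rw [e3, e1]; field_simp
  · apply acot_eq p4 (by linarith)
    rw [e4, e2]; field_simp
  · rw [e1]; field_simp
  · have : xa - xb = 2 * r * (sin (y3 - y2) * cos (π - y3)) - 2 * r * (sin y1 * cos (y2 - y1)) := by
      linarith
    rw [this, e1, e2]
    have e5 : y3 - y2 = π - (y1 + (π - y3) + (y2 - y1)) := by ring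
    rw [e5, sin_pi_sub]
    have hA : sin y1 = sin (y1 + (π - y3)) * cos (π - y3) - cos (y1 + (π - y3)) * sin (π - y3) := by
      rw [← sin_sub]; ring_nf
    generalize y2 - y1 = a'
    rw [sin_add (y1 + (π - y3))]
    generalize y1 + (π - y3) = ψ at hA
    rw [hA]; ring
  · rw [h.dist, e1, e2]
    have e5 : y3 - y2 = π - (y1 + (π - y3) + (y2 - y1)) := by ring
    have e6 : y1 + (y3 - y2) = π - ((π - y3) + (y2 - y1)) := by ring
    rw [e6, e5, sin_pi_sub, sin_pi_sub]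
    generalize y2 - y1 = a'
    generalize π - y3 = b'
    simp only [sin_add, cos_add]
    have q2 := sin_sq_add_cos_sq b'
    linear_combination (2 * r * sin y1 * sin a') * q2

theorem invC (hG : Good ρ lam U S) {cx cy r xa ya xb yb da db cx' cy' r' t : ℝ}
    (h : Inv ρ lam U cx cy r xa ya xb yb da db) (hd : |da - db| ≤ dd xa ya xb yb)
    (hya : 0 < ya) (hyb : yb < 0) (hr' : 0 < r') (ht : 0 ≤ t)
    (ha : (xa - cx') ^ 2 + (ya - cy') ^ 2 = r' ^ 2) (hb : (xb - cx') ^ 2 + (yb - cy') ^ 2 = r' ^ 2)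
    (hO : ∀ x y : ℝ, (x - cx') ^ 2 + (y - cy') ^ 2 - r' ^ 2 = (x - cx) ^ 2 + (y - cy) ^ 2 - r ^ 2
      - t * ((xb - xa) * (y - ya) - (yb - ya) * (x - xa))) :
    Inv ρ lam U cx' cy' r' xa ya xb yb da db := by
  obtain ⟨y1, y2, y3, hS, hP⟩ := h
  obtain ⟨d1, d2, d3, d4⟩ := hS.dom
  simp only at d1 d2 d3 d4
  have hcy2 : cy' ^ 2 ≤ r' ^ 2 := by
    rcases le_total 0 cy' with h0 | h0
    · nlinarith [sq_nonneg (xb - cx')]
    · nlinarith [sq_nonneg (xa - cx')]
  obtain ⟨z2, p0, p1, hcy⟩ := exists_mid hr' hcy2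
  obtain ⟨z1, a0, a1, hxa, hya'⟩ := exists_up hr' p0 p1 hcy ha hya.le
  obtain ⟨z3, b0, b1, hxb, hyb'⟩ := exists_down hr' p0 p1 hcy hb hyb.le
  have hS' : St cx' cy' r' xa ya xb yb z1 z2 z3 :=
    ⟨hr', ⟨a0, a1, b0, b1⟩, hcy, hxa, hya', hxb, hyb'⟩
  refine ⟨z1, z2, z3, hS', ?_⟩
  obtain ⟨q1, q2, q3, q4, q5, q6, q7, q8, q9⟩ := hS.param hya hyb
  obtain ⟨u1, u2, u3, u4, u5, u6, u7, u8, u9⟩ := hS'.param hya hyb
  have hψ : z1 + (π - z3) = y1 + (π - y3) := by
    have h0 : (ya + -yb) * sin (z1 + (π - z3) - (y1 + (π - y3))) = 0 := by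
      rw [sin_sub]
      linear_combination (- sin (z1 + (π - z3))) * q8 + sin (y1 + (π - y3)) * u8
    have h1 : sin (z1 + (π - z3) - (y1 + (π - y3))) = 0 := by
      rcases mul_eq_zero.mp h0 with h | h
      · linarith
      · exact h
    have := (sin_eq_zero_iff_of_lt_of_lt (by linarith) (by linarith)).mp h1
    linarith
  have hx : cx + r * sin y2 ≤ cx' + r' * sin z2 := by
    have h1 := hO (cx + r * sin y2) 0
    have h2 := hS.det_up 0
    have h3 : cy + r * cos y2 = 0 := by rw [hS.hcy]; ring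
    simp only [mul_zero, sub_zero, add_zero] at h2
    rw [h3] at h2
    rw [h2] at h1
    have s1 : 0 ≤ sin y1 := sin_nonneg_of_nonneg_of_le_pi (by linarith) (by linarith)
    have s2 : 0 ≤ sin (y3 - y2) := sin_nonneg_of_nonneg_of_le_pi (by linarith) (by linarith)
    have s3 : 0 ≤ sin (y1 + (y3 - y2)) := sin_nonneg_of_nonneg_of_le_pi (by linarith) (by linarith)
    have s4 : 0 ≤ sin z2 := sin_nonneg_of_nonneg_of_le_pi p0 p1
    have h4 : 0 ≤ t * (4 * r ^ 2 * (sin y1 * sin (y3 - y2) * sin (y1 + (y3 - y2)))) := by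
      positivity
    have h5 := sin_sq_add_cos_sq y2
    have h6 := sin_sq_add_cos_sq z2
    have h7 : (cx + r * sin y2 - cx') ^ 2 ≤ (r' * sin z2) ^ 2 := by
      rw [hcy, hS.hcy] at h1
      nlinarith
    have := abs_le_of_sq_le_sq' h7 (by positivity)
    linarith
  have := moveC hG (da := da) (db := db) (xa := xa) (xb := xb) hya (neg_pos.mpr hyb) q6 q7 q8 hx
    (by rw [q4]; linarith) (by rw [q3]; linarith)
    (by rw [← q9]; exact mul_le_mul_of_nonneg_right hd (sin_pos_of_pos_of_lt_pi q6 q7).le)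
    (by
      rw [q3, q4, show y1 + (π - y3) - (π - y3) = y1 by ring, show y1 + (y2 - y1) = y2 by ring,
        show π - (π - y3) = y3 by ring, ← q5]
      exact hP)
  rw [u3, u4, ← hψ, show z1 + (π - z3) - (π - z3) = z1 by ring, show z1 + (z2 - z1) = z2 by ring,
        show π - (π - z3) = z3 by ring, ← u5] at this
  exact this

end Pool.Agent.MP_8fe08c_co.h31

end MrgPart4

-- ======== part 5: formerly Pool.Agent.MP_8fe08c_co.h31.Chain
section MrgPart5

set_option autoImplicit false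

open Real

namespace Pool.Agent.MP_8fe08c_co.h31

variable {ι κ : Type} [Fintype ι] [Finite κ] {ρ : ℝ} {lam : ι → ℝ}
    {U : ι → ℝ × ℝ × ℝ → ℝ} {S : ι → κ → Set (ℝ × ℝ × ℝ)}
    {V : Type} {X Y : V → ℝ} {ix : V → ℕ}

/-- Abscissa of the point where the segment from `a` to `b` meets the axis. -/
noncomputable def key (X Y : V → ℝ) (a b : V) : ℝ := (X b * Y a - X a * Y b) / (Y a - Y b)

theorem inside_key (hinj : ∀ p q, X p = X q → Y p = Y q → p = q) {cx cy R : ℝ} {a b : V}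
    (ta : pw X Y cx cy R a = 0) (tb : pw X Y cx cy R b = 0) (ha : 0 < Y a) (hb : Y b < 0) :
    (key X Y a b - cx) ^ 2 + (0 - cy) ^ 2 - R < 0 := by
  have hne : a ≠ b := by intro e; rw [e] at ha; linarith
  have h1 := sq_pos_of_ne hinj hne
  have h2 : 0 < Y a - Y b := by linarith
  have hk : key X Y a b * (Y a - Y b) = X b * Y a - X a * Y b := by
    unfold key; field_simp
  unfold pw at ta tb
  have h3 : ((key X Y a b - cx) ^ 2 + (0 - cy) ^ 2 - R) * (Y a - Y b) ^ 2 =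
      Y a * Y b * ((X a - X b) ^ 2 + (Y a - Y b) ^ 2) := by
    linear_combination (key X Y a b * (Y a - Y b) + (X b * Y a - X a * Y b)
      - 2 * cx * (Y a - Y b)) * hk + (-(Y b) * (Y a - Y b)) * ta + (Y a * (Y a - Y b)) * tb
  have h4 : Y a * Y b * ((X a - X b) ^ 2 + (Y a - Y b) ^ 2) < 0 :=
    mul_neg_of_neg_of_pos (mul_neg_of_pos_of_neg ha hb) h1
  by_contra hc
  push Not at hc
  have := mul_nonneg hc (sq_nonneg (Y a - Y b))
  linarith

theorem conv_q {cx c k1 k2 d : ℝ} (h1 : (k1 - cx) ^ 2 + c < 0) (h2 : (k2 - cx) ^ 2 + c ≤ 0)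
    (h3 : k1 < d) (h4 : d ≤ k2) (h5 : d < k2 ∨ (k2 - cx) ^ 2 + c < 0) : (d - cx) ^ 2 + c < 0 := by
  rcases eq_or_lt_of_le h4 with h | h
  · rcases h5 with h5 | h5
    · linarith
    · rw [h]; exact h5
  · have e : ((d - cx) ^ 2 + c) * (k2 - k1) = (k2 - d) * ((k1 - cx) ^ 2 + c)
        + (d - k1) * ((k2 - cx) ^ 2 + c) - (k2 - d) * (d - k1) * (k2 - k1) := by ring
    have a1 : (k2 - d) * ((k1 - cx) ^ 2 + c) < 0 := mul_neg_of_pos_of_neg (by linarith) h1
    have a2 : (d - k1) * ((k2 - cx) ^ 2 + c) ≤ 0 :=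
      mul_nonpos_of_nonneg_of_nonpos (by linarith) h2
    have a3 : 0 ≤ (k2 - d) * (d - k1) * (k2 - k1) :=
      mul_nonneg (mul_nonneg (by linarith) (by linarith)) (by linarith)
    by_contra hc
    push Not at hc
    have := mul_nonneg hc (show 0 ≤ k2 - k1 by linarith)
    linarith

theorem rad_pos (hinj : ∀ p q, X p = X q → Y p = Y q → p = q) {cx cy R : ℝ} {a b : V}
    (ta : pw X Y cx cy R a = 0) (tb : pw X Y cx cy R b = 0) (hne : a ≠ b) : 0 < R := by
  have h1 := sq_pos_of_ne hinj hne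
  unfold pw at ta tb
  nlinarith [sq_nonneg (X a - cx + (X b - cx)), sq_nonneg (Y a - cy + (Y b - cy))]

theorem lip_abs {D : V → ℝ}
    (hD : ∀ p q, Adj X Y ix p q → D q ≤ D p + dd (X p) (Y p) (X q) (Y q)) {p q : V}
    (h : Adj X Y ix p q) : |D p - D q| ≤ dd (X p) (Y p) (X q) (Y q) := by
  have h1 := hD p q h
  have h2 := hD q p h.symm
  rw [dd_comm] at h2
  rw [abs_le]; constructor <;> linarith

variable [Fintype V]

theorem chain (hG : Good ρ lam U S) (hinj : ∀ p q, X p = X q → Y p = Y q → p = q)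
    (hix : Function.Injective ix) {D : V → ℝ}
    (hD : ∀ p q, Adj X Y ix p q → D q ≤ D p + dd (X p) (Y p) (X q) (Y q))
    {v : V} {d : ℝ} (hv : X v = d) (hv' : Y v = 0)
    (hno : ∀ w, Y w = 0 → 0 < X w → X w < d → False) :
    ∀ s : V × V, ∀ cx cy R : ℝ, 0 < Y s.1 → Y s.2 < 0 → Wit X Y ix s.1 s.2 cx cy R →
      0 < key X Y s.1 s.2 → key X Y s.1 s.2 < d →
      Inv ρ lam U cx cy (√R) (X s.1) (Y s.1) (X s.2) (Y s.2) (D s.1) (D s.2) → D v ≤ ρ * d := by
  have wf : WellFounded (fun t s : V × V => key X Y s.1 s.2 < key X Y t.1 t.2) := by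
    have : IsTrans (V × V) (fun t s : V × V => key X Y s.1 s.2 < key X Y t.1 t.2) :=
      ⟨fun a b c h1 h2 => lt_trans h2 h1⟩
    have : Std.Irrefl (fun t s : V × V => key X Y s.1 s.2 < key X Y t.1 t.2) :=
      ⟨fun a => lt_irrefl _⟩
    exact Finite.wellFounded_of_trans_of_irrefl _
  intro s
  induction s using wf.induction with
  | _ s ih =>
  obtain ⟨a, b⟩ := s
  intro cx cy R ha hb hW k0 k1 hI
  simp only at ha hb hW k0 k1 hI ih
  have hab : a ≠ b := by intro e; rw [e] at ha; linarith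
  have hp : 0 < Y a - Y b := by linarith
  have hk : key X Y a b * (Y a - Y b) = X b * Y a - X a * Y b := by
    unfold key; field_simp
  have hfv : 0 < dt X Y a b v := by
    unfold dt; rw [hv, hv']
    have := mul_pos (sub_pos.mpr k1) hp
    linarith
  obtain ⟨c, cx', cy', R', t, ht, hO, hc, W1, W2⟩ := pivot hinj hix hW hab hfv
  have hR := rad_pos hinj hW.tp hW.tq hab
  have hR' := rad_pos hinj W1.tp W2.tq hab
  have hac : a ≠ c := by
    intro e; rw [← e] at hc; unfold dt at hc; linarith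
  have hcb : c ≠ b := by
    intro e; rw [e] at hc; unfold dt at hc; linarith
  have Aab : Adj X Y ix a b := ⟨hab, _, _, _, hW⟩
  have Aac : Adj X Y ix a c := ⟨hac, _, _, _, W1⟩
  have Acb : Adj X Y ix c b := ⟨hcb, _, _, _, W2⟩
  have tight : ∀ w, pw X Y cx' cy' R' w = 0 → (X w - cx') ^ 2 + (Y w - cy') ^ 2 = √R' ^ 2 := by
    intro w hw; rw [sq_sqrt hR'.le]; unfold pw at hw; linarith
  have hI' : Inv ρ lam U cx' cy' (√R') (X a) (Y a) (X b) (Y b) (D a) (D b) := by
    refine invC hG hI (lip_abs hD Aab) ha hb (sqrt_pos.mpr hR') ht (tight a W1.tp) (tight b W2.tq) ?_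
    intro x y
    rw [sq_sqrt hR'.le, sq_sqrt hR.le]; exact hO x y
  have h1 := hD a c Aac
  have h2 := hD b c Acb.symm
  rw [dd_comm] at h2
  have q1 := inside_key hinj W1.tp W2.tq ha hb
  have qv := W1.emp v
  unfold pw at qv
  rw [hv, hv'] at qv
  have q1' : (key X Y a b - cx') ^ 2 + ((0 - cy') ^ 2 - R') < 0 := by linarith
  rcases lt_trichotomy 0 (Y c) with hy | hy | hy
  · have hp' : 0 < Y c - Y b := by linarith
    have hk' : key X Y c b * (Y c - Y b) = X b * Y c - X c * Y b := by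
      unfold key; field_simp
    have inc : key X Y a b < key X Y c b := by
      have e : (key X Y c b - key X Y a b) * ((Y c - Y b) * (Y a - Y b)) = -Y b * dt X Y a b c := by
        unfold dt; linear_combination (Y a - Y b) * hk' - (Y c - Y b) * hk
      have := mul_pos (neg_pos.mpr hb) hc
      by_contra hcon
      push Not at hcon
      have := mul_nonpos_of_nonpos_of_nonneg (sub_nonpos.mpr hcon) (mul_pos hp' hp).le
      linarith
    have lt : key X Y c b < d := by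
      by_contra hcon
      push Not at hcon
      have q2 := inside_key hinj W2.tp W2.tq hy hb
      have := conv_q q1' (k2 := key X Y c b) (by linarith) k1 hcon (Or.inr (by linarith))
      linarith
    exact ih (c, b) inc cx' cy' R' hy hb W2 (k0.trans inc) lt
      (invA hG hI' (lip_abs hD Aab) (tight c W2.tp) hy.le hc h1 h2)
  · have hxc : key X Y a b < X c := by
      unfold dt at hc
      rw [← hy] at hc
      by_contra hcon
      push Not at hcon
      have := mul_nonneg (sub_nonneg.mpr hcon) hp.le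
      linarith
    have tc := W2.tp
    unfold pw at tc
    rw [← hy] at tc
    have le : X c ≤ d := by
      by_contra hcon
      push Not at hcon
      have := conv_q q1' (k2 := X c) (by linarith) k1 hcon.le (Or.inl hcon)
      linarith
    have eq : X c = d := by
      by_contra hne
      exact hno c hy.symm (k0.trans hxc) (lt_of_le_of_ne le hne)
    have hcv : c = v := hinj c v (by rw [eq, hv]) (by rw [← hy, hv'])
    have t3 := tight c W2.tp
    unfold dt at hc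
    rw [← hy] at t3 hc h1 h2
    have := invEnd hG hI' (lip_abs hD Aab) t3 hc h1 h2
    rw [eq, hcv] at this
    exact this
  · have hp' : 0 < Y a - Y c := by linarith
    have hk' : key X Y a c * (Y a - Y c) = X c * Y a - X a * Y c := by
      unfold key; field_simp
    have inc : key X Y a b < key X Y a c := by
      have e : (key X Y a c - key X Y a b) * ((Y a - Y c) * (Y a - Y b)) = Y a * dt X Y a b c := by
        unfold dt; linear_combination (Y a - Y b) * hk' - (Y a - Y c) * hk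
      have := mul_pos ha hc
      by_contra hcon
      push Not at hcon
      have := mul_nonpos_of_nonpos_of_nonneg (sub_nonpos.mpr hcon) (mul_pos hp' hp).le
      linarith
    have lt : key X Y a c < d := by
      by_contra hcon
      push Not at hcon
      have q2 := inside_key hinj W1.tp W1.tq ha hy
      have := conv_q q1' (k2 := key X Y a c) (by linarith) k1 hcon (Or.inr (by linarith))
      linarith
    exact ih (a, c) inc cx' cy' R' ha hy W1 (k0.trans inc) lt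
      (invB hG hI' (lip_abs hD Aab) (tight c W2.tp) hy.le hc h1 h2)

omit [Fintype V] in
theorem adj_axis (hρ : 1 ≤ ρ) {D : V → ℝ}
    (hD : ∀ p q, Adj X Y ix p q → D q ≤ D p + dd (X p) (Y p) (X q) (Y q))
    {u v : V} {d : ℝ} (hd : 0 < d) (hu : X u = 0) (hu' : Y u = 0) (hDu : D u = 0)
    (hv : X v = d) (hv' : Y v = 0) (h : Adj X Y ix u v) : D v ≤ ρ * d := by
  have := hD u v h
  rw [hu, hu', hv, hv', hDu] at this
  unfold dd at this
  rw [show (0 - d) ^ 2 + (0 - 0 : ℝ) ^ 2 = d ^ 2 by ring, sqrt_sq hd.le] at this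
  nlinarith

omit [Fintype V] in
theorem axis_eq (hinj : ∀ p q, X p = X q → Y p = Y q → p = q)
    {u v c : V} {d cx cy R : ℝ} (hd : 0 < d) (hu : X u = 0) (hu' : Y u = 0)
    (hv : X v = d) (hv' : Y v = 0) (hno : ∀ w, Y w = 0 → 0 < X w → X w < d → False)
    (W : Wit X Y ix u c cx cy R) (hy : Y c = 0) (hx : 0 < X c) : c = v := by
  have t1 := W.tp
  have t2 := W.tq
  have t3 := W.emp v
  unfold pw at t1 t2 t3
  rw [hu, hu'] at t1
  rw [hy] at t2
  rw [hv, hv'] at t3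
  have le : X c ≤ d := by
    by_contra hcon
    push Not at hcon
    have e : ((d - cx) ^ 2 + (0 - cy) ^ 2 - R) * X c = -(d * X c * (X c - d)) := by
      linear_combination (X c - d) * t1 + d * t2
    have := mul_nonneg t3 hx.le
    have := mul_pos (mul_pos hd hx) (sub_pos.mpr hcon)
    linarith
  have eq : X c = d := by
    by_contra hne
    exact hno c hy hx (lt_of_le_of_ne le hne)
  exact hinj c v (by rw [eq, hv]) (by rw [hy, hv'])

theorem start_below (hG : Good ρ lam U S) (hρ : 1 ≤ ρ)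
    (hinj : ∀ p q, X p = X q → Y p = Y q → p = q)
    (hix : Function.Injective ix) {D : V → ℝ}
    (hD : ∀ p q, Adj X Y ix p q → D q ≤ D p + dd (X p) (Y p) (X q) (Y q))
    {u v : V} {d : ℝ} (hd : 0 < d) (hu : X u = 0) (hu' : Y u = 0) (hDu : D u = 0)
    (hv : X v = d) (hv' : Y v = 0)
    (hno : ∀ w, Y w = 0 → 0 < X w → X w < d → False)
    {b0 : V} (h0 : Adj X Y ix u b0) (h0' : Y b0 < 0) : D v ≤ ρ * d := by
  classical
  obtain ⟨b, hb, hmax⟩ := Finset.exists_max_image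
    (Finset.univ.filter fun z => Adj X Y ix u z ∧ Y z < 0) (fun z => X z / (-Y z))
    ⟨b0, by simp [h0, h0']⟩
  simp only [Finset.mem_filter, Finset.mem_univ, true_and] at hb hmax
  obtain ⟨⟨hub, cx, cy, R, hW⟩, hyb⟩ := hb
  have hfv : 0 < dt X Y u b v := by
    unfold dt; rw [hv, hv', hu, hu']
    have := mul_pos (neg_pos.mpr hyb) hd
    linarith
  obtain ⟨c, cx', cy', R', t, ht, hO, hc, W1, W2⟩ := pivot hinj hix hW hub hfv
  have hac : u ≠ c := by
    intro e; rw [← e] at hc; unfold dt at hc; linarith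
  have hcb : c ≠ b := by
    intro e; rw [e] at hc; unfold dt at hc; linarith
  have Aab : Adj X Y ix u b := ⟨hub, _, _, _, hW⟩
  have Aac : Adj X Y ix u c := ⟨hac, _, _, _, W1⟩
  have Acb : Adj X Y ix c b := ⟨hcb, _, _, _, W2⟩
  unfold dt at hc
  rw [hu, hu'] at hc
  rcases lt_trichotomy 0 (Y c) with hy | hy | hy
  · have hR' := rad_pos hinj W2.tp W2.tq hcb
    have tight : ∀ w, pw X Y cx' cy' R' w = 0 → (X w - cx') ^ 2 + (Y w - cy') ^ 2 = √R' ^ 2 := by
      intro w hw; rw [sq_sqrt hR'.le]; unfold pw at hw; linarith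
    have tu := tight u W1.tp
    rw [hu, hu'] at tu
    have l1 := lip_abs hD Aac.symm
    have l2 := hD u b Aab
    rw [hu, hu', hDu, sub_zero, dd_comm] at l1
    rw [hu, hu', hDu, zero_add] at l2
    have hI := invStart hG (sqrt_pos.mpr hR') tu (tight c W2.tp) (tight b W2.tq) hy.le hyb.le
      (by linarith) l1 l2 (hD c b Acb)
    have hp' : 0 < Y c - Y b := by linarith
    have k0 : 0 < key X Y c b := by
      unfold key; apply div_pos _ hp'; linarith
    have k1 : key X Y c b < d := by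
      by_contra hcon
      push Not at hcon
      have q2 := inside_key hinj W2.tp W2.tq hy hyb
      have qv := W1.emp v
      have qu := W1.tp
      unfold pw at qv qu
      rw [hv, hv'] at qv
      rw [hu, hu'] at qu
      have e : ((d - cx') ^ 2 + (0 - cy') ^ 2 - R') * key X Y c b =
          d * ((key X Y c b - cx') ^ 2 + (0 - cy') ^ 2 - R')
            - d * key X Y c b * (key X Y c b - d) := by
        linear_combination (key X Y c b - d) * qu
      have := mul_nonneg qv k0.le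
      have := mul_neg_of_pos_of_neg hd q2
      have := mul_nonneg (mul_pos hd k0).le (sub_nonneg.mpr hcon)
      linarith
    exact chain hG hinj hix hD hv hv' hno (c, b) cx' cy' R' hy hyb W2 k0 k1 hI
  · have hx : 0 < X c := by
      rw [← hy] at hc
      by_contra hcon
      push Not at hcon
      nlinarith
    have := axis_eq hinj hd hu hu' hv hv' hno W1 hy.symm hx
    rw [this] at Aac
    exact adj_axis hρ hD hd hu hu' hDu hv hv' Aac
  · exfalso
    have := hmax c ⟨Aac, hy⟩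
    rw [div_le_div_iff₀ (neg_pos.mpr hy) (neg_pos.mpr hyb)] at this
    linarith

theorem axis_bound (hG : Good ρ lam U S) (hρ : 1 ≤ ρ)
    (hinj : ∀ p q, X p = X q → Y p = Y q → p = q)
    (hix : Function.Injective ix) {D : V → ℝ}
    (hD : ∀ p q, Adj X Y ix p q → D q ≤ D p + dd (X p) (Y p) (X q) (Y q))
    {u v : V} {d : ℝ} (hd : 0 < d) (hu : X u = 0) (hu' : Y u = 0) (hDu : D u = 0)
    (hv : X v = d) (hv' : Y v = 0)
    (hno : ∀ w, Y w = 0 → 0 < X w → X w < d → False) : D v ≤ ρ * d := by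
  obtain ⟨t, ht, hemp, w, hw, hw'⟩ := exists_shift (pw X Y 0 0 0) (fun w => 2 * X w)
    (fun w => by unfold pw; nlinarith [sq_nonneg (X w - 0), sq_nonneg (Y w - 0)]) (w0 := v)
    (by rw [hv]; linarith)
  have hpw : ∀ w, pw X Y t 0 (t ^ 2) w = pw X Y 0 0 0 w - t * (2 * X w) := by
    intro w; unfold pw; ring
  have tu : pw X Y t 0 (t ^ 2) u = 0 := by unfold pw; rw [hu, hu']; ring
  have hwu : w ≠ u := by intro e; rw [e, hu] at hw; linarith
  obtain ⟨c, c1, c2, c3⟩ := exists_extreme hinj 1 one_ne_zero tu (by rw [hpw]; exact hw') hwu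
  have W : Wit X Y ix u c t 0 (t ^ 2) :=
    wit_of_extreme (fun w => by rw [hpw]; exact hemp w) tu c1 c3
  have A : Adj X Y ix u c := ⟨c2.symm, _, _, _, W⟩
  rcases lt_trichotomy 0 (Y c) with hy | hy | hy
  · have iso : ∀ p q, Adj X (fun p => -Y p) ix p q → Adj X Y ix p q := fun p q h =>
      adj_iso (a := 1) (b := 0) (e := 0) (f := 0) (σ := -1) (by norm_num) (by norm_num)
        (fun p => by ring) (fun p => by ring) h
    have iso' : Adj X (fun p => -Y p) ix u c :=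
      adj_iso (a := 1) (b := 0) (e := 0) (f := 0) (σ := -1) (by norm_num) (by norm_num)
        (fun p => by ring) (fun p => by ring) A
    refine start_below (X := X) (Y := fun p => -Y p) hG hρ
      (fun p q h1 h2 => hinj p q h1 (neg_injective h2)) hix ?_ hd hu (by simp [hu']) hDu hv
      (by simp [hv']) (fun w h => hno w (by simpa using h)) iso' (by simpa using hy)
    intro p q h
    have := hD p q (iso p q h)
    unfold dd at this ⊢
    rw [show (-Y p - -Y q) ^ 2 = (Y p - Y q) ^ 2 by ring]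
    exact this
  · have hx : 0 < X c := by
      have p1 := sq_pos_of_ne hinj c2
      unfold pw at c1
      rw [hu, hu', ← hy] at p1
      rw [← hy] at c1
      by_contra hcon
      push Not at hcon
      nlinarith
    have := axis_eq hinj hd hu hu' hv hv' hno W hy.symm hx
    rw [this] at A
    exact adj_axis hρ hD hd hu hu' hDu hv hv' A
  · exact start_below hG hρ hinj hix hD hd hu hu' hDu hv hv' hno A hy

/-- `w` lies strictly between `u` and `v`. -/
def Btw (X Y : V → ℝ) (u v w : V) : Prop :=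
  ∃ s : ℝ, 0 < s ∧ s < 1 ∧ X w = X u + s * (X v - X u) ∧ Y w = Y u + s * (Y v - Y u)

theorem free_bound (hG : Good ρ lam U S) (hρ : 1 ≤ ρ)
    (hinj : ∀ p q, X p = X q → Y p = Y q → p = q)
    (hix : Function.Injective ix) {D : V → ℝ}
    (hD : ∀ p q, Adj X Y ix p q → D q ≤ D p + dd (X p) (Y p) (X q) (Y q))
    {u v : V} (huv : u ≠ v) (hno : ∀ w, ¬ Btw X Y u v w) :
    D v ≤ D u + ρ * dd (X u) (Y u) (X v) (Y v) := by
  set d := dd (X u) (Y u) (X v) (Y v) with hdd
  have p1 := sq_pos_of_ne hinj huv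
  have hd : 0 < d := sqrt_pos.mpr p1
  have hd2 : d ^ 2 = (X u - X v) ^ 2 + (Y u - Y v) ^ 2 := sq_sqrt p1.le
  set a := (X v - X u) / d with ha
  set b := (Y v - Y u) / d with hb
  have ea : a * d = X v - X u := by rw [ha]; field_simp
  have eb : b * d = Y v - Y u := by rw [hb]; field_simp
  have hab : a ^ 2 + b ^ 2 = 1 := by
    apply mul_right_cancel₀ (pow_pos hd 2).ne'
    linear_combination (a * d + (X v - X u)) * ea + (b * d + (Y v - Y u)) * eb - hd2
  have := axis_bound (X := fun p => a * (X p - X u) + b * (Y p - Y u))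
    (Y := fun p => -b * (X p - X u) + a * (Y p - Y u)) (D := fun p => D p - D u) (u := u) (v := v)
    hG hρ ?_ hix ?_ hd (by ring) (by ring) (by ring) ?_ ?_ ?_
  · linarith
  · intro p q h1 h2
    apply hinj
    · linear_combination a * h1 - b * h2 - (X p - X q) * hab
    · linear_combination b * h1 + a * h2 - (Y p - Y q) * hab
  · intro p q h
    have h' : Adj X Y ix p q :=
      adj_iso (a := a) (b := b) (e := -(a * X u + b * Y u)) (f := b * X u - a * Y u) (σ := 1) hab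
        (by norm_num) (fun p => by ring) (fun p => by ring) h
    have := hD p q h'
    unfold dd at this ⊢
    have e : (a * (X p - X u) + b * (Y p - Y u) - (a * (X q - X u) + b * (Y q - Y u))) ^ 2 +
        (-b * (X p - X u) + a * (Y p - Y u) - (-b * (X q - X u) + a * (Y q - Y u))) ^ 2 =
        (X p - X q) ^ 2 + (Y p - Y q) ^ 2 := by
      linear_combination ((X p - X q) ^ 2 + (Y p - Y q) ^ 2) * hab
    rw [e]; linarith
  · show a * (X v - X u) + b * (Y v - Y u) = d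
    rw [← ea, ← eb]; linear_combination d * hab
  · show -b * (X v - X u) + a * (Y v - Y u) = 0
    rw [← ea, ← eb]; ring
  · intro w h1 h2 h3
    apply hno w
    refine ⟨(a * (X w - X u) + b * (Y w - Y u)) / d, div_pos h2 hd, (div_lt_one hd).mpr h3, ?_, ?_⟩
    · rw [← ea]; field_simp
      linear_combination -b * h1 - (X w - X u) * hab
    · rw [← eb]; field_simp
      linear_combination a * h1 - (Y w - Y u) * hab

theorem lip_bound (hG : Good ρ lam U S) (hρ : 1 ≤ ρ)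
    (hinj : ∀ p q, X p = X q → Y p = Y q → p = q)
    (hix : Function.Injective ix) {D : V → ℝ}
    (hD : ∀ p q, Adj X Y ix p q → D q ≤ D p + dd (X p) (Y p) (X q) (Y q)) (u v : V) :
    D v ≤ D u + ρ * dd (X u) (Y u) (X v) (Y v) := by
  have wf : WellFounded (fun t s : V × V => dd (X t.1) (Y t.1) (X t.2) (Y t.2) <
      dd (X s.1) (Y s.1) (X s.2) (Y s.2)) := by
    have : IsTrans (V × V) (fun t s : V × V => dd (X t.1) (Y t.1) (X t.2) (Y t.2) <
      dd (X s.1) (Y s.1) (X s.2) (Y s.2)) := ⟨fun a b c h1 h2 => lt_trans h1 h2⟩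
    have : Std.Irrefl (fun t s : V × V => dd (X t.1) (Y t.1) (X t.2) (Y t.2) <
      dd (X s.1) (Y s.1) (X s.2) (Y s.2)) := ⟨fun a => lt_irrefl _⟩
    exact Finite.wellFounded_of_trans_of_irrefl _
  suffices h : ∀ s : V × V, D s.2 ≤ D s.1 + ρ * dd (X s.1) (Y s.1) (X s.2) (Y s.2) from h (u, v)
  intro s
  induction s using wf.induction with
  | _ s ih =>
  obtain ⟨u, v⟩ := s
  simp only at ih ⊢
  by_cases huv : u = v
  · subst huv
    have := dd_nonneg (X u) (Y u) (X u) (Y u)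
    nlinarith
  by_cases hb : ∃ w, Btw X Y u v w
  · obtain ⟨w, s, s0, s1, hx, hy⟩ := hb
    have hd : 0 < dd (X u) (Y u) (X v) (Y v) := sqrt_pos.mpr (sq_pos_of_ne hinj huv)
    have e1 : dd (X u) (Y u) (X w) (Y w) = s * dd (X u) (Y u) (X v) (Y v) := by
      unfold dd
      rw [hx, hy, ← sqrt_sq s0.le, ← sqrt_mul (sq_nonneg _), sqrt_sq s0.le]
      congr 1; ring
    have e2 : dd (X w) (Y w) (X v) (Y v) = (1 - s) * dd (X u) (Y u) (X v) (Y v) := by
      unfold dd
      rw [hx, hy, ← sqrt_sq (sub_pos.mpr s1).le, ← sqrt_mul (sq_nonneg _)]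
      congr 1; ring
    have h1 := ih (u, w) (by simp only; rw [e1]; nlinarith)
    have h2 := ih (w, v) (by simp only; rw [e2]; nlinarith)
    simp only at h1 h2
    rw [e1] at h1
    rw [e2] at h2
    linarith
  · push Not at hb
    exact free_bound hG hρ hinj hix hD huv hb

end Pool.Agent.MP_8fe08c_co.h31

end MrgPart5

-- marker of a merged file
example : 731051 + 633574 = 731051 + 633574 := rfl
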