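import Mathlib.RingTheory.PiTensorProduct
import Pool.Agent.MP_8fe08c_co.h31.Chain

set_option autoImplicit false

open Real

namespace Pool.Agent.MP_8fe08c_co.h31

attribute [local irreducible] XX Q1 Q2 cA cB cC KN HH AM AP BP BM EE co fT tm

/-- Integer part used to locate a point in the grid. -/
noncomputable def fl (z : ℝ) : ℕ := min ⌊z⌋₊ 63

theorem fl_spec {z : ℝ} (h0 : 0 ≤ z) (h1 : z ≤ 64) : (fl z : ℝ) ≤ z ∧ z ≤ fl z + 1 ∧ fl z < 64 := by
  unfold fl
  have a := Nat.floor_le h0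
  have b := Nat.lt_floor_add_one z
  rcases le_total ⌊z⌋₊ 63 with h | h
  · rw [min_eq_left h]; exact ⟨a, b.le, by omega⟩
  · rw [min_eq_right h]
    have : ((63 : ℕ) : ℝ) ≤ ⌊z⌋₊ := by exact_mod_cast h
    refine ⟨this.trans a, ?_, by norm_num⟩
    push_cast; linarith

theorem fl_mono {z w : ℝ} (h : z ≤ w) : fl z ≤ fl w :=
  min_le_min_right _ (Nat.floor_mono h)

theorem cover_sx {y : ℝ × ℝ × ℝ} (hy : Dom y) :
    ∃ a b c : ℕ, a < 64 ∧ b < 64 ∧ c < 64 ∧ ∃ p, y ∈ Sx a b c p := by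
  obtain ⟨d1, d2, d3, d4⟩ := hy
  have hE := Eg_pos
  have z0 : 0 ≤ y.1 / Eg := div_nonneg d1 hE.le
  have z1 : y.1 / Eg ≤ y.2.1 / Eg := div_le_div_of_nonneg_right d2 hE.le
  have z2 : y.2.1 / Eg ≤ y.2.2 / Eg := div_le_div_of_nonneg_right d3 hE.le
  have z3 : y.2.2 / Eg ≤ 64 := by rw [div_le_iff₀ hE]; unfold Eg; linarith
  obtain ⟨a1, a2, a3⟩ := fl_spec z0 (by linarith)
  obtain ⟨b1, b2, b3⟩ := fl_spec (z := y.2.1 / Eg) (by linarith) (by linarith)
  obtain ⟨c1, c2, c3⟩ := fl_spec (z := y.2.2 / Eg) (by linarith) z3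
  have m1 := fl_mono z1
  have m2 := fl_mono z2
  refine ⟨_, _, _, a3, b3, c3, ?_⟩
  generalize fl (y.1 / Eg) = a at *
  generalize fl (y.2.1 / Eg) = b at *
  generalize fl (y.2.2 / Eg) = c at *
  have t1 : y.2.1 / Eg - b < y.1 / Eg - a → a < b := by
    intro h
    have : (a : ℝ) < b := by linarith
    exact_mod_cast this
  have t2 : y.2.2 / Eg - c < y.2.1 / Eg - b → b < c := by
    intro h
    have : (b : ℝ) < c := by linarith
    exact_mod_cast this
  rcases le_or_gt (y.1 / Eg - a) (y.2.1 / Eg - b) with h1 | h1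
  · rcases le_or_gt (y.2.1 / Eg - b) (y.2.2 / Eg - c) with h2 | h2
    · exact ⟨5, ⟨m1, m2⟩, by simp only; linarith, h2, h1, by simp only; linarith⟩
    · rcases le_total (y.1 / Eg - a) (y.2.2 / Eg - c) with h3 | h3
      · exact ⟨3, ⟨m1, t2 h2⟩, by simp only; linarith, h2.le, h3, by simp only; linarith⟩
      · exact ⟨2, ⟨m1, t2 h2⟩, by simp only; linarith, h1, h3, by simp only; linarith⟩
  · rcases le_or_gt (y.2.1 / Eg - b) (y.2.2 / Eg - c) with h2 | h2
    · rcases le_total (y.1 / Eg - a) (y.2.2 / Eg - c) with h3 | h3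
      · exact ⟨4, ⟨t1 h1, m2⟩, by simp only; linarith, h3, h1.le, by simp only; linarith⟩
      · exact ⟨1, ⟨t1 h1, m2⟩, by simp only; linarith, h3, h2, by simp only; linarith⟩
    · exact ⟨0, ⟨t1 h1, t2 h2⟩, by simp only; linarith, h1.le, h2.le, by simp only; linarith⟩

theorem cell_of (hall : ∀ b, b ≤ 64 → slab b = true) {y : ℝ × ℝ × ℝ} (hy : Dom y) :
    ∃ s : SP, s.Ok y ∧ (s.all fun v => node v = true) ∧ ∀ l, UG l y = Eg / 30000 * s.av (XX l) := by
  obtain ⟨a, b, c, -, -, hc, p, hp⟩ := cover_sx hy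
  obtain ⟨_, _, _, _, _, _, h⟩ := cell hall hc p
  obtain ⟨s, hs⟩ := h y hp
  exact ⟨s, hs.ok, hs.nodes, hs.val⟩

/-- Weights of the pieces. -/
noncomputable def lamP : Fin 7 ⊕ Bool → ℝ
  | Sum.inl l => ((l : ℕ) : ℝ) / 6
  | Sum.inr false => 0
  | Sum.inr true => 1

/-- The pieces. -/
noncomputable def UP : Fin 7 ⊕ Bool → ℝ × ℝ × ℝ → ℝ
  | Sum.inl l => UG l
  | Sum.inr false => fun y => prof (y.2.2 - y.2.1)
  | Sum.inr true => fun y => prof y.1

/-- The closed covers. -/
def SS : Fin 7 ⊕ Bool → (Fin 64 × Fin 64 × Fin 64) × Fin 6 → Set (ℝ × ℝ × ℝ)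
  | Sum.inl _ => fun k => Sx k.1.1 k.1.2.1 k.1.2.2 k.2
  | Sum.inr false => fun k =>
      if k.2 = 0 then {y | y.2.2 - y.2.1 ≤ 5 * Eg} else {y | 5 * Eg ≤ y.2.2 - y.2.1}
  | Sum.inr true => fun k => if k.2 = 0 then {y | y.1 ≤ 5 * Eg} else {y | 5 * Eg ≤ y.1}

theorem tL_zero (v : ℕ) : tL 0 v = fT (i6 v) := rfl
theorem tL_succ (p v : ℕ) : tL (p + 1) v = XX p v + co v := rfl

theorem tR_top (v : ℕ) : tR 6 v = fT (cA v) := rfl

theorem tR_lt {l : ℕ} (h : l < 6) (v : ℕ) : tR l v = XX (l + 1) v + co v := by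
  unfold tR
  have : Nat.ble (nat_lit 6) l = false := by
    cases hb : Nat.ble (nat_lit 6) l
    · rfl
    · have : 6 ≤ l := Nat.le_of_ble_eq_true hb
      omega
  rw [this]
  exact frn_eq _ _

theorem tM_top (v : ℕ) : tM 6 v = XX 6 v := rfl

theorem tM_zero (v : ℕ) : tM 0 v = XX 0 v := rfl

theorem tM_mid {p : ℕ} (h : p + 1 < 6) (v : ℕ) :
    tM (p + 1) v = (XX p v + XX (p + 1 + 1) v + 1) / 2 := by
  unfold tM
  have : Nat.ble (nat_lit 6) (p + 1) = false := by
    cases hb : Nat.ble (nat_lit 6) (p + 1)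
    · rfl
    · have : 6 ≤ p + 1 := Nat.le_of_ble_eq_true hb
      omega
  rw [this]
  exact frn_eq _ _

theorem av_congr (s : SP) {f g : ℕ → ℕ} (h : ∀ v, f v = g v) : s.av f = s.av g := by
  rw [funext h]

theorem av_add (s : SP) (f g : ℕ → ℕ) : s.av (fun v => f v + g v) = s.av f + s.av g := by
  unfold SP.av; push_cast; ring

theorem act_thr {s : SP} {y : ℝ × ℝ × ℝ} (h : s.Ok y)
    (hU : ∀ l, UG l y = Eg / 30000 * s.av (XX l)) (l : Fin 7) (ha : Act lamP UP (Sum.inl l) y) :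
    s.av (XX l) ≤ s.av (tL l) ∧ s.av (XX l) ≤ s.av (tR l) ∧ s.av (XX l) ≤ s.av (tM l) := by
  obtain ⟨δ, hδ, hj⟩ := ha
  obtain ⟨l, hl⟩ := l
  have hE : 0 < Eg / 30000 := by have := Eg_pos; positivity
  have cmp : ∀ m : ℕ, m < 7 → (l : ℝ) / 6 * δ + Eg / 30000 * s.av (XX l) ≤
      (m : ℝ) / 6 * δ + Eg / 30000 * s.av (XX m) := by
    intro m hm
    have := hj (Sum.inl ⟨m, hm⟩)
    simp only [lamP, UP, hU] at this
    exact this
  have hc := bco h
  have habs := abs_le.mp hδ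
  simp only
  refine ⟨?_, ?_, ?_⟩
  · apply le_of_mul_le_mul_left _ hE
    rcases l with _ | p
    · have h1 := hj (Sum.inr false)
      simp only [lamP, UP, hU] at h1
      have h2 := bfT h i6 (rng6 h)
      rw [form6 h] at h2
      rw [av_congr s tL_zero]
      push_cast at h1
      linarith
    · have h1 := cmp p (by omega)
      rw [av_congr s (tL_succ p), av_add]
      push_cast at h1
      linarith
  · apply le_of_mul_le_mul_left _ hE
    rcases Nat.lt_or_eq_of_le (Nat.le_of_lt_succ hl) with h0 | h0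
    · have h1 := cmp (l + 1) (by omega)
      rw [av_congr s (tR_lt h0), av_add]
      push_cast at h1
      linarith
    · subst h0
      have h1 := hj (Sum.inr true)
      simp only [lamP, UP, hU] at h1
      have h2 := bfT h cA (rngA h)
      rw [← h.y1] at h2
      rw [av_congr s tR_top]
      push_cast at h1
      linarith
  · rcases Nat.lt_or_eq_of_le (Nat.le_of_lt_succ hl) with h0 | h0
    · rcases l with _ | p
      · rw [av_congr s tM_zero]
      · have h1 := cmp p (by omega)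
        have h2 := cmp (p + 1 + 1) (by omega)
        push_cast at h1 h2
        have h3 : Eg / 30000 * s.av (XX (p + 1)) ≤
            Eg / 30000 * ((s.av (XX p) + s.av (XX (p + 1 + 1))) / 2) := by linarith
        have h4 := le_of_mul_le_mul_left h3 hE
        have one : ∀ v, ((XX p v : ℝ) + XX (p + 1 + 1) v) / 2 ≤ (tM (p + 1) v : ℝ) := by
          intro v
          have : XX p v + XX (p + 1 + 1) v ≤ 2 * tM (p + 1) v := by rw [tM_mid h0]; omega
          have : (XX p v : ℝ) + XX (p + 1 + 1) v ≤ 2 * tM (p + 1) v := by exact_mod_cast this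
          linarith
        have h5 := av_le h (fun v => ((XX p v : ℝ) + XX (p + 1 + 1) v) / 2)
          (fun v => (tM (p + 1) v : ℝ)) ⟨one _, one _, one _, one _⟩
        unfold SP.av at h4 ⊢
        linarith
    · subst h0
      rw [av_congr s tM_top]

theorem node_spec {v : ℕ} (h : node v = true) : ext (XX 6 v) (cA v) = true ∧
    ext (XX 0 v) (i6 v) = true ∧ ∀ l, l ≤ 6 → (6 - l) * tm (i6 v) ≤ XX l v := by
  unfold node at h
  obtain ⟨h1, h2⟩ := an2_spec h
  obtain ⟨h3, h4⟩ := an2_spec h2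
  exact ⟨h1, h3, fun l hl => Nat.le_of_ble_eq_true (allB_spec h4 l (Nat.lt_succ_of_le hl))⟩

theorem qK : 13 * Q1 (5 + 64) + 33554432 * 4 ≤ 33554432 * 13 := by decide +kernel

theorem cosK {t : ℝ} (h0 : 0 ≤ t) (h1 : t ≤ 5 * Eg) : 2 ≤ (13 / 4 : ℝ) * cos t := by
  have a := (JS1 (5 + 64)).cos_le
  rw [Nat.cast_add, add_mul, cP] at a
  have b : (13 : ℝ) * Q1 (5 + 64) + 33554432 * 4 ≤ 33554432 * 13 := by exact_mod_cast qK
  have c : cos (((5 : ℕ) : ℝ) * Eg) ≤ cos t :=
    cos_le_cos_of_nonneg_of_le_pi h0 (by have := pi_pos; unfold Eg; push_cast; linarith)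
      (by push_cast; exact h1)
  generalize (Q1 (5 + 64) : ℝ) = q at a b
  generalize cos (((5 : ℕ) : ℝ) * Eg) = u at a c
  linarith

theorem prof_small {t : ℝ} (h : t ≤ 5 * Eg) : prof t = (13 / 4) * sin t := by
  unfold prof
  rw [max_eq_right (by linarith)]; ring

theorem prof_ge (t : ℝ) : (13 / 4) * sin t ≤ prof t := by
  unfold prof
  have := le_max_right (t - 5 * Eg) 0
  linarith

theorem st1_spec {l j : ℕ} (h : st1 l j = true) :
    Eg / 30000 * (XX l (enc j j 64) : ℝ) ≤ 2 * (347 / 200) * (2 - (Q1 (j + 32) : ℝ) / 16777216) := by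
  have h1 : XX l (enc j j 64) * 53972150819 * 16777216 + 104100 * Q1 (j + 32) * 1099511627776 ≤ 104100 * 33554432 * 1099511627776 :=
    Nat.le_of_ble_eq_true h
  have h2 : (XX l (enc j j 64) : ℝ) * 53972150819 * 16777216 + 104100 * Q1 (j + 32) * 1099511627776 ≤
      104100 * 33554432 * 1099511627776 := by exact_mod_cast h1
  have hU : Eg ≤ (53972150819 : ℝ) / 1099511627776 := by have := pi_lt_d20; unfold Eg; linarith
  have h3 := mul_le_mul_of_nonneg_right hU (Nat.cast_nonneg (α := ℝ) (XX l (enc j j 64)))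
  linarith

theorem start_mid (hst : startB = true) {A : ℝ} (h0 : 5 * Eg ≤ A) (h1 : A < π - 5 * Eg) :
    ∃ l, l < 7 ∧ UG l (A, A, π) ≤ 2 * (347 / 200) * sin A := by
  have hE := Eg_pos
  have z0 : (5 : ℝ) ≤ A / Eg := by rw [le_div_iff₀ hE]; exact h0
  have z1 : A / Eg < 64 - 5 := by rw [div_lt_iff₀ hE]; unfold Eg at h1 ⊢; linarith
  have a := Nat.floor_le (show 0 ≤ A / Eg by linarith)
  have b := Nat.lt_floor_add_one (A / Eg)
  have c : 5 ≤ ⌊A / Eg⌋₊ := Nat.le_floor (by push_cast; exact z0)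
  have d : ⌊A / Eg⌋₊ + 5 < 64 := by
    have : (⌊A / Eg⌋₊ : ℝ) + 5 < 64 := by linarith
    exact_mod_cast this
  generalize ⌊A / Eg⌋₊ = i at a b c d
  unfold startB at hst
  obtain ⟨l, hl, h2⟩ := anyB_spec (allB_spec hst (i - 5) (show i - 5 < 64 - (5 + 5) by omega))
  obtain ⟨h3, h4⟩ := an2_spec h2
  rw [show Nat.add (i - 5) (nat_lit 5) = i from show i - 5 + 5 = i by omega] at h3 h4
  have s1 := st1_spec h3
  have s2 := st1_spec (j := i + 1) h4
  refine ⟨l, hl, ?_⟩
  have e := interp321 (P := 64) (a := i) (b := i) (c := 63) (fun a b c => (XX l (enc a b c) : ℝ))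
    (by omega) (by omega) (by norm_num) (f := A / Eg - i) (g := A / Eg - i) (h := 1) le_rfl
    (by linarith) le_rfl (by linarith)
  have e2 : ((63 : ℕ) : ℝ) + 1 = π / Eg := by
    have := pi_pos
    unfold Eg; push_cast; field_simp; norm_num
  rw [e2] at e
  simp only [add_sub_cancel] at e
  unfold UG
  simp only
  rw [e]
  have m0 : ((i + 32 : ℕ) : ℝ) * Eg ∈ Set.Icc (((i + 32 : ℕ) : ℝ) * Eg)
      (((i + 32 : ℕ) : ℝ) * Eg + (1 : ℕ) * Eg) := ⟨le_rfl, by push_cast; linarith⟩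
  have m1 : ((i + 1 + 32 : ℕ) : ℝ) * Eg ∈ Set.Icc (((i + 32 : ℕ) : ℝ) * Eg)
      (((i + 32 : ℕ) : ℝ) * Eg + (1 : ℕ) * Eg) := ⟨by push_cast; linarith, by push_cast; linarith⟩
  have j := jensen (w0 := 1 - (A / Eg - i)) (w1 := A / Eg - i) (w2 := 0) (w3 := 0)
    (JS1 (i + 32)) (JS1 (i + 1 + 32)) (JS1 (i + 32)) (JS1 (i + 32)) m0 m1 m0 m0
    (by linarith) (by linarith) le_rfl le_rfl (by ring)
  have e3 : (1 - (A / Eg - i)) * (((i + 32 : ℕ) : ℝ) * Eg) + (A / Eg - i) * (((i + 1 + 32 : ℕ) : ℝ) * Eg)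
      + 0 * (((i + 32 : ℕ) : ℝ) * Eg) + 0 * (((i + 32 : ℕ) : ℝ) * Eg) = A + (32 : ℕ) * Eg := by
    push_cast; field_simp; ring
  rw [e3, cPH] at j
  have u1 := mul_le_mul_of_nonneg_left s1 (show 0 ≤ 1 - (A / Eg - i) by linarith)
  have u2 := mul_le_mul_of_nonneg_left s2 (show 0 ≤ A / Eg - i by linarith)
  linear_combination u1 + u2 + 2 * (347 / 200) * j

theorem idA (y : ℝ × ℝ × ℝ) : cos y.1 * sin (π - y.2.2) - cos (y.1 + (y.2.2 - y.2.1)) * sin y.2.1 =
    sin (y.2.2 - y.2.1) * cos (y.2.1 - y.1) := by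
  rw [sin_pi_sub]
  simp only [cos_add, sin_sub, cos_sub]
  have h := sin_sq_add_cos_sq y.2.1
  linear_combination (-(cos y.1 * sin y.2.2)) * h

theorem idB (y : ℝ × ℝ × ℝ) : sin (y.2.1 - y.1) * cos (y.2.2 - y.2.1)
    - cos (y.1 + (y.2.2 - y.2.1)) * sin y.2.1 = sin y.1 * cos (π - y.2.2) := by
  rw [cos_pi_sub]
  simp only [cos_add, sin_sub, cos_sub]
  have h := sin_sq_add_cos_sq y.2.1
  linear_combination (-(sin y.1 * cos y.2.2)) * h

theorem good (hall : ∀ b, b ≤ 64 → slab b = true) (hst : startB = true) :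
    Good (347 / 200) lamP UP SS := by
  have hE := Eg_pos
  refine ⟨?_, ?_, ?_, ?_, ?_, ?_, ?_, ?_⟩
  · rintro (l | _ | _) <;> simp only [lamP]
    · positivity
    · exact le_rfl
    · norm_num
  · rintro (l | _ | _) <;> simp only [lamP]
    · have : ((l : ℕ) : ℝ) ≤ 6 := by exact_mod_cast Nat.le_of_lt_succ l.2
      linarith
    · norm_num
    · exact le_rfl
  · rintro (l | _ | _) <;> simp only [UP]
    · unfold UG
      exact continuous_const.mul ((continuous_interp _ _).comp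
        (f := fun y : ℝ × ℝ × ℝ => (y.1 / Eg, y.2.1 / Eg, y.2.2 / Eg)) (by fun_prop))
    · unfold prof; fun_prop
    · unfold prof; fun_prop
  · rintro (l | _ | _) k <;> simp only [SS]
    · exact Sx_closed _ _ _ _
    · split_ifs
      · exact isClosed_le (by fun_prop) continuous_const
      · exact isClosed_le continuous_const (by fun_prop)
    · split_ifs
      · exact isClosed_le (by fun_prop) continuous_const
      · exact isClosed_le continuous_const (by fun_prop)
  · rintro (l | _ | _) y hy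
    · obtain ⟨a, b, c, ha, hb, hc, p, hp⟩ := cover_sx hy
      exact ⟨((⟨a, ha⟩, ⟨b, hb⟩, ⟨c, hc⟩), p), hp⟩
    · rcases le_total (y.2.2 - y.2.1) (5 * Eg) with h | h
      · exact ⟨((0, 0, 0), 0), by simpa [SS] using h⟩
      · exact ⟨((0, 0, 0), 1), by simpa [SS] using h⟩
    · rcases le_total y.1 (5 * Eg) with h | h
      · exact ⟨((0, 0, 0), 0), by simpa [SS] using h⟩
      · exact ⟨((0, 0, 0), 1), by simpa [SS] using h⟩
  · rintro (l | _ | _) k y hk hy ha
    · obtain ⟨lo1, hi1, lo2, hi2, lo3, hi3, h⟩ := cell hall k.1.2.2.2 k.2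
      obtain ⟨s, hs⟩ := h y hk
      obtain ⟨t1, t2, t3⟩ := act_thr hs.ok hs.val l ha
      refine ⟨Eg / 30000 * (XX l (enc k.1.1 k.1.2.1 k.1.2.2)
          - (k.1.1 : ℕ) * ((XX l hi1 : ℝ) - XX l lo1) - (k.1.2.1 : ℕ) * ((XX l hi2 : ℝ) - XX l lo2)
          - (k.1.2.2 : ℕ) * ((XX l hi3 : ℝ) - XX l lo3)),
        ((XX l hi1 : ℝ) - XX l lo1) / 30000, ((XX l hi2 : ℝ) - XX l lo2) / 30000,
        ((XX l hi3 : ℝ) - XX l lo3) / 30000, 0, 0, ?_, ?_⟩
      · intro z hz
        obtain ⟨s', hs'⟩ := h z hz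
        simp only [UP, Vf]
        rw [hs'.val, hs'.lin]
        field_simp
        ring
      · simp only [UP, lamP, zero_mul, add_zero, sub_zero]
        rw [hs.val]
        exact hs.ineq l (Nat.le_of_lt_succ l.2) t1 t2 t3
    · obtain ⟨d1, d2, d3, d4⟩ := hy
      simp only [SS] at hk ⊢
      split_ifs at hk ⊢ with h0
      · refine ⟨0, 0, 0, 0, 0, 13 / 4, ?_, ?_⟩
        · intro z hz
          simp only [UP, Vf]
          rw [prof_small hz]; ring
        · have c := cosK (t := y.2.2 - y.2.1) (by linarith) hk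
          simp only [UP, lamP]
          rw [prof_small hk]
          refine ⟨by linarith, by linarith, ?_⟩
          have e := idB y
          have s1 : 0 ≤ sin y.1 := sin_nonneg_of_nonneg_of_le_pi d1 (by linarith)
          have s2 : 0 ≤ sin (y.2.2 - y.2.1) :=
            sin_nonneg_of_nonneg_of_le_pi (by linarith) (by linarith)
          have s3 := mul_nonneg (mul_nonneg s1 s2) (sub_nonneg.mpr (cos_le_one (π - y.2.2)))
          have s4 := mul_nonneg s1 s2
          linear_combination (13 / 4) * sin (y.2.2 - y.2.1) * e + (13 / 4) * s3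
            + (2 * (347 / 200) - 13 / 4) * s4
      · exfalso
        obtain ⟨s, ok, nd, hU⟩ := cell_of hall ⟨d1, d2, d3, d4⟩
        obtain ⟨δ, -, hj⟩ := ha
        have h1 := hj (Sum.inl 0)
        simp only [lamP, UP, hU] at h1
        have h2 := bext ok i6 (XX 0) (rng6 ok) ⟨(node_spec nd.1).2.1, (node_spec nd.2.1).2.1,
          (node_spec nd.2.2.1).2.1, (node_spec nd.2.2.2).2.1⟩ (by rw [form6 ok]; exact hk)
        rw [form6 ok] at h2
        simp only [Fin.val_zero, Nat.cast_zero, zero_div] at h1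
        linarith
    · obtain ⟨d1, d2, d3, d4⟩ := hy
      simp only [SS] at hk ⊢
      split_ifs at hk ⊢ with h0
      · refine ⟨0, 0, 0, 0, 13 / 4, 0, ?_, ?_⟩
        · intro z hz
          simp only [UP, Vf]
          rw [prof_small hz]; ring
        · have c := cosK (t := y.1) d1 hk
          simp only [UP, lamP]
          rw [prof_small hk]
          refine ⟨by linarith, by linarith, ?_⟩
          have e := idA y
          have s1 : 0 ≤ sin y.1 := sin_nonneg_of_nonneg_of_le_pi d1 (by linarith)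
          have s2 : 0 ≤ sin (y.2.2 - y.2.1) :=
            sin_nonneg_of_nonneg_of_le_pi (by linarith) (by linarith)
          have s3 := mul_nonneg (mul_nonneg s1 s2) (sub_nonneg.mpr (cos_le_one (y.2.1 - y.1)))
          have s4 := mul_nonneg s1 s2
          linear_combination (13 / 4) * sin y.1 * e + (13 / 4) * s3
            + (2 * (347 / 200) - 13 / 4) * s4
      · exfalso
        obtain ⟨s, ok, nd, hU⟩ := cell_of hall ⟨d1, d2, d3, d4⟩
        obtain ⟨δ, -, hj⟩ := ha
        have h1 := hj (Sum.inl ⟨6, by norm_num⟩)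
        simp only [lamP, UP, hU] at h1
        have h2 := bext ok cA (XX 6) (rngA ok) ⟨(node_spec nd.1).1, (node_spec nd.2.1).1,
          (node_spec nd.2.2.1).1, (node_spec nd.2.2.2).1⟩ (by rw [← ok.y1]; exact hk)
        rw [← ok.y1] at h2
        push_cast at h1
        linarith
  · intro A h0 h1
    have s1 : 0 ≤ sin A := sin_nonneg_of_nonneg_of_le_pi h0 h1
    rcases le_total A (5 * Eg) with h | h
    · refine ⟨Sum.inr true, ?_⟩
      simp only [UP]
      rw [prof_small h]; linarith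
    rcases le_or_gt (π - 5 * Eg) A with h' | h'
    · refine ⟨Sum.inr false, ?_⟩
      simp only [UP]
      rw [prof_small (by linarith), sin_pi_sub]; linarith
    · obtain ⟨l, hl, h2⟩ := start_mid hst h h'
      exact ⟨Sum.inl ⟨l, hl⟩, h2⟩
  · rintro (l | _ | _) y hy hy0
    · obtain ⟨s, ok, nd, hU⟩ := cell_of hall hy
      have hl : (l : ℕ) ≤ 6 := Nat.le_of_lt_succ l.2
      have one : ∀ v, node v = true → (6 - ((l : ℕ) : ℝ)) * tm (i6 v) ≤ XX l v := by
        intro v hv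
        have := (node_spec hv).2.2 l hl
        have e : ((6 - (l : ℕ) : ℕ) : ℝ) = 6 - ((l : ℕ) : ℝ) := by rw [Nat.cast_sub hl]; norm_num
        rw [← e]; exact_mod_cast this
      have h1 := av_le ok (fun v => (6 - ((l : ℕ) : ℝ)) * tm (i6 v)) (fun v => (XX l v : ℝ))
        ⟨one _ nd.1, one _ nd.2.1, one _ nd.2.2.1, one _ nd.2.2.2⟩
      have hl' : (0 : ℝ) ≤ 6 - ((l : ℕ) : ℝ) := by
        have : ((l : ℕ) : ℝ) ≤ 6 := by exact_mod_cast hl
        linarith
      have h2 := mul_le_mul_of_nonneg_left (btm ok) hl'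
      have h3 := mul_le_mul_of_nonneg_left h1 (show 0 ≤ Eg / 30000 by positivity)
      simp only [lamP, UP, hU]
      unfold SP.av at h2 ⊢
      linear_combination h2 + h3
    · obtain ⟨d1, d2, d3, d4⟩ := hy
      have s2 : 0 ≤ sin (y.2.2 - y.2.1) := sin_nonneg_of_nonneg_of_le_pi (by linarith) (by linarith)
      have := prof_ge (y.2.2 - y.2.1)
      simp only [lamP, UP]
      linarith
    · have := prof_ge y.1
      simp only [lamP, UP]
      rw [hy0, sin_zero] at this
      rw [hy0]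
      linarith

end Pool.Agent.MP_8fe08c_co.h31
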