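import Mathlib.Analysis.InnerProductSpace.PiL2
import Mathlib.Combinatorics.SimpleGraph.Walk.Basic
import Mathlib.Order.CompletePartialOrder

open scoped ENNReal

namespace Pool.Agent.MP_8fe08c_co.h31

/-- The Euclidean plane. -/
abbrev Pt : Type := EuclideanSpace ℝ (Fin 2)

/-- A geometric graph on the finite point set `P` is plane: two different edges meet at most in a
common endpoint, and no edge contains a point of `P` in its relative interior. -/
def IsPlane (P : Finset Pt) (G : SimpleGraph P) : Prop :=
  (∀ a b c d : P, G.Adj a b → G.Adj c d → s(a, b) ≠ s(c, d) →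
      ∀ x : Pt, x ∈ segment ℝ (a : Pt) (b : Pt) → x ∈ segment ℝ (c : Pt) (d : Pt) →
        (x = a ∨ x = b) ∧ (x = c ∨ x = d)) ∧
  (∀ a b p : P, G.Adj a b → (p : Pt) ∉ openSegment ℝ (a : Pt) (b : Pt))

/-- Euclidean length of a walk: the sum of the lengths of its edges. -/
noncomputable def walkLength {P : Finset Pt} {G : SimpleGraph P} {u v : P} (w : G.Walk u v) : ℝ :=
  (w.darts.map fun d => dist (d.fst : Pt) (d.snd : Pt)).sum

/-- Length of a shortest path from `u` to `v` in `G` (infinite if there is none). -/
noncomputable def graphDist {P : Finset Pt} (G : SimpleGraph P) (u v : P) : ℝ≥0∞ :=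
  ⨅ w : G.Walk u v, ENNReal.ofReal (walkLength w)

/-- Stretch factor (dilation) of a geometric graph. -/
noncomputable def stretch {P : Finset Pt} (G : SimpleGraph P) : ℝ≥0∞ :=
  ⨆ (u : P) (v : P) (_ : u ≠ v), graphDist G u v / edist (u : Pt) (v : Pt)

/-- Plane dilation of a finite point set. -/
noncomputable def planeDilation (P : Finset Pt) : ℝ≥0∞ :=
  ⨅ (G : SimpleGraph P) (_ : IsPlane P G), stretch G

/-- The worst-case plane dilation over all finite planar point sets. -/
noncomputable def deltaStar : ℝ≥0∞ := ⨆ P : Finset Pt, planeDilation P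

end Pool.Agent.MP_8fe08c_co.h31
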