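import Pool.Agent.MP_8fe08c_co.h31.Trig

set_option autoImplicit false

namespace Pool.Agent.MP_8fe08c_co.h31

theorem slab0 : slab 0 = true := by decide +kernel

theorem slab7 : slab 7 = true := by decide +kernel

theorem slab8 : slab 8 = true := by decide +kernel

theorem slab15 : slab 15 = true := by decide +kernel

theorem slab16 : slab 16 = true := by decide +kernel

theorem slab23 : slab 23 = true := by decide +kernel

theorem slab24 : slab 24 = true := by decide +kernel

theorem slab31 : slab 31 = true := by decide +kernel

theorem slab64 : slab 64 = true := by decide +kernel

theorem start_ok : startB = true := by decide +kernel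

end Pool.Agent.MP_8fe08c_co.h31
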