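import Pool.Agent.MP_8fe08c_co.h31.Trig

set_option autoImplicit false

namespace Pool.Agent.MP_8fe08c_co.h31

theorem slab32 : slab 32 = true := by decide +kernel

theorem slab39 : slab 39 = true := by decide +kernel

theorem slab40 : slab 40 = true := by decide +kernel

theorem slab47 : slab 47 = true := by decide +kernel

theorem slab48 : slab 48 = true := by decide +kernel

theorem slab55 : slab 55 = true := by decide +kernel

theorem slab56 : slab 56 = true := by decide +kernel

theorem slab63 : slab 63 = true := by decide +kernel

end Pool.Agent.MP_8fe08c_co.h31
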