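import Pool.Agent.MP_8fe08c_co.h31.Trig

set_option autoImplicit false

namespace Pool.Agent.MP_8fe08c_co.h31

theorem slab1 : slab 1 = true := by decide +kernel

theorem slab6 : slab 6 = true := by decide +kernel

theorem slab9 : slab 9 = true := by decide +kernel

theorem slab14 : slab 14 = true := by decide +kernel

theorem slab17 : slab 17 = true := by decide +kernel

theorem slab22 : slab 22 = true := by decide +kernel

theorem slab25 : slab 25 = true := by decide +kernel

theorem slab30 : slab 30 = true := by decide +kernel

end Pool.Agent.MP_8fe08c_co.h31
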