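import Pool.Agent.MP_8fe08c_co.h31.Trig

set_option autoImplicit false

namespace Pool.Agent.MP_8fe08c_co.h31

theorem slab33 : slab 33 = true := by decide +kernel

theorem slab38 : slab 38 = true := by decide +kernel

theorem slab41 : slab 41 = true := by decide +kernel

theorem slab46 : slab 46 = true := by decide +kernel

theorem slab49 : slab 49 = true := by decide +kernel

theorem slab54 : slab 54 = true := by decide +kernel

theorem slab57 : slab 57 = true := by decide +kernel

theorem slab62 : slab 62 = true := by decide +kernel

end Pool.Agent.MP_8fe08c_co.h31
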