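import Pool.Agent.MP_8fe08c_co.h31.Trig

set_option autoImplicit false

namespace Pool.Agent.MP_8fe08c_co.h31

theorem slab2 : slab 2 = true := by decide +kernel

theorem slab5 : slab 5 = true := by decide +kernel

theorem slab10 : slab 10 = true := by decide +kernel

theorem slab13 : slab 13 = true := by decide +kernel

theorem slab18 : slab 18 = true := by decide +kernel

theorem slab21 : slab 21 = true := by decide +kernel

theorem slab26 : slab 26 = true := by decide +kernel

theorem slab29 : slab 29 = true := by decide +kernel

end Pool.Agent.MP_8fe08c_co.h31
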