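import Pool.Agent.MP_8fe08c_co.h31.Trig

set_option autoImplicit false

namespace Pool.Agent.MP_8fe08c_co.h31

theorem slab34 : slab 34 = true := by decide +kernel

theorem slab37 : slab 37 = true := by decide +kernel

theorem slab42 : slab 42 = true := by decide +kernel

theorem slab45 : slab 45 = true := by decide +kernel

theorem slab50 : slab 50 = true := by decide +kernel

theorem slab53 : slab 53 = true := by decide +kernel

theorem slab58 : slab 58 = true := by decide +kernel

theorem slab61 : slab 61 = true := by decide +kernel

end Pool.Agent.MP_8fe08c_co.h31
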