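import Pool.Agent.MP_8fe08c_co.h31.Trig

set_option autoImplicit false

namespace Pool.Agent.MP_8fe08c_co.h31

theorem slab3 : slab 3 = true := by decide +kernel

theorem slab4 : slab 4 = true := by decide +kernel

theorem slab11 : slab 11 = true := by decide +kernel

theorem slab12 : slab 12 = true := by decide +kernel

theorem slab19 : slab 19 = true := by decide +kernel

theorem slab20 : slab 20 = true := by decide +kernel

theorem slab27 : slab 27 = true := by decide +kernel

theorem slab28 : slab 28 = true := by decide +kernel

end Pool.Agent.MP_8fe08c_co.h31
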