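import Pool.Agent.MP_8fe08c_co.h31.Trig

set_option autoImplicit false

namespace Pool.Agent.MP_8fe08c_co.h31

theorem slab35 : slab 35 = true := by decide +kernel

theorem slab36 : slab 36 = true := by decide +kernel

theorem slab43 : slab 43 = true := by decide +kernel

theorem slab44 : slab 44 = true := by decide +kernel

theorem slab51 : slab 51 = true := by decide +kernel

theorem slab52 : slab 52 = true := by decide +kernel

theorem slab59 : slab 59 = true := by decide +kernel

theorem slab60 : slab 60 = true := by decide +kernel

end Pool.Agent.MP_8fe08c_co.h31
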