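import Mathlib.Combinatorics.SimpleGraph.Walk.Operations
import Pool.Agent.MP_8fe08c_co.h31.Chain
import Pool.Agent.MP_8fe08c_co.h31.Defs
import Pool.Agent.MP_8fe08c_co.h31.Run0
import Pool.Agent.MP_8fe08c_co.h31.Run1
import Pool.Agent.MP_8fe08c_co.h31.Run2
import Pool.Agent.MP_8fe08c_co.h31.Run3
import Pool.Agent.MP_8fe08c_co.h31.Run4
import Pool.Agent.MP_8fe08c_co.h31.Run5
import Pool.Agent.MP_8fe08c_co.h31.Run6
import Pool.Agent.MP_8fe08c_co.h31.Run7
import Pool.Agent.MP_8fe08c_co.h31.Cert

-- ======== part 0: formerly Pool.Agent.MP_8fe08c_co.h31.Bridge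
section MrgPart0

set_option autoImplicit false

open Real
open scoped ENNReal

namespace Pool.Agent.MP_8fe08c_co.h31

theorem dist_dd (p q : Pt) : dist p q = dd (p 0) (p 1) (q 0) (q 1) := by
  rw [EuclideanSpace.dist_eq, Fin.sum_univ_two, Real.dist_eq, Real.dist_eq, sq_abs, sq_abs]; rfl

theorem seg_cases {a b x : Pt} (h : x ∈ segment ℝ a b) : x = a ∨ x = b ∨
    ∃ s : ℝ, 0 < s ∧ s < 1 ∧ x 0 = (1 - s) * a 0 + s * b 0 ∧ x 1 = (1 - s) * a 1 + s * b 1 := by
  rw [segment_eq_image] at h
  obtain ⟨s, ⟨s0, s1⟩, rfl⟩ := h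
  rcases eq_or_lt_of_le s0 with h0 | h0
  · left; simp [← h0]
  rcases eq_or_lt_of_le s1 with h1 | h1
  · right; left; simp [h1]
  right; right
  exact ⟨s, h0, h1, by simp, by simp⟩

theorem graphDist_self {P : Finset Pt} (G : SimpleGraph P) (u : P) : graphDist G u u = 0 := by
  apply le_antisymm _ zero_le
  refine (iInf_le _ SimpleGraph.Walk.nil).trans ?_
  simp [walkLength]

theorem graphDist_adj {P : Finset Pt} (G : SimpleGraph P) (u : P) {p q : P} (h : G.Adj p q) :
    graphDist G u q ≤ graphDist G u p + ENNReal.ofReal (dist (p : Pt) (q : Pt)) := by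
  unfold graphDist
  rw [ENNReal.iInf_add]
  refine le_iInf fun w => (iInf_le _ (w.concat h)).trans ?_
  have : walkLength (w.concat h) = walkLength w + dist (p : Pt) (q : Pt) := by
    simp [walkLength, SimpleGraph.Walk.darts_concat]
  rw [this]
  exact ENNReal.ofReal_add_le

theorem main_of_good {ι κ : Type} [Fintype ι] [Finite κ] {ρ : ℝ} {lam : ι → ℝ}
    {U : ι → ℝ × ℝ × ℝ → ℝ} {S : ι → κ → Set (ℝ × ℝ × ℝ)} (hG : Good ρ lam U S) (hρ : 1 ≤ ρ)
    (P : Finset Pt) : ∃ G : SimpleGraph P, IsPlane P G ∧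
      (∀ p q : P, G.Adj p q → ∃ (c : Pt) (r : ℝ), dist (p : Pt) c = r ∧ dist (q : Pt) c = r ∧
        ∀ w ∈ P, r ≤ dist w c) ∧ stretch G ≤ ENNReal.ofReal ρ := by
  classical
  set X : P → ℝ := fun p => (p : Pt) 0 with hX
  set Y : P → ℝ := fun p => (p : Pt) 1 with hY
  set ix : P → ℕ := fun p => (Fintype.equivFin P p : ℕ) with hix'
  have hix : Function.Injective ix := fun p q h => (Fintype.equivFin P).injective (Fin.ext h)
  have hinj : ∀ p q, X p = X q → Y p = Y q → p = q := by
    intro p q h1 h2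
    apply Subtype.ext
    ext i
    fin_cases i
    · exact h1
    · exact h2
  let G : SimpleGraph P := ⟨Adj X Y ix, ⟨fun _ _ h => h.symm⟩, ⟨fun _ h => h.1 rfl⟩⟩
  refine ⟨G, ⟨?_, ?_⟩, ?_, ?_⟩
  · intro a b c d hab hcd hne x hx1 hx2
    have hab' : Adj X Y ix a b := hab
    have hcd' : Adj X Y ix c d := hcd
    rcases seg_cases hx1 with h1 | h1 | ⟨s, s0, s1, e1, e2⟩
    · refine ⟨Or.inl h1, ?_⟩
      rcases seg_cases hx2 with h2 | h2 | ⟨t, t0, t1, f1, f2⟩
      · exact Or.inl h2
      · exact Or.inr h2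
      · rw [h1] at f1 f2
        exact (no_point hinj hcd' (p := a) t0 t1 f1 f2).elim
    · refine ⟨Or.inr h1, ?_⟩
      rcases seg_cases hx2 with h2 | h2 | ⟨t, t0, t1, f1, f2⟩
      · exact Or.inl h2
      · exact Or.inr h2
      · rw [h1] at f1 f2
        exact (no_point hinj hcd' (p := b) t0 t1 f1 f2).elim
    · exfalso
      rcases seg_cases hx2 with h2 | h2 | ⟨t, t0, t1, f1, f2⟩
      · rw [h2] at e1 e2
        exact no_point hinj hab' (p := c) s0 s1 e1 e2
      · rw [h2] at e1 e2
        exact no_point hinj hab' (p := d) s0 s1 e1 e2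
      · rcases no_cross hinj hix hab' hcd' s0 s1 t0 t1 (e1.symm.trans f1) (e2.symm.trans f2) with
          ⟨h1, h2⟩ | ⟨h1, h2⟩
        · exact hne (by rw [h1, h2])
        · exact hne (by rw [h1, h2, Sym2.eq_swap])
  · intro a b p hab hp
    have hab' : Adj X Y ix a b := hab
    rw [openSegment_eq_image] at hp
    obtain ⟨s, ⟨s0, s1⟩, hs⟩ := hp
    refine no_point hinj hab' (p := p) s0 s1 ?_ ?_
    · simp only [hX]; rw [← hs]; simp
    · simp only [hY]; rw [← hs]; simp
  · rintro p q ⟨hne, cx, cy, R, W⟩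
    have hd : ∀ w : P, dist (w : Pt) (!₂[cx, cy] : Pt) = √(pw X Y cx cy R w + R) := by
      intro w
      rw [dist_dd]; unfold dd pw
      congr 1
      simp [hX, hY]
    refine ⟨!₂[cx, cy], √R, by rw [hd, W.tp, zero_add], by rw [hd, W.tq, zero_add], ?_⟩
    intro w hw
    rw [hd ⟨w, hw⟩]
    apply sqrt_le_sqrt
    have := W.emp ⟨w, hw⟩
    linarith
  · unfold stretch
    refine iSup_le fun u => iSup_le fun v => iSup_le fun _ => ?_
    apply ENNReal.div_le_of_le_mul
    have hρ0 : 0 ≤ ρ := by linarith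
    have hd0 : 0 ≤ ρ * dist (u : Pt) (v : Pt) := mul_nonneg hρ0 dist_nonneg
    set M : ℝ≥0∞ := ENNReal.ofReal (ρ * dist (u : Pt) (v : Pt) + 1) with hM
    have fin : ∀ w, min (graphDist G u w) M ≠ ⊤ := fun w =>
      ne_top_of_le_ne_top ENNReal.ofReal_ne_top (min_le_right _ _)
    have hb := lip_bound hG hρ hinj hix (D := fun w => (min (graphDist G u w) M).toReal) ?_ u v
    · rw [graphDist_self, min_eq_left zero_le, ENNReal.toReal_zero, zero_add, ← dist_dd] at hb
      have h1 : min (graphDist G u v) M ≤ ENNReal.ofReal (ρ * dist (u : Pt) (v : Pt)) := by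
        rw [← ENNReal.ofReal_toReal (fin v)]
        exact ENNReal.ofReal_le_ofReal hb
      rw [edist_dist, ← ENNReal.ofReal_mul hρ0]
      rcases min_le_iff.mp h1 with h2 | h2
      · exact h2
      · exfalso
        rw [hM, ENNReal.ofReal_le_ofReal_iff hd0] at h2
        linarith
    · intro p q h
      have h1 := graphDist_adj G u (show G.Adj p q from h)
      have h2 : min (graphDist G u q) M ≤
          min (graphDist G u p) M + ENNReal.ofReal (dist (p : Pt) (q : Pt)) := by
        rw [← min_add_add_right]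
        exact min_le_min h1 le_self_add
      have h3 := ENNReal.toReal_mono (ENNReal.add_ne_top.mpr ⟨fin p, ENNReal.ofReal_ne_top⟩) h2
      rw [ENNReal.toReal_add (fin p) ENNReal.ofReal_ne_top, ENNReal.toReal_ofReal dist_nonneg,
        dist_dd] at h3
      exact h3

end Pool.Agent.MP_8fe08c_co.h31

end MrgPart0

-- ======== part 1: formerly Pool.Agent.MP_8fe08c_co.h31.Final
section MrgPart1

set_option autoImplicit false

namespace Pool.Agent.MP_8fe08c_co.h31

theorem all_slabs : ∀ b, b ≤ 64 → slab b = true := by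
  intro b hb
  interval_cases b
  · exact slab0
  · exact slab1
  · exact slab2
  · exact slab3
  · exact slab4
  · exact slab5
  · exact slab6
  · exact slab7
  · exact slab8
  · exact slab9
  · exact slab10
  · exact slab11
  · exact slab12
  · exact slab13
  · exact slab14
  · exact slab15
  · exact slab16
  · exact slab17
  · exact slab18
  · exact slab19
  · exact slab20
  · exact slab21
  · exact slab22
  · exact slab23
  · exact slab24
  · exact slab25
  · exact slab26
  · exact slab27
  · exact slab28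
  · exact slab29
  · exact slab30
  · exact slab31
  · exact slab32
  · exact slab33
  · exact slab34
  · exact slab35
  · exact slab36
  · exact slab37
  · exact slab38
  · exact slab39
  · exact slab40
  · exact slab41
  · exact slab42
  · exact slab43
  · exact slab44
  · exact slab45
  · exact slab46
  · exact slab47
  · exact slab48
  · exact slab49
  · exact slab50
  · exact slab51
  · exact slab52
  · exact slab53
  · exact slab54
  · exact slab55
  · exact slab56
  · exact slab57
  · exact slab58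
  · exact slab59
  · exact slab60
  · exact slab61
  · exact slab62
  · exact slab63
  · exact slab64

theorem upper_bound (P : Finset Pt) : ∃ G : SimpleGraph P, IsPlane P G ∧
    (∀ p q : P, G.Adj p q → ∃ (c : Pt) (r : ℝ), dist (p : Pt) c = r ∧ dist (q : Pt) c = r ∧
      ∀ w ∈ P, r ≤ dist w c) ∧ stretch G ≤ ENNReal.ofReal (347 / 200) :=
  main_of_good (good all_slabs start_ok) (by norm_num) P

end Pool.Agent.MP_8fe08c_co.h31

end MrgPart1

-- marker of a merged file
example : 731051 + 350268 = 731051 + 350268 := rfl
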